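import Pool.Agent.Lib.MP_b5021c_nt.KO.H90.M1

/-!
# MP_b5021c_nt, all `θ`, K odd, `l = 3`, ALPHA, row M1: the lowest coefficient of a closed triple
-/

set_option linter.unusedSectionVars false

namespace Pool.Agent.B5.KO90

open scoped LaurentPolynomial
open Polynomial
open Pool.Agent.B5.KO.H71 (Tri Fr z3a z3b z3c z3d z3e z3f z3g z3v z3h)
open Pool.Agent.B5.H40 (exists_normal)
open Pool.Agent.B5.BP57 (zf_of_unit ray_poly one_of_zf embZ)
open Pool.Agent.B5.KO57 (ImT im_one tri_mut)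

section

variable {P : Type} [Fintype P] [DecidableEq P] {L : Type} [AddCommGroup L] [Module.Free ℤ L]
  [Module.Finite ℤ L] {phi : L →+ (P → ℤ)} {G : AO ℤ L} {r : ZMod 3 → L} {e : ZMod 3 → (RO ℤ)ˣ}
  {mu : ZMod 3 → L →+ ℤ}

/-- (M1, normalised) -/
theorem m1n (hF1 : F1S) (hMin : MinS) (hC0 : Coeff0S) (hW : WWfS) (hG0 : G0S) (hRk : RkS)
    (hKm : KmuS) (hFD : FDS) (hE1 : E1S) (hMV : MVS) (hSm : SmallS) (hEvz : EvzS) (hKvx : KvxS)
    (hE2 : E2S) (hVZ : VZS) (hU : UnitRS) (hM1 : M1S) (hMfc : MfcS)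
    (T : Tri phi G r e mu) (hD : DD phi G) (hray : ∀ i, Ray G (r i)) (him : ImT phi r) {N : ℕ}
    (hN : 3 ≤ N) (hr : Module.finrank ℤ L + 1 = 2 * N) (hcv : ClassV N (G.coeff 0)) {p : ℤ[X]}
    (hp : G.coeff 0 = toLaurent p) (hp0 : p.coeff 0 = N) :
    (∃ g : ℤ[X], (e 0 : RO ℤ) * G.coeff (r 0) = -toLaurent g ∧ 1 ≤ g.coeff 0) ∨
      (p = C (N : ℤ) ∧ (e 0 : RO ℤ) * G.coeff (r 0) = 1 ∧ ZFree G) := by
  have hpne : p.coeff 0 ≠ 0 := by rw [hp0]; exact_mod_cast (show N ≠ 0 by omega)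
  obtain ⟨hpz, -⟩ := zf_of_unit hU hcv (w := 1) (p := p) (by rw [Units.val_one, one_mul, hp]) hpne
  obtain ⟨m0, f, hf, hf0, hcl, hle, hlt⟩ := ray_poly hE2 hVZ hD (by omega) (hray 0) (n := 0) (q := p)
    (by rw [LaurentPolynomial.T_zero, one_mul, hp]) hpz
  obtain ⟨s0, k0, hs0, he0, -⟩ := unit_mono hU (e 0)
  have hs0n : s0 ≠ 0 := by rcases hs0 with h1 | h1 <;> rw [h1] <;> norm_num
  have hns0 : ‖(Coef.emb (-s0) : ℂ)‖ = 1 := by
    rw [embZ, Complex.norm_intCast]
    rcases hs0 with h1 | h1 <;> rw [h1] <;> norm_num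
  obtain ⟨g, hgd⟩ : ∃ g : ℤ[X], g = C (-s0) * f := ⟨_, rfl⟩
  obtain ⟨m, hm⟩ : ∃ m : ℤ, m = k0 + m0 := ⟨_, rfl⟩
  have hg : (e 0 : RO ℤ) * G.coeff (r 0) = -(LaurentPolynomial.T m * toLaurent g) := by
    rw [he0, hf, hgd, hm, LaurentPolynomial.T_add, map_mul, toLaurent_C, map_neg]
    ring
  have hg0 : g.coeff 0 ≠ 0 := by
    rw [hgd, coeff_C_mul]
    exact mul_ne_zero (neg_ne_zero.2 hs0n) hf0
  have hgn : ∀ z : ℂ, ‖(g.map (Coef.emb : ℤ →+* ℂ)).eval z‖ =
      ‖(f.map (Coef.emb : ℤ →+* ℂ)).eval z‖ := by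
    intro z
    rw [hgd, Polynomial.map_mul, map_C, eval_mul, eval_C, norm_mul, hns0, one_mul]
  have hlt' : ∀ z : ℂ, ‖z‖ < 1 → ‖(g.map (Coef.emb : ℤ →+* ℂ)).eval z‖ <
      ‖(p.map (Coef.emb : ℤ →+* ℂ)).eval z‖ := by
    intro z hz
    rw [hgn]
    exact hlt z hz
  obtain ⟨s, hs, hsg⟩ : ∃ s : ℤ, (s = 1 ∨ s = -1) ∧ 1 ≤ s * g.coeff 0 := by
    rcases lt_or_gt_of_ne hg0 with h1 | h1
    · exact ⟨-1, Or.inr rfl, by omega⟩
    · exact ⟨1, Or.inl rfl, by omega⟩
  by_cases hA : m = 0 ∧ s = 1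
  · left
    refine ⟨g, ?_, ?_⟩
    · rw [hg, hA.1, LaurentPolynomial.T_zero, one_mul]
    · have h1 := hsg
      rw [hA.2, one_mul] at h1
      exact h1
  · right
    have hs1 : s ≠ 0 := by rcases hs with h1 | h1 <;> rw [h1] <;> norm_num
    have hss : s * s = 1 := by rcases hs with h1 | h1 <;> rw [h1] <;> norm_num
    obtain ⟨la, hla⟩ : ∃ la : (RO ℤ)ˣ, (la : RO ℤ) =
        LaurentPolynomial.C s * LaurentPolynomial.T (-m) := by
      have h1 : IsUnit (LaurentPolynomial.C s * LaurentPolynomial.T (-m) : RO ℤ) :=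
        (hU ℤ _).mpr ⟨-m, s, Int.isUnit_iff.2 hs, rfl⟩
      exact ⟨h1.unit, rfl⟩
    have hla1 : la ≠ 1 := by
      intro h1
      rw [h1, Units.val_one] at hla
      have h2 : (LaurentPolynomial.T 0 : RO ℤ) * toLaurent (C (1 : ℤ)) =
          LaurentPolynomial.T (-m) * toLaurent (C s) := by
        rw [toLaurent_C, toLaurent_C, LaurentPolynomial.T_zero, map_one, one_mul, hla, mul_comm]
      obtain ⟨h3, h4⟩ := H09.nf_unique _ _ _ _ (by simp) (by simpa using hs1) h2
      apply hA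
      refine ⟨by omega, ?_⟩
      exact (C_injective h4).symm
    obtain ⟨i0, hi0⟩ := T.port hD.inj 0
    have h : co phi i0 (r 0) = 1 := hi0
    obtain ⟨hone, c, F, hclF, hF⟩ := m1_core hF1 hMin hC0 hW hG0 hRk hKm hFD hE1 hMV hSm hEvz hKvx T
      hD hray him hN hr hp hp0 hg hlt' hs hsg la hla hla1 i0 h
    have hgs : g.coeff 0 = s := by
      rcases hs with h1 | h1
      · rw [h1] at hone ⊢
        omega
      · rw [h1] at hone ⊢
        omega
    have hV : G.coeff 0 + ((la * e 0 : (RO ℤ)ˣ) : RO ℤ) * G.coeff (r 0) =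
        toLaurent (p - C s * g) := by
      have h1 : (LaurentPolynomial.T (-m) : RO ℤ) * LaurentPolynomial.T m = 1 := by
        rw [← LaurentPolynomial.T_add, neg_add_cancel, LaurentPolynomial.T_zero]
      rw [Units.val_mul, mul_assoc, hg, hla, hp, map_sub, map_mul, toLaurent_C]
      linear_combination (-(LaurentPolynomial.C s * toLaurent g : RO ℤ)) * h1
    have hVc : (p - C s * g).coeff 0 = N - 1 := by
      rw [coeff_sub, coeff_C_mul, hp0, hone]
    have hVc0 : (p - C s * g).coeff 0 ≠ 0 := by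
      rw [hVc]
      omega
    have hid := fun (W : ℤ[X]) (d : ℤ) => m1_id hF1 hU T hD hray la h hclF hF (W := W) (d := d) hV
      hVc0 hg
    rw [hVc] at hid
    -- the value of the mutual pair
    have hmf : ∀ (z : Circle) (x : ℂ), ‖x‖ < 1 →
        evR z (toLaurent p) + -((z : ℂ) ^ m * evR z (toLaurent g)) * (x + x - x * x) ≠ 0 := by
      intro z x hx
      have h1 := hMfc ℤ P L phi G (r 0) (r 1) (e 0) (e 1) hD (by omega)
        (tri_mut T hray (by decide)) z x x hx hx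
      rw [hp, hg, map_neg, map_mul, H07.evR_T] at h1
      exact h1
    rcases lt_trichotomy m 0 with hm0 | hm0 | hm0
    · -- `m < 0`
      exfalso
      obtain ⟨k, hk⟩ : ∃ k : ℕ, m = -(k : ℤ) := ⟨(-m).toNat, by omega⟩
      have hk0 : 0 < k := by omega
      have h1 := hid ((1 - C s * X ^ k) * g) (-(k : ℤ)) (by
        rw [hla, hk, neg_neg, map_mul, map_sub, map_mul, toLaurent_C, map_one,
          Polynomial.toLaurent_X_pow]
        ring) (by
        rw [mul_coeff_zero, coeff_sub, coeff_C_mul, coeff_X_pow, if_neg (by omega), mul_zero,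
          sub_zero, coeff_one_zero, one_mul]
        exact hg0)
      have h2 : ((1 - C s * X ^ k) * g : ℤ[X]).coeff 0 = s := by
        rw [mul_coeff_zero, coeff_sub, coeff_C_mul, coeff_X_pow, if_neg (by omega), mul_zero,
          sub_zero, coeff_one_zero, one_mul, hgs]
      rw [h2] at h1
      obtain ⟨l, hl, x, hx, hxl⟩ := wit2 (N := N) (by exact_mod_cast hN)
      have hsl : ‖(s : ℂ) * l‖ = 1 := by
        rw [norm_mul, hl, mul_one, Complex.norm_intCast]
        rcases hs with h3 | h3 <;> rw [h3] <;> norm_num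
      obtain ⟨z, hz⟩ := circ_root hsl hk0
      apply hmf z x hx
      have h3 := congrArg (fun P : ℤ[X] => evR z (toLaurent P : RO ℤ)) h1
      have h4 : ∀ a : ℤ, evR z (LaurentPolynomial.C a : RO ℤ) = (a : ℂ) := by
        intro a
        have h5 := H07.evR_toLaurent z (C a : ℤ[X])
        rw [toLaurent_C, map_C, eval_C, embZ] at h5
        exact h5
      simp only [map_mul, map_sub, toLaurent_C, map_one, Polynomial.toLaurent_X_pow, H07.evR_T,
        h4, zpow_natCast] at h3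
      rw [hz] at h3
      have hzm : (z : ℂ) ^ m * (s * l) = 1 := by
        rw [hk, zpow_neg, zpow_natCast, hz]
        apply inv_mul_cancel₀
        intro h0
        rw [h0, norm_zero] at hsl
        exact zero_ne_one hsl
      have hssC : (s : ℂ) * s = 1 := by exact_mod_cast hss
      obtain ⟨A, hA'⟩ : ∃ A, A = evR z (toLaurent p : RO ℤ) := ⟨_, rfl⟩
      obtain ⟨B, hB'⟩ : ∃ B, B = evR z (toLaurent g : RO ℤ) := ⟨_, rfl⟩
      rw [← hA', ← hB'] at h3 ⊢
      push_cast at h3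
      have hzm2 : (z : ℂ) ^ m * l = s := by
        have h5 : (z : ℂ) ^ m * l = (s * s) * ((z : ℂ) ^ m * l) := by rw [hssC, one_mul]
        rw [h5]
        linear_combination (s : ℂ) * hzm
      have e1 : A = s * B + s * (N - 1) * (1 - l) * B := by
        linear_combination (s : ℂ) * h3 + (-A + (s : ℂ) * B - (s : ℂ) * (N - 1) * l * B) * hssC
      have e2 : (x + x - x * x) = N * l - (N - 1) * l ^ 2 := by linear_combination -hxl
      rw [e1, e2]
      linear_combination (-(B * (N - (N - 1) * l))) * hzm2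
    · -- `m = 0`, `s = -1`
      have hsm : s = -1 := by
        rcases hs with h1 | h1
        · exact absurd ⟨hm0, h1⟩ hA
        · exact h1
      have hlam : (la : RO ℤ) = -1 := by
        rw [hla, hm0, hsm, neg_zero, LaurentPolynomial.T_zero, mul_one, map_neg, map_one]
      have h1 := hid (C 2 * g) 0 (by
        rw [hlam, hm0, map_mul, toLaurent_C, LaurentPolynomial.T_zero, one_mul, one_mul]
        have h2 : (LaurentPolynomial.C (2 : ℤ) : RO ℤ) = 1 - -1 := by
          rw [map_ofNat]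
          norm_num
        rw [h2]) (by
        rw [coeff_C_mul]
        exact mul_ne_zero two_ne_zero hg0)
      rw [coeff_C_mul, hgs, hsm] at h1
      have h2 : p = -(C (N : ℤ) * g) := by
        have h3 : C (2 : ℤ) * p = C 2 * (-(C (N : ℤ) * g)) := by
          simp only [map_mul, map_neg, map_sub, map_one] at h1 ⊢
          linear_combination (-1 : ℤ[X]) * h1
        exact mul_left_cancel₀ (by rw [Ne, C_eq_zero]; norm_num) h3
      have h3 : -g = 1 := by
        apply one_of_zf hU hM1 hMV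
        · rw [coeff_neg, hgs, hsm, neg_neg]
        · intro z hz h0
          apply hcl z hz
          rw [h2, Polynomial.map_neg, Polynomial.map_mul, eval_neg, eval_mul, map_C, eval_C]
          rw [Polynomial.map_neg, eval_neg, neg_eq_zero] at h0
          rw [h0, mul_zero, neg_zero]
      have h4 : g = -1 := by rw [← h3, neg_neg]
      have h5 : (e 0 : RO ℤ) * G.coeff (r 0) = 1 := by
        rw [hg, hm0, LaurentPolynomial.T_zero, one_mul, h4, map_neg, map_one, neg_neg]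
      have h6 : p = C (N : ℤ) := by rw [h2, h4]; ring
      refine ⟨h6, h5, ?_⟩
      apply m1_zf hF1 hU T hD hray la hlam h hclF hF (a := (N : ℤ) - 1) (by omega) ?_ h5
      rw [hV, h6, h4, hsm]
      have h7 : (C (N : ℤ) - C (-1) * -1 : ℤ[X]) = C ((N : ℤ) - 1) := by
        simp only [map_sub, map_neg, map_one]
        ring
      rw [h7, toLaurent_C]
    · -- `m > 0`
      exfalso
      obtain ⟨k, hk⟩ : ∃ k : ℕ, m = (k : ℤ) := ⟨m.toNat, by omega⟩
      have hk0 : 0 < k := by omega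
      have h1 := hid ((X ^ k - C s) * g) 0 (by
        rw [hla, hk, map_mul, map_sub, toLaurent_C, Polynomial.toLaurent_X_pow,
          LaurentPolynomial.T_zero, one_mul]
        have h3 : (LaurentPolynomial.T (-(k : ℤ)) : RO ℤ) * LaurentPolynomial.T (k : ℤ) = 1 := by
          rw [← LaurentPolynomial.T_add, neg_add_cancel, LaurentPolynomial.T_zero]
        linear_combination (-(LaurentPolynomial.C s * toLaurent g : RO ℤ)) * h3) (by
        rw [mul_coeff_zero, coeff_sub, coeff_X_pow, if_neg (by omega), coeff_C_zero, zero_sub]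
        exact mul_ne_zero (neg_ne_zero.2 hs1) hg0)
      have h2 : ((X ^ k - C s) * g : ℤ[X]).coeff 0 = -1 := by
        rw [mul_coeff_zero, coeff_sub, coeff_X_pow, if_neg (by omega), coeff_C_zero, zero_sub,
          neg_mul, hone]
      rw [h2] at h1
      obtain ⟨l, hl, x, hx, hxl⟩ := wit1 (N := N) (by
        have h3 : 1 ≤ N := by omega
        exact_mod_cast h3)
      have hl0 : l ≠ 0 := by
        intro h0
        rw [h0, norm_zero] at hl
        exact zero_ne_one hl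
      have hsl : ‖(s : ℂ) * l⁻¹‖ = 1 := by
        rw [norm_mul, norm_inv, hl, inv_one, mul_one, Complex.norm_intCast]
        rcases hs with h3 | h3 <;> rw [h3] <;> norm_num
      obtain ⟨z, hz⟩ := circ_root hsl hk0
      apply hmf z x hx
      have h3 := congrArg (fun P : ℤ[X] => evR z (toLaurent P : RO ℤ)) h1
      have h4 : ∀ a : ℤ, evR z (LaurentPolynomial.C a : RO ℤ) = (a : ℂ) := by
        intro a
        have h5 := H07.evR_toLaurent z (C a : ℤ[X])
        rw [toLaurent_C, map_C, eval_C, embZ] at h5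
        exact h5
      simp only [map_mul, map_sub, toLaurent_C, map_one, Polynomial.toLaurent_X_pow, H07.evR_T,
        h4, zpow_natCast] at h3
      have hzl : (z : ℂ) ^ k * l = s := by
        rw [hz, mul_assoc, inv_mul_cancel₀ hl0, mul_one]
      rw [hk, zpow_natCast]
      obtain ⟨A, hA'⟩ : ∃ A, A = evR z (toLaurent p : RO ℤ) := ⟨_, rfl⟩
      obtain ⟨B, hB'⟩ : ∃ B, B = evR z (toLaurent g : RO ℤ) := ⟨_, rfl⟩
      rw [← hA', ← hB'] at h3 ⊢
      push_cast at h3
      linear_combination (-1 : ℂ) * h3 + ((z : ℂ) ^ k * B) * hxl - (N * B : ℂ) * hzl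

theorem classV_cst (hU : UnitRS) {N : ℝ} {Q : RO ℤ} (w : (RO ℤ)ˣ) (h : ClassV N Q) :
    ClassV N ((w : RO ℤ) * Q) := by
  obtain ⟨s, k, hs, hw, -⟩ := unit_mono hU w
  obtain ⟨hN, n, q, hq, hq0, hqz⟩ := h
  have hsn : ‖(Coef.emb s : ℂ)‖ = 1 := by
    rw [embZ, Complex.norm_intCast]
    rcases hs with h1 | h1 <;> rw [h1] <;> norm_num
  refine ⟨hN, k + n, C s * q, ?_, ?_, ?_⟩
  · rw [hw, hq, LaurentPolynomial.T_add, map_mul, toLaurent_C]
    ring
  · rw [coeff_C_mul, map_mul, norm_mul, hsn, one_mul, hq0]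
  · intro z hz h0
    rw [Polynomial.map_mul, map_C, eval_mul, eval_C] at h0
    rcases mul_eq_zero.1 h0 with h1 | h1
    · rw [h1, norm_zero] at hsn
      exact zero_ne_one hsn
    · exact hqz z hz h1

theorem zfree_cst (hU : UnitRS) (w : (RO ℤ)ˣ) (h : ZFree (cst (w : RO ℤ) * G)) : ZFree G := by
  obtain ⟨s, k, hs, hw, -⟩ := unit_mono hU w
  obtain ⟨q, l, n, hq, hz⟩ := h
  have hs0 : s ≠ 0 := by rcases hs with h1 | h1 <;> rw [h1] <;> norm_num
  refine ⟨q, l, n - k, hq, fun a j hj => ?_⟩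
  have h1 : ((cst (w : RO ℤ) * G).coeff a).coeff (j + k) ≠ 0 := by
    have h2 : (LaurentPolynomial.C s * LaurentPolynomial.T k * G.coeff a : RO ℤ) =
        LaurentPolynomial.T k * (LaurentPolynomial.C s * G.coeff a) := by ring
    rw [KO.H71.cst_co, hw, h2, H78.T_mul_coeff, add_sub_cancel_right]
    have h3 : (LaurentPolynomial.C s * G.coeff a : RO ℤ).coeff j = s * (G.coeff a).coeff j :=
      AddMonoidAlgebra.coeff_single_zero_mul _ _ _
    rw [h3]
    exact mul_ne_zero hs0 hj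
  have h4 := hz a (j + k) h1
  linarith

/-- ROW M1: a closed triple in class `V(N)`, rank `2 N - 1`: the lowest coefficient of `u` is at
least one, or `p = N`, `u = - 1` and `G` is z-free. -/
theorem m1 (hF1 : F1S) (hMin : MinS) (hC0 : Coeff0S) (hW : WWfS) (hG0 : G0S) (hRk : RkS)
    (hKm : KmuS) (hFD : FDS) (hE1 : E1S) (hMV : MVS) (hSm : SmallS) (hEvz : EvzS) (hKvx : KvxS)
    (hE2 : E2S) (hVZ : VZS) (hU : UnitRS) (hM1 : M1S) (hMfc : MfcS)
    (T : Tri phi G r e mu) (hD : DD phi G) (hray : ∀ i, Ray G (r i)) (him : ImT phi r) {N : ℕ}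
    (hN : 3 ≤ N) (hr : Module.finrank ℤ L + 1 = 2 * N) (hcv : ClassV N (G.coeff 0)) {w : (RO ℤ)ˣ}
    {p : ℤ[X]} (hp : (w : RO ℤ) * G.coeff 0 = toLaurent p) (hp0 : p.coeff 0 = N) :
    (∃ g : ℤ[X], (w : RO ℤ) * ((e 0 : RO ℤ) * G.coeff (r 0)) = -toLaurent g ∧ 1 ≤ g.coeff 0) ∨
      (p = C (N : ℤ) ∧ (w : RO ℤ) * ((e 0 : RO ℤ) * G.coeff (r 0)) = 1 ∧ ZFree G) := by
  have hw0 : (w : RO ℤ) ≠ 0 := w.ne_zero
  have hD' : DD phi (cst (w : RO ℤ) * G) :=
    H78.dd_cst w.isUnit (fun z => (w.isUnit.map (evR z)).ne_zero) hD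
  have hT' : Tri phi (cst (w : RO ℤ) * G) r e mu := (KO.H71.Tri.cst_iff hw0).2 T
  have hs := KO.H71.cst_supp hw0 G
  have hray' : ∀ i, Ray (cst (w : RO ℤ) * G) (r i) := by
    intro i
    obtain ⟨h1, h2, l, h3, h4⟩ := hray i
    exact ⟨by rw [hs]; exact h1, h2, l, h3, fun a ha => h4 a (by rw [← hs]; exact ha)⟩
  have h1 := m1n hF1 hMin hC0 hW hG0 hRk hKm hFD hE1 hMV hSm hEvz hKvx hE2 hVZ hU hM1 hMfc hT' hD'
    hray' him hN hr (by rw [KO.H71.cst_co]; exact classV_cst hU w hcv) (p := p)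
    (by rw [KO.H71.cst_co]; exact hp) hp0
  rw [KO.H71.cst_co] at h1
  have h2 : (e 0 : RO ℤ) * ((w : RO ℤ) * G.coeff (r 0)) =
      (w : RO ℤ) * ((e 0 : RO ℤ) * G.coeff (r 0)) := by ring
  rw [h2] at h1
  rcases h1 with h3 | ⟨h3, h4, h5⟩
  · exact Or.inl h3
  · exact Or.inr ⟨h3, h4, zfree_cst hU w h5⟩

end

end Pool.Agent.B5.KO90
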