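import Pool.Agent.Lib.MP_b5021c_nt.KO.H90.I1b
import Pool.Agent.Lib.MP_b5021c_nt.KO.H71.Ncl

/-!
# MP_b5021c_nt, all `θ`, K odd, `l = 3`, ALPHA, row I1: the closing of `r i` of a closed triple at
any load `/= e i` is one factor (times a constant), in `DD`, drop free
-/

set_option linter.unusedSectionVars false

namespace Pool.Agent.B5.KO90

open scoped LaurentPolynomial
open AddMonoidAlgebra
open Pool.Agent.B5.KO.H71 (Tri Fr z3a z3b z3c z3d z3e z3f z3g z3v z3h)

section

variable {O : Type} [CommRing O] [IsDomain O] [IsPrincipalIdealRing O] [Coef O] {P : Type}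
  [Fintype P] [DecidableEq P] {L : Type} [AddCommGroup L] [Module.Free ℤ L] [Module.Finite ℤ L]
  {phi : L →+ (P → ℤ)} {G : AO O L} {r : ZMod 3 → L} {e : ZMod 3 → (RO O)ˣ}
  {mu : ZMod 3 → L →+ ℤ}

/-- A closed triple gives the bigraded data. -/
theorem bg_of_tri (hF1 : F1S) (T : Tri phi G r e mu) (hG : DD phi G) (i : ZMod 3)
    (hR : Ray G (r i)) {i0 : P} (h : co phi i0 (r i) = 1) (lam : (RO O)ˣ) :
    Bg phi G (r i) (r (i + 1)) (r (i - 1)) (e i) (e (i + 1)) (e (i - 1)) lam i0
      (-(mu (i - 1))) (mu (i + 1)) := by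
  have hI := hG.inj
  have hb := hG.bin
  have hp : phi (r i) i0 = 1 := h
  have c1 : phi (r (i + 1)) i0 = 0 :=
    (T.dis i (i + 1) (z3e i) i0).resolve_left (by rw [hp]; exact one_ne_zero)
  have c2 : phi (r (i - 1)) i0 = 0 :=
    (T.dis i (i - 1) (z3f i) i0).resolve_left (by rw [hp]; exact one_ne_zero)
  have m1 : mu (i - 1) (r (i + 1)) = -1 := by
    have h1 := T.prv' (i + 1)
    rwa [z3a] at h1
  have m2 : mu (i + 1) (r (i - 1)) = 1 := by
    have h1 := T.nxt' (i - 1)
    rwa [z3b] at h1
  have m3 : mu (i - 1) (r i) = 1 := T.nxt' i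
  have m4 : mu (i + 1) (r i) = -1 := T.prv' i
  have fu : ∀ u, Fr phi r mu u → phi u i0 = 0 := fun u hu =>
    (hu.1 i i0).resolve_right (by rw [hp]; exact one_ne_zero)
  refine ⟨h, c1, c2, ?_, ?_, ?_, ?_, ?_, ?_, ?_, ?_, ?_, ?_⟩
  · rw [AddMonoidHom.neg_apply, m1, neg_neg]
  · rw [AddMonoidHom.neg_apply, T.slf, neg_zero]
  · exact T.slf _
  · exact m2
  · intro a ha
    exact hb a ha i0
  · intro b hb0 hbG
    have hb0' : phi b i0 = 0 := hb0
    rw [AddMonoidHom.neg_apply]
    rcases hbG with hb1 | hb1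
    · rcases T.nf hF1 hI hb hb1 with h1 | ⟨j, u, hu, h1⟩ | ⟨j, u, hu, h1⟩
      · rw [h1, h1]
        exact ⟨Or.inl neg_zero, Or.inl rfl⟩
      · rcases z3h i j with rfl | rfl | rfl
        · exfalso
          rw [h1, map_add, Pi.add_apply, fu u hu, hp] at hb0'
          exact absurd hb0' (by norm_num)
        · rw [h1, map_add, map_add, hu.2, hu.2, m1, T.slf]
          exact ⟨Or.inr (by norm_num), Or.inl (by norm_num)⟩
        · rw [h1, map_add, map_add, hu.2, hu.2, T.slf, m2]
          exact ⟨Or.inl (by norm_num), Or.inr (by norm_num)⟩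
      · rcases z3h i j with rfl | rfl | rfl
        · rw [h1, map_add, map_add, map_add, map_add, hu.2, hu.2, T.slf, T.slf, m1, m2]
          exact ⟨Or.inr (by norm_num), Or.inr (by norm_num)⟩
        · exfalso
          rw [z3a, z3c] at h1
          rw [h1, map_add, map_add, Pi.add_apply, Pi.add_apply, fu u hu, hp, c2] at hb0'
          exact absurd hb0' (by norm_num)
        · exfalso
          rw [z3d, z3b] at h1
          rw [h1, map_add, map_add, Pi.add_apply, Pi.add_apply, fu u hu, hp, c1] at hb0'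
          exact absurd hb0' (by norm_num)
    · have hbp : phi (b + r i) i0 = 1 := by rw [map_add, Pi.add_apply, hb0', hp, zero_add]
      have v1 : mu (i - 1) b = mu (i - 1) (b + r i) - 1 := by rw [map_add, m3]; ring
      have v2 : mu (i + 1) b = mu (i + 1) (b + r i) + 1 := by rw [map_add, m4]; ring
      rw [v1, v2]
      rcases T.nf hF1 hI hb hb1 with h1 | ⟨j, u, hu, h1⟩ | ⟨j, u, hu, h1⟩
      · rw [h1, h1]
        exact ⟨Or.inr (by norm_num), Or.inr (by norm_num)⟩
      · rcases z3h i j with rfl | rfl | rfl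
        · rw [h1, map_add, map_add, hu.2, hu.2, m3, m4]
          exact ⟨Or.inl (by norm_num), Or.inl (by norm_num)⟩
        · exfalso
          rw [h1, map_add, Pi.add_apply, fu u hu, c1] at hbp
          exact absurd hbp (by norm_num)
        · exfalso
          rw [h1, map_add, Pi.add_apply, fu u hu, c2] at hbp
          exact absurd hbp (by norm_num)
      · rcases z3h i j with rfl | rfl | rfl
        · exfalso
          rw [h1, map_add, map_add, Pi.add_apply, Pi.add_apply, fu u hu, c1, c2] at hbp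
          exact absurd hbp (by norm_num)
        · rw [z3a, z3c] at h1
          rw [h1, map_add, map_add, map_add, map_add, hu.2, hu.2, T.slf, m3, m4, m2]
          exact ⟨Or.inl (by norm_num), Or.inr (by norm_num)⟩
        · rw [z3d, z3b] at h1
          rw [h1, map_add, map_add, map_add, map_add, hu.2, hu.2, T.slf, m3, m4, m1]
          exact ⟨Or.inr (by norm_num), Or.inl (by norm_num)⟩
  · intro b hb0 hne
    have hmi : mu i b ≠ 0 := by
      intro h0
      apply hne
      have h1 := T.sum3 i b
      rw [AddMonoidHom.neg_apply]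
      linarith
    exact KO.H40.flip_lo hF1 hG hR (fun hU => hmi (T.us i b hU)) hp hb0
  · intro b _ hb1 hb2
    rw [AddMonoidHom.neg_apply] at hb1
    have k1 : mu (i - 1) b = 0 := by linarith
    have k0 : mu i b = 0 := by
      have h1 := T.sum3 i b
      linarith
    have kk : ∀ j, mu j b = 0 := by
      intro j
      rcases z3h i j with rfl | rfl | rfl
      · exact k0
      · exact hb2
      · exact k1
    by_cases hf : Fr phi r mu b
    · exact T.all_eq hF1 hI hb hf i (i + 1)
    · have key : ∀ j, G.coeff (b + r j) = 0 := by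
        intro j
        by_contra hne
        apply hf
        obtain ⟨h1, h2, h3⟩ := T.va j b
        have h4 := T.ty1 hF1 hI hb (i := j) hne (by rw [h1, kk]) (by rw [h2, kk]; norm_num)
          (by rw [h3, kk]; norm_num)
        rwa [add_sub_cancel_right] at h4
      rw [key, key, mul_zero, mul_zero]
  · intro b _ hb1 hb2
    rw [AddMonoidHom.neg_apply] at hb1
    have k1 : mu (i - 1) b = 0 := by linarith
    have k0 : mu i b = 0 := by
      have h1 := T.sum3 i b
      linarith
    have kk : ∀ j, mu j b = 0 := by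
      intro j
      rcases z3h i j with rfl | rfl | rfl
      · exact k0
      · exact hb2
      · exact k1
    by_cases hf : Fr phi r mu b
    · exact T.all_eq hF1 hI hb hf i (i - 1)
    · have key : ∀ j, G.coeff (b + r j) = 0 := by
        intro j
        by_contra hne
        apply hf
        obtain ⟨h1, h2, h3⟩ := T.va j b
        have h4 := T.ty1 hF1 hI hb (i := j) hne (by rw [h1, kk]) (by rw [h2, kk]; norm_num)
          (by rw [h3, kk]; norm_num)
        rwa [add_sub_cancel_right] at h4
      rw [key, key, mul_zero, mul_zero]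
  · intro b _ hb1 hb2
    rw [AddMonoidHom.neg_apply] at hb1
    have k1 : mu (i - 1) b = -1 := by linarith
    have k0 : mu i b = 0 := by
      have h1 := T.sum3 i b
      linarith
    have w1 : mu i (r (i - 1)) = -1 := T.prv i
    have a0 : mu i (b - r (i - 1)) = 1 := by rw [map_sub, k0, w1]; norm_num
    have a1 : mu (i + 1) (b - r (i - 1)) = 0 := by rw [map_sub, hb2, m2]; norm_num
    have a2 : mu (i - 1) (b - r (i - 1)) = -1 := by rw [map_sub, k1, T.slf]; norm_num
    have key : Fr phi r mu (b - r (i - 1) - r (i + 1)) →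
        G.coeff (b - r (i - 1)) + (e (i - 1) : RO O) * G.coeff b = 0 := by
      intro hf
      have h1 := T.fa hF1 hI hb (i := i - 1) (a := b - r (i - 1)) (by rw [a2]; norm_num) (by
        have h2 := T.fr_d hf (i := i + 1) (j := i - 1) (z3g i)
        rwa [sub_add_cancel] at h2)
      rwa [sub_add_cancel] at h1
    by_cases g1 : G.coeff (b - r (i - 1)) = 0
    · by_cases g2 : G.coeff b = 0
      · rw [g1, g2, mul_zero, add_zero]
      · apply key
        have h1 := T.ty2 hF1 hI hb (i := i) (a := b) g2 k0 hb2 k1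
        have h2 : b - r (i + 1) - r (i - 1) = b - r (i - 1) - r (i + 1) := by abel
        rwa [h2] at h1
    · apply key
      exact T.ty1 hF1 hI hb (i := i + 1) g1 a1 (by rw [z3a]; exact a2) (by rw [z3c]; exact a0)

/-- (I1) THE CLOSING OF ONE RAY OF A CLOSED TRIPLE AT A LOAD WITHOUT A DROP: one factor in `DD`
times a constant; full rank. -/
theorem i1 (hF1 : F1S) (hMin : MinS) (hC0 : Coeff0S) (hWWf : WWfS) (hG0S : G0S) (hRk : RkS)
    (hKmu : KmuS) (T : Tri phi G r e mu) (i : ZMod 3) (hI : ImS phi (r i)) {i0 : P}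
    {h : co phi i0 (r i) = 1} {lam : (RO O)ˣ} {c : RO O} {n : ℕ}
    {F : Fin n → AO O (Ker (co phi i0))} (fd : FD phi G (r i) i0 lam h c n F)
    (hle : lam ≠ e i) (hr : 4 ≤ Module.finrank ℤ L) :
    n = 1 ∧ Module.finrank ℤ L = rk (supp (cl (co phi i0) (r i) h lam G)) + 1 ∧
      ∀ l, cl (co phi i0) (r i) h lam G = cst c * F l ∧ DD (phO phi (r i) i0) (F l) := by
  have hG : DD phi G := fd.cc.dd
  have bg := bg_of_tri hF1 T hG i fd.cc.ray h lam
  have hS0 : G.coeff (r i) ≠ 0 := fd.cc.ray.1
  have h1 := bg.dr hRk hKmu hG hle hS0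
  have h2 := bg.one hMin hC0 hWWf hG0S hRk fd hI hle hr h1
  subst h2
  refine ⟨rfl, h1, fun l => ?_⟩
  have hl : ∀ l : Fin 1, l = 0 := fun l => Subsingleton.elim _ _
  have h3 : cl (co phi i0) (r i) h lam G = cst c * F l := by
    rw [fd.eq, Fin.prod_univ_one, hl l]
  refine ⟨h3, BP57.dd_facO hI fd l ?_⟩
  have h4 := BP57.finrank_kerO hRk h
  have h5 : supp (cl (co phi i0) (r i) h lam G) = supp (F l) := by
    rw [h3, KO.H71.cst_supp fd.c0]
  rw [h5] at h1
  omega

end

end Pool.Agent.B5.KO90
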