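import Pool.Agent.Lib.MP_b5021c_nt.KO.H90.R1
import Pool.Agent.Lib.MP_b5021c_nt.KO.H71.Sf6
import Pool.Agent.Lib.MP_b5021c_nt.KO.H57.T2m

/-!
# MP_b5021c_nt, all `θ`, K odd, `l = 3`, ALPHA, row R1: terminal, unit lead, or `m = 0`, lead `N - 1`
-/

set_option linter.unusedSectionVars false

namespace Pool.Agent.B5.KO90

open scoped LaurentPolynomial
open Polynomial
open Pool.Agent.B5.KO.H71 (Tri)
open Pool.Agent.B5.BP57 (ray_poly)
open Pool.Agent.B5.KO57 (ImT)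

section

variable {P : Type} [Fintype P] [DecidableEq P] {L : Type} [AddCommGroup L] [Module.Free ℤ L]
  [Module.Finite ℤ L] {phi : L →+ (P → ℤ)} {G : AO ℤ L} {r : ZMod 3 → L} {e : ZMod 3 → (RO ℤ)ˣ}
  {mu : ZMod 3 → L →+ ℤ}

/-- ROW R1: a closed triple of an element of class `V(N)`, rank `2 N - 2` (one class of exponents
divisible by `1 + z`): terminal, or the lead of its coefficient is a unit, or the delay is zero and
the lead is `N - 1`. -/
theorem r1_t (hG1 : G1pS) (hRW : ResWDS) (hRS : ResStS) (hEv : EvS) (hEvm : EvmS)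
    (hFcl : FclS) (hMp : MpaS) (hMm : MmulS) (hD2 : D2S) (hF2 : F2S) (hMco : McoS)
    (hF1 : F1S) (hMin : MinS) (hC0 : Coeff0S) (hW : WWfS) (hG0 : G0S) (hRk : RkS)
    (hKm : KmuS) (hFD : FDS) (hE1 : E1S) (hMV : MVS) (hSm : SmallS) (hEvz : EvzS)
    (hE2 : E2S) (hVZ : VZS) (hU : UnitRS) (hUA : UnitAS)
    (T : Tri phi G r e mu) (hD : DD phi G) (hray : ∀ i, Ray G (r i)) (him : ImT phi r) {N : ℕ}
    (hN : 4 ≤ N) (hr : Module.finrank ℤ L + 2 = 2 * N) {w : (RO ℤ)ˣ} {p : ℤ[X]}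
    (hp : (w : RO ℤ) * G.coeff 0 = toLaurent p) (hp0 : p.coeff 0 = N)
    (hpz : ZF (p.map Coef.emb))
    (hx : ∃ b ∈ supp G, ∀ s t : ℤ,
      (1 + LaurentPolynomial.T 1 : RO ℤ) ∣ G.coeff (b + s • r 0 + t • r 1)) :
    KO57.TerC phi G r e mu ∨
    ∃ (m : ℤ) (g : ℤ[X]), (w : RO ℤ) * ((e 0 : RO ℤ) * G.coeff (r 0)) =
        -(LaurentPolynomial.T m * toLaurent g) ∧
      (g.coeff 0 = 1 ∨ g.coeff 0 = -1 ∨ (m = 0 ∧ g.coeff 0 = (N : ℤ) - 1)) := by
  rcases T.nsm_or hF1 hUA hU hRk hSm hD (by omega) hray with hns | ht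
  swap
  · exact Or.inl ht
  right
  obtain ⟨m, g, hg, h1⟩ := r1 hF1 hMin hC0 hW hG0 hRk hKm hFD hE1 hMV hSm hEvz hE2 hVZ hU T hD hray
    him (by omega) hr hp hp0 hpz
  refine ⟨m, g, hg, ?_⟩
  rcases h1 with (h1 | h1) | ⟨hm, h2, h3⟩
  · exact Or.inl h1
  · exact Or.inr (Or.inl h1)
  right
  right
  refine ⟨hm, ?_⟩
  by_contra hne
  obtain ⟨l, hl⟩ : ∃ l : ℕ, g.coeff 0 = l := ⟨(g.coeff 0).toNat, by omega⟩
  refine KO57.tri_t2l hG1 hRW hRS hEv hEvm hFcl hMp hFD hE2 hVZ hU hMV hE1 hMm hG0 hC0 hW hMin hRk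
    hKm hD2 hF1 hF2 hMco T hD hray him (M' := N) (l := l) (by omega) (by omega) hr hpz hp hp0
    (g := g) ?_ hl hns hx
  rw [hg, hm, LaurentPolynomial.T_zero, one_mul]

/-- The lead of a ray in an element of class `V`, times a constant, is less than the lead of the
constant coefficient. -/
theorem lead_lt (hE2 : E2S) (hVZ : VZS) (hU : UnitRS) {H : AO ℤ L} (hD : DD phi H)
    (hr2 : 2 ≤ Module.finrank ℤ L) {b : L} (hb : Ray H b) {N : ℝ} (hcv : ClassV N (H.coeff 0))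
    {c : RO ℤ} {P1 g : ℤ[X]} (hP : c * H.coeff 0 = toLaurent P1) (hP0 : P1.coeff 0 ≠ 0)
    (hg : c * H.coeff b = toLaurent g) : |g.coeff 0| < |P1.coeff 0| := by
  obtain ⟨hN, n, q, hq, hq0, hqz⟩ := hcv
  have hc : c ≠ 0 := by
    intro h0
    rw [h0, zero_mul] at hP
    have h2 : P1 = 0 := toLaurent_injective (by rw [← hP, map_zero])
    rw [h2, coeff_zero] at hP0
    exact hP0 rfl
  obtain ⟨m, f, hf, hf0, -, -, hlt⟩ := ray_poly hE2 hVZ hD hr2 hb hq hqz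
  obtain ⟨k, c1, hc1, hcc⟩ := KO57.nfE hc
  have hq00 : q.coeff 0 ≠ 0 := by
    intro h0
    have h2 := hqz 0 (by simp)
    rw [← coeff_zero_eq_eval_zero, coeff_map, h0, map_zero] at h2
    exact h2 rfl
  rw [hcc, hq] at hP
  rw [hcc, hf] at hg
  have e1 : (LaurentPolynomial.T (k + n) : RO ℤ) * toLaurent (c1 * q) =
      LaurentPolynomial.T 0 * toLaurent P1 := by
    rw [LaurentPolynomial.T_zero, one_mul, ← hP, map_mul, LaurentPolynomial.T_add]
    ring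
  obtain ⟨e2, e3⟩ := H09.nf_unique _ _ _ _ (by rw [mul_coeff_zero]; exact mul_ne_zero hc1 hq00)
    hP0 e1
  have hk0 : ‖(Coef.emb (f.coeff 0) : ℂ)‖ < ‖(Coef.emb (q.coeff 0) : ℂ)‖ := by
    have h2 := hlt 0 (by simp)
    rwa [← coeff_zero_eq_eval_zero, ← coeff_zero_eq_eval_zero, coeff_map, coeff_map] at h2
  have hk1 : |f.coeff 0| < |q.coeff 0| := by
    rw [BP57.embZ, BP57.embZ, Complex.norm_intCast, Complex.norm_intCast] at hk0
    exact_mod_cast hk0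
  rw [← e3, mul_coeff_zero, abs_mul]
  have hc1' : 0 < |c1.coeff 0| := abs_pos.2 hc1
  have e4 : (LaurentPolynomial.T (k + m) : RO ℤ) * toLaurent (c1 * f) = toLaurent g := by
    rw [← hg, map_mul, LaurentPolynomial.T_add]
    ring
  by_cases hg0 : g.coeff 0 = 0
  · rw [hg0, abs_zero]
    positivity
  · obtain ⟨-, e5⟩ := H09.nf_unique _ _ _ _ (by rw [mul_coeff_zero]; exact mul_ne_zero hc1 hf0)
      hg0 (e4.trans (by rw [LaurentPolynomial.T_zero, one_mul]) :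
        (LaurentPolynomial.T (k + m) : RO ℤ) * toLaurent (c1 * f) =
          LaurentPolynomial.T 0 * toLaurent g)
    rw [← e5, mul_coeff_zero, abs_mul]
    exact (mul_lt_mul_iff_right₀ hc1').2 hk1

end

end Pool.Agent.B5.KO90
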