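import Pool.Agent.Lib.MP_b5021c_nt.KO.H90.TkBb
import Pool.Agent.Lib.MP_b5021c_nt.KO.H13.TkF
import Pool.Agent.Lib.MP_b5021c_nt.KO.H96.TkWs

/-!
# MP_b5021c_nt, all `θ`, K odd, `l = 3`, ALPHA, row TK_BD: `H = D(T = 1, Z 0 = 1)` has drop one

`tk_bd` : the data `Tk3`, and no functional with `nu (Z 1) = 0` kills the closing `Z 0 = 1` of
`D(T = 1)`: impossible.
-/

set_option linter.unusedSectionVars false

namespace Pool.Agent.B5.KO90

open scoped LaurentPolynomial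
open Polynomial
open Pool.Agent.B5.KE
open Pool.Agent.B5.Nr (TrezS)
open Pool.Agent.B5.H61 (CuspS)
open Pool.Agent.B5.KO67 (cl_co)
open Pool.Agent.B5.O4X (Tk3 Tf)
open Pool.Agent.B5.KO.H96 (Alp WKil)
open Pool.Agent.B5.KO.H71 (Tri Fr)

section

variable {P L : Type} [Fintype P] [DecidableEq P] [AddCommGroup L] [Module.Free ℤ L]
  [Module.Finite ℤ L] {phi : L →+ (P → ℤ)} {D : AO ℤ L} {eta : L → (RO ℤ)ˣ} {q f f' : ℤ[X]}
  {a : ℝ} {j k' : ℕ} {Z : ZMod 3 → L} {mu : ZMod 3 → L →+ ℤ} {Z' : ZMod (k' + 3) → L}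
  {mu' : ZMod (k' + 3) → L →+ ℤ} {T : L} {e : (RO ℤ)ˣ} {nuC : L →+ ℤ}

/-- ROW TK_BD. -/
theorem tk_bd (hQs : QsgS) (hCz : CzaS) (hTz : TzaS) (hFj : FjtS) (hGa : GaiS) (hNz : NdzS)
    (hNd : Nd3S) (hNr : Nr3S) (hTa : Ta3S) (hLd : LdzS) (hM : McoS) (hF1 : F1S) (hF2 : F2S)
    (hF3 : F3S) (hFD : FDS) (hE1 : E1S) (hE2 : E2S) (hMV : MVS) (hMm : MmulS) (hM1 : M1S)
    (hKm : KmuS) (hRk : RkS) (hRW : ResWDS) (hRS : ResStS) (hRyS : RaySpanS) (hSm : SmallS)
    (hRF : RayFacS) (hI : Inj1S) (hVco : VcoS) (hFsp : FspS) (hFcm : FcmS) (hPc : PCZS)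
    (hClp : ClpS) (hSf : SfzS) (hI3 : Io3S) (hMfc : MfcS) (hCa : Ca5S) (hGlc : GlcS)
    (hFou : FouS) (hDti : DtiS) (hCu : CuspS)
    (H : Tk3 phi D q f f' a j eta k' Z mu Z' mu' T e nuC)
    (hsup : ∀ nu : L →+ ℤ, WKil phi D (Z 0) T (eta (Z 0)) (ld e 1) nu → nu (Z 1) = 0 → nu = 0) :
    False := by
  have A := H.alp
  have fp := A.w.ko.min.fp
  have hD := fp.dd
  have hj := A.w.ko.j2
  have h := H.tf hMm hPc hClp hFD hE1 hMV hSf hI3 hMfc hCa hGlc hFou hDti hCu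
  obtain ⟨V, hTD⟩ := h.tkD hFcm hM hF1 hF2 hF3 0
  have rZ : Ray D (Z 0) := (A.c.mtl 0).r0
  have rR : Ray D (Z' 0) := (A.c'.mtl 0).r0
  have hRT : Z' 0 ≠ T := fun hh => H.TZ' 0 hh.symm
  have hRZ : ∀ n, Z' 0 ≠ Z n := fun n hh => A.ne n 0 hh.symm
  obtain ⟨iT, hRiT, hTi⟩ := port_out hI fp rR H.rT hRT
  have hT : co phi iT T = 1 := hTi
  obtain ⟨hdd, hfr, bb, hbb0, hbb1, hbb2, hPW⟩ := h.full hSf hMm hPc hClp hRk hFD hE1 hMV hM1 hF1
    hF2 hI hTD hT
  have TW := h.tri hE2 hF2 hT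
  have hzk : ∀ i, Z i ∈ Ker (co phi iT) := h.zk hF2 hT
  obtain ⟨i0, hRi0, hZi0⟩ := port_out hI fp rR rZ (hRZ 0)
  have hdis : ∀ i p, phi T p = 0 ∨ phi (Z i) p = 0 := fun i => h.dis hF2 i
  have hTi0 : phi T i0 = 0 := (hdis 0 i0).resolve_right (by rw [hZi0]; exact one_ne_zero)
  have hps : ∀ (x : Ker (co phi iT)) (p : P), phO phi T iT x p =
      if phi T p = 0 then phi (x : L) p else 0 := fun _ _ => rfl
  obtain ⟨z0, hz0⟩ : ∃ z0 : Ker (co phi iT), z0 = ⟨Z 0, hzk 0⟩ := ⟨_, rfl⟩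
  have hz0c : (z0 : L) = Z 0 := by rw [hz0]
  have h0 : co (phO phi T iT) i0 z0 = 1 := by
    change phO phi T iT z0 i0 = 1
    rw [hps, if_pos hTi0, hz0c, hZi0]
  obtain ⟨y0, hy0⟩ : ∃ y0 : Ker (co phi iT), (y0 : L) = Z' 0 := ⟨⟨Z' 0, hRiT⟩, rfl⟩
  have hy0k : co (phO phi T iT) i0 y0 = 0 := by
    change phO phi T iT y0 i0 = 0
    rw [hps, if_pos hTi0, hy0, hRi0]
  obtain ⟨y, hy⟩ : ∃ y : Ker (co (phO phi T iT) i0), (y : Ker (co phi iT)) = y0 :=
    ⟨⟨y0, hy0k⟩, rfl⟩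
  obtain ⟨W, hW⟩ : ∃ W : AO ℤ (Ker (co phi iT)), W = cl (co phi iT) T hT (ld e 1) D := ⟨_, rfl⟩
  rw [← hW] at hdd hPW TW
  have hWc : ∀ x : Ker (co phi iT), W.coeff x = D.coeff (x : L) +
      ((ld e 1 : (RO ℤ)ˣ) : RO ℤ) * D.coeff ((x : L) + T) := by
    rw [hW]
    exact cl_co hD hT (ld e 1)
  obtain ⟨VV, hVV⟩ : ∃ VV : AO ℤ (Ker (co (phO phi T iT) i0)),
      VV = cl (co (phO phi T iT) i0) z0 h0 (eta (Z 0)) W := ⟨_, rfl⟩
  have hVc : ∀ x : Ker (co (phO phi T iT) i0), VV.coeff x =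
      (D.coeff ((x : Ker (co phi iT)) : L) + ((ld e 1 : (RO ℤ)ˣ) : RO ℤ) *
        D.coeff (((x : Ker (co phi iT)) : L) + T)) + (eta (Z 0) : RO ℤ) *
      (D.coeff (((x : Ker (co phi iT)) : L) + Z 0) + ((ld e 1 : (RO ℤ)ˣ) : RO ℤ) *
        D.coeff (((x : Ker (co phi iT)) : L) + Z 0 + T)) := by
    intro x
    rw [hVV, cl_co hdd h0 (eta (Z 0)) x, hWc, hWc]
    have e1 : (((x : Ker (co phi iT)) + z0 : Ker (co phi iT)) : L) =
        ((x : Ker (co phi iT)) : L) + Z 0 := by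
      rw [Submodule.coe_add, hz0c]
    rw [e1]
  -- the values
  obtain ⟨eR, heR⟩ : ∃ eR : (RO ℤ)ˣ, eR = eta (Z' 0) := ⟨_, rfl⟩
  have hcR : (eR : RO ℤ) * D.coeff (Z' 0) = toLaurent (X * f') := by
    obtain ⟨e', he', hR'⟩ := A.w'.rn (Z' 0) ⟨0, rfl⟩
    have h1 := ld_S hR' 1
    rw [pow_one] at h1
    rw [heR, he']
    exact h1
  have hFm : KO.Fm D eta (Z' 0) := KO.Kc_fm A.w'.kc ⟨0, rfl⟩
  obtain ⟨HH, hHH⟩ : ∃ HH : RO ℤ,
      HH = (eR : RO ℤ) * ((eta (Z 0) : RO ℤ) * D.coeff (Z' 0 + Z 0)) := ⟨_, rfl⟩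
  have hyV : (eR : RO ℤ) * VV.coeff y = toLaurent (X * f') +
      (2 - LaurentPolynomial.T 2) * HH := by
    rw [hVc, hy, hy0, tk3_psi hF1 hF2 hF3 hI H hFm hRZ, hHH]
    linear_combination hcR
  have hcz : (eta (Z 0) : RO ℤ) * W.coeff z0 = toLaurent (X * ((1 + X) * f)) := by
    rw [hW]
    exact h.cz hF1 hF2 hT 0 hz0c
  have hcz0 : W.coeff 0 = toLaurent (q + X * ((1 - X - X ^ 2) * f)) := by
    rw [hW]
    exact h.cz0 hT
  have h0V : VV.coeff 0 = toLaurent (q + X * ((1 - X - X ^ 2) * f) + X * ((1 + X) * f)) := by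
    rw [hVV, cl_co hdd h0 (eta (Z 0)) 0]
    have e1 : ((0 : Ker (co (phO phi T iT) i0)) : Ker (co phi iT)) = 0 := rfl
    rw [e1, zero_add, hcz0, hcz, ← map_add]
  have hy0V : VV.coeff y ≠ 0 := by
    intro h1
    rw [h1, mul_zero] at hyV
    refine par2 (n := 1) (p1 := f') (by rw [A.u']; exact odd_one) HH ?_
    rw [pow_one]
    exact hyV.symm
  have hneV : VV.coeff 0 + (eR : RO ℤ) * VV.coeff y ≠ 0 := by
    rw [hyV, h0V]
    intro h1
    refine par2 (n := 0) (p1 := q + X * ((1 - X - X ^ 2) * f) + X * ((1 + X) * f) + X * f') (by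
      have : (q + X * ((1 - X - X ^ 2) * f) + X * ((1 + X) * f) + X * f').coeff 0 = 1 := by
        rw [coeff_add, coeff_add, coeff_add, coeff_X_mul_zero, coeff_X_mul_zero, coeff_X_mul_zero,
          h.loc.q0]
        norm_num
      rw [this]
      exact odd_one) HH (Eq.trans ?_ h1)
    rw [pow_zero, one_mul, map_add]
    ring
  -- `y` is a ray
  have hIm : ImS (phO phi T iT) z0 := (h.rim hFsp hRyS hE2 hF1 hF2 hT 0 hz0c).2
  have hinj := phO_inj hIm h0
  have hbinV : ∀ x ∈ supp VV, Bin (phO (phO phi T iT) z0 i0) x := by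
    rw [hVV]
    exact cl_bin hdd.bin h0
  have hyne : y ≠ 0 := by
    intro h1
    apply rR.2.1
    rw [← hy0, ← hy, h1]
    rfl
  have hpV : ∀ (x : Ker (co (phO phi T iT) i0)) (p : P), phi T p = 0 → phi (Z 0) p = 0 →
      phO (phO phi T iT) z0 i0 x p = phi ((x : Ker (co phi iT)) : L) p := by
    intro x p h1 h3
    change (if phO phi T iT z0 p = 0 then phO phi T iT (x : Ker (co phi iT)) p else 0) = _
    rw [if_pos (by rw [hps, if_pos h1, hz0c, h3]), hps, if_pos h1]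
  have hpV0 : ∀ (x : Ker (co (phO phi T iT) i0)) (p : P), ¬ (phi T p = 0 ∧ phi (Z 0) p = 0) →
      phO (phO phi T iT) z0 i0 x p = 0 := by
    intro x p h1
    change (if phO phi T iT z0 p = 0 then phO phi T iT (x : Ker (co phi iT)) p else 0) = _
    by_cases h3 : phi T p = 0
    · have h4 : phi (Z 0) p ≠ 0 := fun h5 => h1 ⟨h3, h5⟩
      rw [if_neg]
      rw [hps, if_pos h3, hz0c]
      exact h4
    · by_cases h5 : phO phi T iT z0 p = 0
      · rw [if_pos h5, hps, if_neg h3]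
      · rw [if_neg h5]
  have hyR : Ray VV y := by
    obtain ⟨lam, lT, lZ, lR, hlam⟩ := face3 hE2 hRyS H
    refine ⟨hy0V, hyne, (lam.comp (incl (Ker (co phi iT)))).comp
      (incl (Ker (co (phO phi T iT) i0))), ?_, fun x hx hx0 hxy => ?_⟩
    · change lam ((y : Ker (co phi iT)) : L) = 0
      rw [hy, hy0, lR]
    · have hx' : x ∈ supp (cl (co (phO phi T iT) i0) z0 h0 (eta (Z 0)) W) := by
        rw [← hVV]
        exact hx
      obtain ⟨b, hb, hbx⟩ := KO.H71.cl_supp h0 (eta (Z 0)) hx'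
      rw [hW] at hb
      obtain ⟨c, hc, hcb⟩ := KO.H71.cl_supp hT (ld e 1) hb
      have k1 : (b : L) = c - co phi iT c • T := by rw [← hcb, prj_coe]
      have k2 : ((x : Ker (co phi iT)) : L) = (b : L) - co (phO phi T iT) i0 b • Z 0 := by
        rw [← hbx, prj_coe, Submodule.coe_sub, Submodule.coe_smul, hz0c]
      change 0 < lam ((x : Ker (co phi iT)) : L)
      have k3 : lam ((x : Ker (co phi iT)) : L) = lam c := by
        rw [k2, k1, map_sub, map_sub, map_zsmul, map_zsmul, lT, lZ, smul_zero, smul_zero,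
          sub_zero, sub_zero]
      rw [k3]
      obtain ⟨k4, k5⟩ := hlam c hc
      rcases lt_or_eq_of_le k4 with k6 | k6
      · exact k6
      exfalso
      obtain ⟨m, s, t, w, hm, k7⟩ := k5 k6.symm
      -- `m x = w y`
      have k8 : m • x - w • y = 0 := by
        apply hinj
        rw [map_zero]
        ext p
        by_cases hp : phi T p = 0 ∧ phi (Z 0) p = 0
        · rw [hpV _ p hp.1 hp.2]
          have k9 : (((m • x - w • y : Ker (co (phO phi T iT) i0)) : Ker (co phi iT)) : L) =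
              (s - m * co phi iT c) • T + (t - m * co (phO phi T iT) i0 b) • Z 0 := by
            rw [Submodule.coe_sub, Submodule.coe_smul, Submodule.coe_smul, Submodule.coe_sub,
              Submodule.coe_smul, Submodule.coe_smul, hy, hy0, k2, k1, smul_sub, smul_sub, k7,
              sub_smul, sub_smul, mul_smul, mul_smul]
            abel
          rw [k9, map_add, map_zsmul, map_zsmul, Pi.add_apply, Pi.smul_apply, Pi.smul_apply, hp.1,
            hp.2, smul_zero, smul_zero, add_zero]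
          rfl
        · rw [hpV0 _ p hp]
          rfl
      have k10 : m • x = w • y := sub_eq_zero.mp k8
      obtain ⟨p, hp⟩ : ∃ p, phO (phO phi T iT) z0 i0 y p ≠ 0 := by
        by_contra hcon
        push Not at hcon
        apply hyne
        apply hinj
        rw [map_zero]
        ext p
        rw [hcon p]
        rfl
      have k11 := (hbinV y hy0V p).resolve_left hp
      have k12 := congrArg (fun u => phO (phO phi T iT) z0 i0 u p) k10
      simp only [map_zsmul, Pi.smul_apply, k11, smul_eq_mul, mul_one] at k12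
      rcases hbinV x hx p with k13 | k13
      · rw [k13, mul_zero] at k12
        rw [← k12, zero_smul] at k10
        exact hx0 ((smul_eq_zero.mp k10).resolve_left hm.ne')
      · rw [k13, mul_one] at k12
        rw [← k12] at k10
        apply hxy
        rw [← sub_eq_zero, ← smul_sub] at k10
        exact sub_eq_zero.mp ((smul_eq_zero.mp k10).resolve_left hm.ne')
  -- the functional `mu' 0`
  have nT : mu' 0 T = 0 := A.c'.oth 0 T H.rT (H.TZ' _) (H.TZ' _)
  have nZ : mu' 0 (Z 0) = 0 := A.z' 0 0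
  have nR : mu' 0 (Z' 0) = 0 := by
    obtain ⟨n1, n2, -⟩ := KO.H40.idx k' 0
    exact KO.H40.cyc_mu A.c' n1 n2
  have hprjR : prj (co phi iT) T hT (Z' 0) = y0 := by
    apply Subtype.ext
    have h1 : co phi iT (Z' 0) = 0 := hRiT
    rw [prj_coe, h1, zero_smul, sub_zero, hy0]
  have hy0ne : y0 ≠ 0 := by
    intro h1
    apply rR.2.1
    rw [← hy0, h1]
    rfl
  have hU1 : ∀ x ∈ US eR y0 W, mu' 0 (x : L) = 0 := by
    have h1 := us_cl hT (ld e 1) (eta (Z' 0)) (G := D) (r := Z' 0) (by rw [hprjR]; exact hy0ne)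
      nT nR (fun x hx => (A.c'.ker 0 x).mp hx)
    have h3 : co phi iT (Z' 0) = 0 := hRiT
    rw [h3, neg_zero, zpow_zero, mul_one, hprjR, ← hW, ← heR] at h1
    exact h1
  have hprjy : prj (co (phO phi T iT) i0) z0 h0 y0 = y := by
    apply Subtype.ext
    rw [prj_coe, hy0k, zero_smul, sub_zero, hy]
  have hU2 : ∀ x ∈ US eR y VV, ((mu' 0).comp (incl (Ker (co phi iT)))).comp
      (incl (Ker (co (phO phi T iT) i0))) x = 0 := by
    have h1 := us_cl h0 (eta (Z 0)) eR (G := W) (r := y0) (by rw [hprjy]; exact hyne)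
      (mu := (mu' 0).comp (incl (Ker (co phi iT))))
      (by
        change mu' 0 (z0 : L) = 0
        rw [hz0c, nZ])
      (by
        change mu' 0 (y0 : L) = 0
        rw [hy0, nR]) (fun x hx => hU1 x hx)
    rw [hy0k, neg_zero, zpow_zero, mul_one, hprjy, ← hVV] at h1
    exact h1
  -- the killers
  have hkl : ∀ nu : Ker (co (phO phi T iT) i0) →+ ℤ, (∀ x ∈ supp VV, nu x = 0) →
      (∀ y1 : Ker (co (phO phi T iT) i0), (y1 : Ker (co phi iT)) = ⟨Z 1, hzk 1⟩ → nu y1 = 0) →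
      nu = 0 := by
    intro nu hnu hnu1
    obtain ⟨nW, hnW⟩ : ∃ nW : Ker (co phi iT) →+ ℤ,
      nW = nu.comp (prj (co (phO phi T iT) i0) z0 h0) := ⟨_, rfl⟩
    obtain ⟨nL, hnL⟩ : ∃ nL : L →+ ℤ, nL = nW.comp (prj (co phi iT) T hT) := ⟨_, rfl⟩
    have s1 : ∀ x : Ker (co phi iT), prj (co phi iT) T hT (x : L) = x := by
      intro x
      apply Subtype.ext
      have h1 : co phi iT (x : L) = 0 := x.2
      rw [prj_coe, h1, zero_smul, sub_zero]
    have s2 : ∀ x : Ker (co (phO phi T iT) i0),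
        prj (co (phO phi T iT) i0) z0 h0 (x : Ker (co phi iT)) = x := by
      intro x
      apply Subtype.ext
      have h1 : co (phO phi T iT) i0 (x : Ker (co phi iT)) = 0 := x.2
      rw [prj_coe, h1, zero_smul, sub_zero]
    have v1 : ∀ x : Ker (co phi iT), nL (x : L) = nW x := fun x => by
      rw [hnL, AddMonoidHom.comp_apply, s1]
    have v2 : ∀ x : Ker (co (phO phi T iT) i0), nW (x : Ker (co phi iT)) = nu x := fun x => by
      rw [hnW, AddMonoidHom.comp_apply, s2]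
    have t1 : nL T = 0 := by
      rw [hnL, AddMonoidHom.comp_apply]
      have h1 : prj (co phi iT) T hT T = 0 := by
        apply Subtype.ext
        rw [prj_coe, hT, one_smul, sub_self]
        rfl
      rw [h1, map_zero]
    have t2 : nW z0 = 0 := by
      rw [hnW, AddMonoidHom.comp_apply]
      have h1 : prj (co (phO phi T iT) i0) z0 h0 z0 = 0 := by
        apply Subtype.ext
        rw [prj_coe, h0, one_smul, sub_self]
        rfl
      rw [h1, map_zero]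
    have hz0n : z0 ≠ 0 := by
      intro h1
      apply rZ.2.1
      rw [← hz0c, h1]
      rfl
    have bz0 : Bin (phO phi T iT) z0 := by
      rw [hz0]
      exact TW.bin 0
    obtain ⟨w1, -, -, -, w5⟩ := hVco ℤ P (Ker (co phi iT)) (phO phi T iT) W z0 (eta (Z 0)) hdd.inj
      hdd.bin bz0 hz0n
    have t3 : ∀ x ∈ US (eta (Z 0)) z0 W, nW x = 0 := by
      refine KO.H71.us_zeroO t2 (fun b hb => ?_)
      rw [hnW, AddMonoidHom.comp_apply]
      apply hnu
      rw [hVV]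
      change (cl (co (phO phi T iT) i0) z0 h0 (eta (Z 0)) W).coeff
        (prj (co (phO phi T iT) i0) z0 h0 b) ≠ 0
      rw [w5, prj_coe, sub_eq_add_neg, ← neg_smul, w1]
      exact mul_ne_zero (Units.ne_zero _) hb
    have hWK : WKil phi D (Z 0) T (eta (Z 0)) (ld e 1) nL := by
      refine KO.H96.wkil_of hF1 hD hT (eT := -e) (u := ld e 1) (z := z0) hdd.inj ?_ rZ H.rT
        (hdis 0) (h.kil 0) hz0c t1 ?_
      · rw [← hW]
        exact hdd.bin
      · rw [← hW]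
        intro x hx
        rw [v1]
        exact t3 x hx
    have h1 : nL (Z 1) = 0 := by
      have h3 : co (phO phi T iT) i0 (⟨Z 1, hzk 1⟩ : Ker (co phi iT)) = 0 := by
        change phO phi T iT (⟨Z 1, hzk 1⟩ : Ker (co phi iT)) i0 = 0
        rw [hps, if_pos hTi0]
        exact (A.c.dis 0 1 (by decide) i0).resolve_left (by rw [hZi0]; exact one_ne_zero)
      have h4 := hnu1 ⟨⟨Z 1, hzk 1⟩, h3⟩ rfl
      have h5 := v1 ⟨Z 1, hzk 1⟩
      have h6 := v2 ⟨⟨Z 1, hzk 1⟩, h3⟩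
      change nL (Z 1) = nW ⟨Z 1, hzk 1⟩ at h5
      change nW ⟨Z 1, hzk 1⟩ = _ at h6
      rw [h5, h6, h4]
    have h3 := hsup nL hWK h1
    ext x
    rw [← v2, ← v1, h3]
    rfl
  have hmV : ∃ x ∈ supp VV, ((mu' 0).comp (incl (Ker (co phi iT)))).comp
      (incl (Ker (co (phO phi T iT) i0))) x ≠ 0 := by
    by_contra hcon
    push Not at hcon
    have h1 := hkl _ hcon (by
      intro y1 hy1
      change mu' 0 ((y1 : Ker (co phi iT)) : L) = 0
      rw [hy1]
      exact A.z' 1 0)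
    have h3 := DFunLike.congr_fun h1 (prj (co (phO phi T iT) i0) z0 h0
      (prj (co phi iT) T hT (Z' (0 + 1))))
    change mu' 0 ((prj (co (phO phi T iT) i0) z0 h0 (prj (co phi iT) T hT (Z' (0 + 1))) :
      Ker (co phi iT)) : L) = 0 at h3
    rw [prj_coe, Submodule.coe_sub, Submodule.coe_smul, prj_coe, hz0c, map_sub, map_sub,
      map_zsmul, map_zsmul, nT, nZ, A.c'.nxt, smul_zero, smul_zero, sub_zero, sub_zero] at h3
    exact one_ne_zero h3
  obtain ⟨b, hb0, hb1, hb⟩ := hTD.root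
  have hrays : ∀ i, Ray W (⟨Z i, hzk i⟩ : Ker (co phi iT)) := fun i => by
    rw [hW]
    exact (h.rim hFsp hRyS hE2 hF1 hF2 hT i rfl).1
  subst hz0
  rw [hVV] at hyR hU2 hmV hneV hkl
  obtain ⟨hroots, hbj⟩ := tri_bound hQs hCz hTz hFj hGa hNz hNd hNr hTa hLd hM hF1 hFD hE1 hMV hMm
    hKm hRk hRW hRS hSm hRF TW hdd hrays (q := q + X * ((1 - X - X ^ 2) * f)) (f := (1 + X) * f)
    hj hfr (fun k hk => A.w.ko.ih k (by omega)) hbb2 hPW hcz0 hcz (by
      rw [coeff_add, coeff_X_mul_zero, h.loc.q0, add_zero]) (by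
      rw [mul_coeff_zero, h.f0]
      simp) hIm hb0 hb1 hb h0 hyR hU2 hmV hneV hkl
  -- the value at `t`
  obtain ⟨t, ht0, ht1, htj⟩ : ∃ t : ℝ, 0 < t ∧ t < 1 ∧ t ^ 2 + ((j : ℝ) - 1) * t = 1 := by
    have hj' : (2 : ℝ) ≤ j := by exact_mod_cast hj
    have hc : ContinuousOn (fun t : ℝ => t ^ 2 + ((j : ℝ) - 1) * t) (Set.Icc 0 1) := by fun_prop
    have hmem : (1 : ℝ) ∈ Set.Icc ((0 : ℝ) ^ 2 + ((j : ℝ) - 1) * 0)
        ((1 : ℝ) ^ 2 + ((j : ℝ) - 1) * 1) := by
      constructor <;> linarith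
    obtain ⟨t, ht, ht1⟩ := intermediate_value_Icc zero_le_one hc hmem
    simp only at ht1
    refine ⟨t, ?_, ?_, ht1⟩
    · rcases lt_or_eq_of_le ht.1 with h2 | h2
      · exact h2
      · rw [← h2] at ht1
        norm_num at ht1
    · rcases lt_or_eq_of_le ht.2 with h2 | h2
      · exact h2
      · rw [h2] at ht1
        linarith
  have hbt : b ≤ t := by
    by_contra hc
    push Not at hc
    have h1 : b⁻¹ < t⁻¹ := by
      rw [inv_lt_inv₀ hb0 ht0]
      exact hc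
    have h2 : t⁻¹ - t = j - 1 := by
      field_simp
      linarith
    linarith
  have h3 := sgn (k := 1) (le_refl 1) (q := q + X * ((1 - X - X ^ 2) * f)) (f := (1 + X) * f) (by
    rw [coeff_add, coeff_X_mul_zero, h.loc.q0, add_zero]) hb0 hroots hbt ht1
  rw [pow_one] at h3
  exact hTD.fin ht0 htj h3

end

end Pool.Agent.B5.KO90
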