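import Mathlib

/-!
# MP_b5021c_nt, all `θ`, K odd, `l = 3`, ALPHA, row M1: points of the open cardioid
-/

namespace Pool.Agent.B5.KO90

/-- A criterion for the open cardioid. -/
theorem card_crit {v : ℂ} (h : ‖v‖ ^ 2 < 2 * (‖v‖ + v.re)) : ∃ x : ℂ, ‖x‖ < 1 ∧ (1 - x) ^ 2 = v := by
  obtain ⟨y0, hy0⟩ := IsAlgClosed.exists_pow_nat_eq v (n := 2) two_pos
  obtain ⟨y, hy, hre⟩ : ∃ y : ℂ, y ^ 2 = v ∧ 0 ≤ y.re := by
    rcases le_total 0 y0.re with h1 | h1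
    · exact ⟨y0, hy0, h1⟩
    · exact ⟨-y0, by rw [neg_sq, hy0], by rw [Complex.neg_re]; linarith⟩
  have h1 : ‖y‖ ^ 2 = ‖v‖ := by rw [← hy, norm_pow]
  have h2 : y.re * y.re + y.im * y.im = ‖v‖ := by
    rw [← h1, ← Complex.normSq_eq_norm_sq, Complex.normSq_apply]
  have h3 : y.re * y.re - y.im * y.im = v.re := by
    rw [← hy, sq, Complex.mul_re]
  have h4 : ‖v‖ < 2 * y.re := by
    have h5 : ‖v‖ ^ 2 < (2 * y.re) ^ 2 := by nlinarith
    exact lt_of_pow_lt_pow_left₀ 2 (by linarith) h5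
  refine ⟨1 - y, ?_, by rw [sub_sub_cancel, hy]⟩
  have h5 : ‖1 - y‖ ^ 2 < 1 ^ 2 := by
    rw [← Complex.normSq_eq_norm_sq, Complex.normSq_apply, Complex.sub_re, Complex.sub_im,
      Complex.one_re, Complex.one_im]
    nlinarith
  exact lt_of_pow_lt_pow_left₀ 2 zero_le_one h5

/-- A point of the circle near `1`. -/
theorem near_one {ε : ℝ} (h0 : 0 < ε) (h1 : ε ≤ 1) : ∃ l : ℂ, ‖l‖ = 1 ∧ l.re = 1 - ε ∧
    ‖1 - l‖ ^ 2 = 2 * ε := by
  have h2 : 0 ≤ 2 * ε - ε ^ 2 := by nlinarith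
  have h3 := Real.sq_sqrt h2
  refine ⟨⟨1 - ε, Real.sqrt (2 * ε - ε ^ 2)⟩, ?_, rfl, ?_⟩
  · have h4 : ‖(⟨1 - ε, Real.sqrt (2 * ε - ε ^ 2)⟩ : ℂ)‖ ^ 2 = 1 ^ 2 := by
      rw [← Complex.normSq_eq_norm_sq, Complex.normSq_apply]
      simp only
      nlinarith
    exact (pow_left_inj₀ (norm_nonneg _) zero_le_one two_ne_zero).1 h4
  · rw [← Complex.normSq_eq_norm_sq, Complex.normSq_apply, Complex.sub_re, Complex.sub_im,
      Complex.one_re, Complex.one_im]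
    simp only
    nlinarith

/-- `N (1 - l)` in the open cardioid. -/
theorem wit1 {N : ℝ} (hN : 1 ≤ N) : ∃ l : ℂ, ‖l‖ = 1 ∧ ∃ x : ℂ, ‖x‖ < 1 ∧
    (1 - x) ^ 2 = N * (1 - l) := by
  have hN0 : 0 < N := by linarith
  have he0 : 0 < 1 / N ^ 2 := by positivity
  have he1 : 1 / N ^ 2 ≤ 1 := by
    rw [div_le_one (by positivity)]
    nlinarith
  obtain ⟨l, hl, hre, hn⟩ := near_one he0 he1
  refine ⟨l, hl, card_crit ?_⟩
  have h1 : ‖(N : ℂ) * (1 - l)‖ = N * ‖1 - l‖ := by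
    rw [norm_mul, Complex.norm_real, Real.norm_of_nonneg hN0.le]
  have h2 : ((N : ℂ) * (1 - l)).re = 1 / N := by
    rw [Complex.re_ofReal_mul, Complex.sub_re, Complex.one_re, hre]
    field_simp
    ring
  rw [h1, h2]
  set t := ‖1 - l‖ with ht
  have ht0 : 0 ≤ t := norm_nonneg _
  have h3 : (N * t) ^ 2 = 2 := by
    rw [mul_pow, hn]
    field_simp
  have h4 : 1 ≤ N * t := by
    by_contra hcon
    push Not at hcon
    have h5 : 0 ≤ N * t := by positivity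
    nlinarith
  rw [h3]
  have h5 : 0 < 1 / N := by positivity
  linarith

/-- `1 - N l + (N - 1) l^2` in the open cardioid. -/
theorem wit2 {N : ℝ} (hN : 3 ≤ N) : ∃ l : ℂ, ‖l‖ = 1 ∧ ∃ x : ℂ, ‖x‖ < 1 ∧
    (1 - x) ^ 2 = 1 - N * l + (N - 1) * l ^ 2 := by
  obtain ⟨ε, hε⟩ : ∃ ε : ℝ, ε = (N - 2) ^ 2 / (N ^ 2 * (N - 1) ^ 2) := ⟨_, rfl⟩
  have hA : 0 < N ^ 2 * (N - 1) ^ 2 := by
    have h1 : 0 < N - 1 := by linarith
    positivity
  have hB : 0 < (N - 2) ^ 2 := by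
    have h1 : 0 < N - 2 := by linarith
    positivity
  have he0 : 0 < ε := by rw [hε]; positivity
  have hεA : ε * (N ^ 2 * (N - 1) ^ 2) = (N - 2) ^ 2 := by
    rw [hε, div_mul_cancel₀ _ hA.ne']
  have he1 : ε ≤ 1 := by
    rw [hε, div_le_one hA]
    have h1 : (N - 2) ^ 2 ≤ (N - 1) ^ 2 := by nlinarith
    have h2 : (N - 1) ^ 2 ≤ N ^ 2 * (N - 1) ^ 2 := by
      have h3 : 1 ≤ N ^ 2 := by nlinarith
      have h4 : 0 ≤ (N - 1) ^ 2 := sq_nonneg _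
      nlinarith
    linarith
  obtain ⟨l, hl, hre, hn⟩ := near_one he0 he1
  refine ⟨l, hl, card_crit ?_⟩
  have hv : (1 : ℂ) - N * l + (N - 1) * l ^ 2 = (1 - l) * (1 - (N - 1) * l) := by ring
  have him : l.re * l.re + l.im * l.im = 1 := by
    rw [← Complex.normSq_apply, Complex.normSq_eq_norm_sq, hl, one_pow]
  have hc : (N : ℂ) - 1 = ((N - 1 : ℝ) : ℂ) := by push_cast; rfl
  have h1 : ‖(1 : ℂ) - N * l + (N - 1) * l ^ 2‖ ^ 2 =
      2 * ε * ((N - 2) ^ 2 + 2 * (N - 1) * ε) := by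
    have h2 : ‖(1 : ℂ) - (N - 1) * l‖ ^ 2 = (N - 2) ^ 2 + 2 * (N - 1) * ε := by
      rw [hc, ← Complex.normSq_eq_norm_sq, Complex.normSq_apply, Complex.sub_re, Complex.sub_im,
        Complex.one_re, Complex.one_im, Complex.re_ofReal_mul, Complex.im_ofReal_mul]
      have h3 : (1 - (N - 1) * l.re) * (1 - (N - 1) * l.re) +
          (0 - (N - 1) * l.im) * (0 - (N - 1) * l.im) =
          1 - 2 * (N - 1) * l.re + (N - 1) ^ 2 * (l.re * l.re + l.im * l.im) := by ring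
      rw [h3, him, hre]
      ring
    rw [hv, norm_mul, mul_pow, hn, h2]
  have h2 : ((1 : ℂ) - N * l + (N - 1) * l ^ 2).re = -(3 * N - 4) * ε + 2 * (N - 1) * ε ^ 2 := by
    rw [hc, Complex.add_re, Complex.sub_re, Complex.one_re, Complex.re_ofReal_mul,
      Complex.re_ofReal_mul, sq l, Complex.mul_re]
    have h3 : l.im * l.im = 1 - l.re * l.re := by linarith
    rw [h3, hre]
    ring
  set V := ‖(1 : ℂ) - N * l + (N - 1) * l ^ 2‖ with hV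
  have hV0 : 0 ≤ V := norm_nonneg _
  rw [h1, h2]
  have h3 : N * (N - 1) * ε < V := by
    have h4 : (N * (N - 1) * ε) ^ 2 < V ^ 2 := by
      rw [h1]
      have h5 : (N * (N - 1) * ε) ^ 2 = ε * (ε * (N ^ 2 * (N - 1) ^ 2)) := by ring
      rw [h5, hεA]
      have h6 : 0 < ε * (N - 2) ^ 2 := by positivity
      have h7 : 0 < ε * ((N - 1) * ε) := by
        have h8 : 0 < N - 1 := by linarith
        positivity
      nlinarith
    exact lt_of_pow_lt_pow_left₀ 2 hV0 h4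
  nlinarith

/-- Roots of unimodular numbers on the circle. -/
theorem circ_root {l : ℂ} (hl : ‖l‖ = 1) {k : ℕ} (hk : 0 < k) : ∃ z : Circle, (z : ℂ) ^ k = l := by
  obtain ⟨z, hz⟩ := IsAlgClosed.exists_pow_nat_eq l hk
  have h1 : ‖z‖ ^ k = 1 := by rw [← norm_pow, hz, hl]
  have h2 : ‖z‖ = 1 := (pow_eq_one_iff_of_nonneg (norm_nonneg z) hk.ne').1 h1
  exact ⟨⟨z, mem_sphere_zero_iff_norm.2 h2⟩, hz⟩

end Pool.Agent.B5.KO90
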