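import Pool.Agent.Lib.MP_b5021c_nt.KO.H90.I1a
import Pool.Agent.Lib.MP_b5021c_nt.DCM.H61.Main

/-!
# MP_b5021c_nt, all `θ`, K odd, `l = 3`, ALPHA, row I1: the closing of a triple at a load `/= ld` is
one factor in `DD`, drop free
-/

set_option linter.unusedSectionVars false

namespace Pool.Agent.B5.KO90

open scoped LaurentPolynomial
open AddMonoidAlgebra
open Pool.Agent.B5.H71 (em em_single em_coeff em_coeff_not em_res)
open Pool.Agent.B5.KO.H40 (flt flt_in flt_out mon_mul_coeff)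

section

variable {O : Type} [CommRing O] [IsDomain O] [IsPrincipalIdealRing O] [Coef O] {L : Type}
  [AddCommGroup L] [Module.Free ℤ L] [Module.Finite ℤ L]

theorem ne_of_co {F : AO O L} {a : L} (h : F.coeff a ≠ 0) : F ≠ 0 := by
  rintro rfl
  exact h rfl

/-- A divisor of an element of width zero has width zero. -/
theorem width_dvd (hMin : MinS) {G H : AO O L} (f : L →+ ℤ) (hd : G ∣ H) (h0 : H ≠ 0)
    (h : ∀ a ∈ supp H, f a = 0) : ∀ a ∈ supp G, ∀ b ∈ supp G, f a = f b := by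
  obtain ⟨Z, rfl⟩ := hd
  exact KO.H40.width_zero hMin f h0 h

/-- The same for a constant width. -/
theorem width_dvd' (hMin : MinS) {G H : AO O L} (f : L →+ ℤ) (hd : G ∣ H) (h0 : H ≠ 0)
    (h : ∀ a ∈ supp H, ∀ b ∈ supp H, f a = f b) : ∀ a ∈ supp G, ∀ b ∈ supp G, f a = f b := by
  obtain ⟨x, hx⟩ : ∃ x, x ∈ supp H := by
    by_contra hne
    push Not at hne
    apply h0
    apply aext
    intro a
    by_contra h1
    exact hne a h1
  have h1 : G ∣ single (-x) (1 : RO O) * H := hd.mul_left _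
  have h2 : (single (-x) (1 : RO O) * H : AO O L).coeff 0 ≠ 0 := by
    rw [mon_mul_coeff, one_mul, zero_sub, neg_neg]
    exact hx
  refine width_dvd hMin f h1 (ne_of_co h2) ?_
  intro a ha
  have h3 : (single (-x) (1 : RO O) * H : AO O L).coeff a ≠ 0 := ha
  rw [mon_mul_coeff, one_mul, sub_neg_eq_add] at h3
  have h4 := h (a + x) h3 x hx
  rw [map_add] at h4
  linarith

/-- If some exponent of `Q` has the top degree then `F` has no exponent of positive degree. -/
theorem deg_excl (hMin : MinS) {F Q : AO O L} (g : L →+ ℤ) (h0 : F ≠ 0)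
    (hle : ∀ a ∈ supp (F * Q), g a ≤ 1) {b : L} (hb : b ∈ supp Q) (gb : g b = 1) :
    ∀ a ∈ supp F, g a ≤ 0 := by
  have e1 : (single (-b) (1 : RO O) * Q : AO O L).coeff 0 ≠ 0 := by
    rw [mon_mul_coeff, one_mul, zero_sub, neg_neg]
    exact hb
  have h1 := hMin O L F (single (-b) (1 : RO O) * Q) h0 e1 (-g) 0 (by
    intro a ha
    have e2 : F * (single (-b) (1 : RO O) * Q) = single (-b) (1 : RO O) * (F * Q) := by ring
    have e3 : (F * Q).coeff (a + b) ≠ 0 := by
      have e4 : (F * (single (-b) (1 : RO O) * Q)).coeff a ≠ 0 := ha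
      rw [e2, mon_mul_coeff, one_mul, sub_neg_eq_add] at e4
      exact e4
    have e5 := hle _ e3
    rw [map_add, gb] at e5
    rw [AddMonoidHom.neg_apply]
    linarith)
  intro a ha
  have h2 := h1 a ha
  rw [AddMonoidHom.neg_apply] at h2
  linarith

/-- Elements with exponents of degree zero are closed under products. -/
theorem deg0_mul {F Q : AO O L} (g : L →+ ℤ) (hF : ∀ a ∈ supp F, g a = 0)
    (hQ : ∀ a ∈ supp Q, g a = 0) : ∀ a ∈ supp (F * Q), g a = 0 := by
  intro c hc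
  obtain ⟨a, ha, b, hb, h⟩ := Pool.Agent.B5.H74.supp_mul F Q c hc
  rw [← h, map_add, hF a ha, hQ b hb, add_zero]

theorem cst_ne {d : RO O} (hd : d ≠ 0) : (cst d : AO O L) ≠ 0 := by
  classical
  apply ne_of_co (a := 0)
  unfold cst
  rw [AddMonoidAlgebra.coeff_single, Finsupp.single_apply, if_pos rfl]
  exact hd

theorem deg0_cst (g : L →+ ℤ) (c : RO O) : ∀ a ∈ supp (cst c : AO O L), g a = 0 := by
  classical
  intro a ha
  have h1 : (cst c : AO O L).coeff a ≠ 0 := ha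
  unfold cst at h1
  rw [AddMonoidAlgebra.coeff_single, Finsupp.single_apply] at h1
  by_cases h2 : (0 : L) = a
  · rw [← h2, map_zero]
  · exact absurd (if_neg h2) h1

theorem deg0_prod {ι : Type} (g : L →+ ℤ) (F : ι → AO O L) (s : Finset ι)
    (hF : ∀ i ∈ s, ∀ a ∈ supp (F i), g a = 0) : ∀ a ∈ supp (∏ i ∈ s, F i), g a = 0 := by
  classical
  induction s using Finset.induction_on with
  | empty =>
    rw [Finset.prod_empty]
    exact deg0_cst g 1
  | insert i s hi ih =>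
    rw [Finset.prod_insert hi]
    exact deg0_mul g (hF i (Finset.mem_insert_self _ _))
      (ih fun k hk => hF k (Finset.mem_insert_of_mem hk))

/-- An element of the group algebra of a kernel which divides a multiple of the irreducible `G`
by a constant is a monomial, if `G` has both degrees. -/
theorem mono_of_dvd (hMin : MinS) {G X : AO O L} (hG : Irreducible G) (g : L →+ ℤ) {x y : L}
    (hx : x ∈ supp G) (hy : y ∈ supp G) (hxy : g x ≠ g y) (hX : ∀ a ∈ supp X, g a = 0)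
    {d : RO O} (hd : d ≠ 0) (h : X ∣ cst d * G) :
    ∀ a ∈ supp X, ∀ b ∈ supp X, ∀ f : L →+ ℤ, f a = f b := by
  have hufd : UniqueFactorizationMonoid (AO O L) := H25.Bch.ufdL O L
  have hX0 : X ≠ 0 := by
    rintro rfl
    rw [zero_dvd_iff] at h
    have h1 : (cst d : AO O L) ≠ 0 := cst_ne hd
    exact (mul_ne_zero h1 hG.ne_zero) h
  have hrel : IsRelPrime X G := by
    intro z hz1 hz2
    rcases hG.dvd_iff.1 hz2 with h1 | h1
    · exact h1
    · exfalso
      have h2 : G ∣ X := h1.dvd.trans hz1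
      exact hxy (width_dvd hMin g h2 hX0 hX x hx y hy)
  have h2 : X ∣ cst d := IsRelPrime.dvd_of_dvd_mul_right hrel h
  have h1 : (cst d : AO O L) ≠ 0 := cst_ne hd
  intro a ha b hb f
  exact width_dvd hMin f h2 h1 (deg0_cst f d) a ha b hb

end

section

variable {O : Type} [CommRing O] [IsDomain O] [IsPrincipalIdealRing O] [Coef O] {P : Type}
  [Fintype P] [DecidableEq P] {L : Type} [AddCommGroup L] [Module.Free ℤ L] [Module.Finite ℤ L]
  {phi : L →+ (P → ℤ)} {G : AO O L} {S r1 r2 : L} {e0 e1 e2 lam : (RO O)ˣ} {i0 : P}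
  {p1 p2 : L →+ ℤ}

/-- The piece of the closing. -/
noncomputable def Bg.H (bg : Bg phi G S r1 r2 e0 e1 e2 lam i0 p1 p2) (s t : ℤ) :
    AO O (Ker (co phi i0)) :=
  pc (p1.comp (incl (Ker (co phi i0)))) (p2.comp (incl (Ker (co phi i0)))) s t
    (cl (co phi i0) S bg.h lam G)

theorem Bg.E_eq (bg : Bg phi G S r1 r2 e0 e1 e2 lam i0 p1 p2) (s t : ℤ) :
    bg.E s t = em (Ker (co phi i0)) (bg.H s t) := rfl

theorem em_cst (K : Submodule ℤ L) (d : RO O) : em K (cst d : AO O K) = cst d := by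
  unfold cst
  rw [em_single]
  rfl

/-- A common divisor of the pieces divides `G` up to a constant. -/
theorem Bg.dvd (bg : Bg phi G S r1 r2 e0 e1 e2 lam i0 p1 p2) {X : AO O (Ker (co phi i0))}
    {d : RO O} (h00 : X ∣ cst d * bg.H 0 0) (h10 : X ∣ cst d * bg.H 1 0)
    (h01 : X ∣ cst d * bg.H 0 1) (h11 : X ∣ cst d * bg.H 1 1) :
    em (Ker (co phi i0)) X ∣
      cst (d * (1 - (lam : RO O) * ((e0⁻¹ : (RO O)ˣ) : RO O))) * G := by
  have key : ∀ s t : ℤ, X ∣ cst d * bg.H s t → em (Ker (co phi i0)) X ∣ cst d * bg.E s t := by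
    intro s t h
    have h1 := map_dvd (em (Ker (co phi i0))) h
    rw [map_mul, em_cst, ← bg.E_eq] at h1
    exact h1
  have k00 := key 0 0 h00
  have k10 := key 1 0 h10
  have k01 := key 0 1 h01
  have k11 := key 1 1 h11
  have hE1 : cst (d * (1 - (lam : RO O) * ((e0⁻¹ : (RO O)ˣ) : RO O))) * G =
      cst d * (cst (1 - (lam : RO O) * ((e0⁻¹ : (RO O)ˣ) : RO O)) * G) := by
    rw [← mul_assoc]
    congr 1
    unfold cst
    rw [single_mul_single, add_zero]
  rw [hE1, bg.main]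
  have k2 := dvd_add k10 k01
  have t1 := dvd_add (dvd_sub k2 (k2.mul_left (single S ((e0⁻¹ : (RO O)ˣ) : RO O))))
    (k00.mul_left (cst (1 - (lam : RO O) * ((e0⁻¹ : (RO O)ˣ) : RO O))))
  have t2 := dvd_sub (dvd_add (dvd_sub t1 (k10.mul_left
    (single (-r1) ((lam : RO O) * ((e0⁻¹ : (RO O)ˣ) : RO O) * (e1 : RO O)))))
    (k10.mul_left (single (S - r1) (((e0⁻¹ : (RO O)ˣ) : RO O) * (e1 : RO O)))))
    (k10.mul_left (single r2 ((e2⁻¹ : (RO O)ˣ) : RO O)))
  have t3 := dvd_add (dvd_add t2 (k11.mul_left (single S (((lam⁻¹ : (RO O)ˣ) : RO O) *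
    (1 - (lam : RO O) * ((e0⁻¹ : (RO O)ˣ) : RO O))))))
    (k10.mul_left (single (S + r2) (((lam⁻¹ : (RO O)ˣ) : RO O) * ((e2⁻¹ : (RO O)ˣ) : RO O))))
  refine t3.trans (dvd_of_eq ?_)
  ring

/-- The relation between the pieces `(1,0)` and `(0,1)`. -/
theorem Bg.rel (bg : Bg phi G S r1 r2 e0 e1 e2 lam i0 p1 p2) (R1 R2 : Ker (co phi i0))
    (h1 : (R1 : L) = r1) (h2 : (R2 : L) = r2) :
    single (-R1) (e1 : RO O) * bg.H 1 0 = single (-R2) (e2 : RO O) * bg.H 0 1 := by
  apply aext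
  intro b
  rw [mon_mul_coeff, mon_mul_coeff, sub_neg_eq_add, sub_neg_eq_add]
  have hb : co phi i0 (b : L) = 0 := b.2
  have hb1 : co phi i0 ((b : L) + r1) = 0 := by rw [map_add, hb, bg.h1, add_zero]
  have hb2 : co phi i0 ((b : L) + r2) = 0 := by rw [map_add, hb, bg.h2, add_zero]
  have y1 : (b : L) + r1 = ((b + R1 : Ker (co phi i0)) : L) := by rw [← h1]; rfl
  have y2 : (b : L) + r2 = ((b + R2 : Ker (co phi i0)) : L) := by rw [← h2]; rfl
  have x1 : (bg.H 1 0).coeff (b + R1) = (bg.E 1 0).coeff ((b : L) + r1) := by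
    rw [bg.E_eq, y1]
    exact (em_coeff _ _ (b + R1)).symm
  have x2 : (bg.H 0 1).coeff (b + R2) = (bg.E 0 1).coeff ((b : L) + r2) := by
    rw [bg.E_eq, y2]
    exact (em_coeff _ _ (b + R2)).symm
  rw [x1, x2]
  by_cases hp : p1 (b : L) = 0 ∧ p2 (b : L) = 0
  · rw [bg.E_ne hb1 (by rw [map_add, hp.1, bg.p11, zero_add])
      (by rw [map_add, hp.2, bg.p21, zero_add]) one_ne_zero,
      bg.E_ne hb2 (by rw [map_add, hp.1, bg.p12, zero_add])
      (by rw [map_add, hp.2, bg.p22, zero_add]) zero_ne_one]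
    have h3 := bg.c1 _ hb hp.1 hp.2
    have h4 := bg.c2 _ hb hp.1 hp.2
    rw [h3] at h4
    linear_combination (1 - (lam : RO O) * ((e0⁻¹ : (RO O)ˣ) : RO O)) * h4
  · rw [bg.E_out, bg.E_out, mul_zero, mul_zero]
    · intro _ h3 h4
      rw [map_add, bg.p12, add_zero] at h3
      rw [map_add, bg.p22] at h4
      exact hp ⟨h3, by linarith⟩
    · intro _ h3 h4
      rw [map_add, bg.p11] at h3
      rw [map_add, bg.p21, add_zero] at h4
      exact hp ⟨by linarith, h4⟩

/-- The closing is drop free: a functional which vanishes on `S` and on the exponents of the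
closing vanishes on the exponents of `G`. -/
theorem Bg.free (bg : Bg phi G S r1 r2 e0 e1 e2 lam i0 p1 p2) (hle : lam ≠ e0)
    (hS0 : G.coeff S ≠ 0) (nu : L →+ ℤ) (hnS : nu S = 0)
    (hn : ∀ b : Ker (co phi i0), (cl (co phi i0) S bg.h lam G).coeff b ≠ 0 → nu (b : L) = 0) :
    ∀ a ∈ supp G, nu a = 0 := by
  have hth : 1 - (lam : RO O) * ((e0⁻¹ : (RO O)ˣ) : RO O) ≠ 0 := by
    intro h0
    apply hle
    apply Units.ext
    have h1 : (lam : RO O) * ((e0⁻¹ : (RO O)ˣ) : RO O) = 1 := (sub_eq_zero.1 h0).symm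
    calc (lam : RO O) = (lam : RO O) * (((e0⁻¹ : (RO O)ˣ) : RO O) * (e0 : RO O)) := by
          rw [Units.inv_mul, mul_one]
      _ = (e0 : RO O) := by rw [← mul_assoc, h1, one_mul]
  -- the values at exponents with `p1 /= p2`
  have hne : ∀ b : L, co phi i0 b = 0 → p1 b ≠ p2 b → G.coeff b ≠ 0 → nu b = 0 := by
    intro b hb hp hG
    apply hn ⟨b, hb⟩
    rw [bg.cf]
    have h3 := bg.tg b hb hp
    have h4 : G.coeff b + (lam : RO O) * G.coeff (b + S) =
        (1 - (lam : RO O) * ((e0⁻¹ : (RO O)ˣ) : RO O)) * G.coeff b := by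
      have h5 : G.coeff (b + S) = -(((e0⁻¹ : (RO O)ˣ) : RO O) * G.coeff b) := by
        have h5 : ((e0⁻¹ : (RO O)ˣ) : RO O) * (G.coeff b + (e0 : RO O) * G.coeff (b + S)) = 0 := by
          rw [h3, mul_zero]
        rw [mul_add, ← mul_assoc, Units.inv_mul, one_mul] at h5
        exact eq_neg_of_add_eq_zero_right h5
      rw [h5]
      ring
    change G.coeff b + (lam : RO O) * G.coeff (b + S) ≠ 0
    rw [h4]
    exact mul_ne_zero hth hG
  have hr1 : nu r1 = 0 := by
    have h1 := bg.c1 0 (map_zero _) (map_zero _) (map_zero _)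
    rw [zero_add, zero_add] at h1
    refine hne r1 bg.h1 (by rw [bg.p11, bg.p21]; exact one_ne_zero) ?_
    intro h2
    rw [h2, mul_zero] at h1
    exact (mul_ne_zero e0.ne_zero hS0) h1
  have hr2 : nu r2 = 0 := by
    have h1 := bg.c2 0 (map_zero _) (map_zero _) (map_zero _)
    rw [zero_add, zero_add] at h1
    refine hne r2 bg.h2 (by rw [bg.p12, bg.p22]; exact zero_ne_one) ?_
    intro h2
    rw [h2, mul_zero] at h1
    exact (mul_ne_zero e0.ne_zero hS0) h1
  -- reduction to the kernel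
  have key : ∀ b : L, co phi i0 b = 0 → (G.coeff b ≠ 0 ∨ G.coeff (b + S) ≠ 0) → nu b = 0 := by
    intro b hb hG
    by_cases hH : (cl (co phi i0) S bg.h lam G).coeff (⟨b, hb⟩ : Ker (co phi i0)) = 0
    · rw [bg.cf] at hH
      replace hH : G.coeff b + (lam : RO O) * G.coeff (b + S) = 0 := hH
      have hb1 : G.coeff b ≠ 0 := by
        intro h0
        rw [h0, zero_add] at hH
        rcases hG with h | h
        · exact h h0
        · exact (mul_ne_zero lam.ne_zero h) hH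
      have hb2 : G.coeff (b + S) ≠ 0 := by
        intro h0
        rw [h0, mul_zero, add_zero] at hH
        exact hb1 hH
      by_cases hp : p1 b = p2 b
      · obtain ⟨c1 | c1, -⟩ := bg.sp b hb hG
        · have h1 := bg.c1 b hb c1 (by rw [← hp, c1])
          have h2 : nu (b + r1) = 0 := by
            refine hne (b + r1) (by rw [map_add, hb, bg.h1, add_zero]) ?_ ?_
            · rw [map_add, map_add, bg.p11, bg.p21, hp]
              omega
            · intro h3
              rw [h3, mul_zero] at h1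
              exact (mul_ne_zero e0.ne_zero hb2) h1
          rw [map_add, hr1, add_zero] at h2
          exact h2
        · have h1 := bg.c3 b hb c1 (by rw [← hp, c1])
          have h2 : nu (b - r2) = 0 := by
            refine hne (b - r2) (by rw [map_sub, hb, bg.h2, sub_zero]) ?_ ?_
            · rw [map_sub, map_sub, bg.p12, bg.p22, hp]
              omega
            · intro h3
              rw [h3, zero_add] at h1
              exact (mul_ne_zero e2.ne_zero hb1) h1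
          rw [map_sub, hr2, sub_zero] at h2
          exact h2
      · exact hne b hb hp hb1
    · exact hn ⟨b, hb⟩ hH
  intro a ha
  rcases bg.k01 a ha with h | h
  · exact key a h (Or.inl ha)
  · have h1 : nu (a - S) = 0 := by
      apply key (a - S) (by rw [map_sub, h, bg.h, sub_self])
      right
      rw [sub_add_cancel]
      exact ha
    rw [map_sub, hnS, sub_zero] at h1
    exact h1

/-- A bihomogeneous element. -/
def Bh {M : Type} [AddCommGroup M] (q1 q2 : M →+ ℤ) (s t : ℤ) (X : AO O M) : Prop :=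
  ∀ a ∈ supp X, q1 a = s ∧ q2 a = t

theorem bh_mul {M : Type} [AddCommGroup M] {q1 q2 : M →+ ℤ} {s t s' t' : ℤ} {X Y : AO O M}
    (hX : Bh q1 q2 s t X) (hY : Bh q1 q2 s' t' Y) : Bh q1 q2 (s + s') (t + t') (X * Y) := by
  intro c hc
  obtain ⟨a, ha, b, hb, h⟩ := Pool.Agent.B5.H74.supp_mul X Y c hc
  rw [← h, map_add, map_add, (hX a ha).1, (hY b hb).1, (hX a ha).2, (hY b hb).2]
  exact ⟨rfl, rfl⟩

theorem bh_pc {M : Type} [AddCommGroup M] (q1 q2 : M →+ ℤ) (s t : ℤ) (X : AO O M) :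
    Bh q1 q2 s t (pc q1 q2 s t X) := fun _ ha => (pc_supp ha).1

theorem pc_same {M : Type} [AddCommGroup M] {q1 q2 : M →+ ℤ} {s t : ℤ} {X : AO O M}
    (hX : Bh q1 q2 s t X) : pc q1 q2 s t X = X := by
  apply aext
  intro a
  by_cases h : q1 a = s ∧ q2 a = t
  · rw [pc_in _ h]
  · rw [pc_out _ h]
    by_contra h1
    exact h (hX a (Ne.symm h1))

theorem pc_other {M : Type} [AddCommGroup M] {q1 q2 : M →+ ℤ} {s t s' t' : ℤ} {X : AO O M}
    (hX : Bh q1 q2 s' t' X) (hne : ¬ (s' = s ∧ t' = t)) : pc q1 q2 s t X = 0 := by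
  apply aext
  intro a
  by_cases h : q1 a = s ∧ q2 a = t
  · rw [pc_in _ h]
    by_contra h1
    obtain ⟨h2, h3⟩ := hX a h1
    exact hne ⟨by rw [← h2, h.1], by rw [← h3, h.2]⟩
  · rw [pc_out _ h]
    rfl

/-- An element whose exponents have only two bidegrees. -/
theorem two_pc {M : Type} [AddCommGroup M] {q1 q2 : M →+ ℤ} {s t s' t' : ℤ} {X : AO O M}
    (hne : ¬ (s = s' ∧ t = t'))
    (hX : ∀ a ∈ supp X, (q1 a = s ∧ q2 a = t) ∨ (q1 a = s' ∧ q2 a = t')) :
    X = pc q1 q2 s t X + pc q1 q2 s' t' X := by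
  apply aext
  intro a
  rw [coeff_add, Finsupp.add_apply]
  by_cases h : q1 a = s ∧ q2 a = t
  · rw [pc_in _ h, pc_out _ (fun h1 => hne ⟨h.1.symm.trans h1.1, h.2.symm.trans h1.2⟩), add_zero]
  · rw [pc_out _ h, zero_add]
    by_cases h' : q1 a = s' ∧ q2 a = t'
    · rw [pc_in _ h']
    · rw [pc_out _ h']
      by_contra h1
      rcases hX a h1 with h2 | h2
      · exact h h2
      · exact h' h2

theorem pcg_add {M : Type} [AddCommGroup M] (q1 q2 : M →+ ℤ) (s t : ℤ) (X Y : AO O M) :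
    pc q1 q2 s t (X + Y) = pc q1 q2 s t X + pc q1 q2 s t Y := flt_add _ X Y

/-- The degrees of two factors. -/
theorem bd_fac (hMin : MinS) {f Q H : AO O L} (hH : H = f * Q) (f0 : f.coeff 0 ≠ 0)
    (Q0 : Q.coeff 0 ≠ 0) (g : L →+ ℤ) (hb : ∀ a ∈ supp H, g a = 0 ∨ g a = 1) :
    (∀ a ∈ supp f, g a = 0 ∨ g a = 1) ∧ (∀ b ∈ supp Q, g b = 0 ∨ g b = 1) ∧
      ((∃ a ∈ supp f, g a = 1) → ∀ b ∈ supp Q, g b = 0) := by
  have hf : f ≠ 0 := ne_of_co f0
  have hQ : Q ≠ 0 := ne_of_co Q0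
  have hH' : H = Q * f := by rw [hH, mul_comm]
  have a1 := hMin O L f Q hf Q0 g 0 (fun a ha => by
    rw [← hH] at ha
    rcases hb a ha with h | h <;> rw [h] <;> norm_num)
  have a2 := hMin O L f Q hf Q0 (-g) (-1) (fun a ha => by
    rw [← hH] at ha
    rw [AddMonoidHom.neg_apply]
    rcases hb a ha with h | h <;> rw [h] <;> norm_num)
  have b1 := hMin O L Q f hQ f0 g 0 (fun a ha => by
    rw [← hH'] at ha
    rcases hb a ha with h | h <;> rw [h] <;> norm_num)
  have b2 := hMin O L Q f hQ f0 (-g) (-1) (fun a ha => by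
    rw [← hH'] at ha
    rw [AddMonoidHom.neg_apply]
    rcases hb a ha with h | h <;> rw [h] <;> norm_num)
  refine ⟨?_, ?_, ?_⟩
  · intro a ha
    have h1 := a1 a ha
    have h2 := a2 a ha
    rw [AddMonoidHom.neg_apply] at h2
    omega
  · intro a ha
    have h1 := b1 a ha
    have h2 := b2 a ha
    rw [AddMonoidHom.neg_apply] at h2
    omega
  · rintro ⟨a, ha, hga⟩ b hb'
    have h1 := deg_excl hMin (F := Q) (Q := f) g hQ (by
      intro x hx
      rw [← hH'] at hx
      rcases hb x hx with h | h <;> rw [h] <;> norm_num) ha hga b hb'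
    have h2 := b1 b hb'
    omega

theorem Bg.deg (bg : Bg phi G S r1 r2 e0 e1 e2 lam i0 p1 p2) (b : Ker (co phi i0))
    (hb : (cl (co phi i0) S bg.h lam G).coeff b ≠ 0) :
    (p1 (b : L) = 0 ∨ p1 (b : L) = 1) ∧ (p2 (b : L) = 0 ∨ p2 (b : L) = 1) := by
  apply bg.sp b b.2
  by_contra hcon
  push Not at hcon
  apply hb
  rw [bg.cf, hcon.1, hcon.2, mul_zero, add_zero]

theorem Bg.th (bg : Bg phi G S r1 r2 e0 e1 e2 lam i0 p1 p2) (hle : lam ≠ e0) :
    1 - (lam : RO O) * ((e0⁻¹ : (RO O)ˣ) : RO O) ≠ 0 := by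
  intro h0
  apply hle
  apply Units.ext
  have h1 : (lam : RO O) * ((e0⁻¹ : (RO O)ˣ) : RO O) = 1 := (sub_eq_zero.1 h0).symm
  calc (lam : RO O) = (lam : RO O) * (((e0⁻¹ : (RO O)ˣ) : RO O) * (e0 : RO O)) := by
        rw [Units.inv_mul, mul_one]
    _ = (e0 : RO O) := by rw [← mul_assoc, h1, one_mul]

theorem Bg.r1H (bg : Bg phi G S r1 r2 e0 e1 e2 lam i0 p1 p2) (hle : lam ≠ e0)
    (hS0 : G.coeff S ≠ 0) (R1 : Ker (co phi i0)) (h1 : (R1 : L) = r1) :
    (cl (co phi i0) S bg.h lam G).coeff R1 ≠ 0 := by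
  have h2 : (cl (co phi i0) S bg.h lam G).coeff R1 = (bg.E 1 0).coeff r1 := by
    rw [bg.E_in bg.h1 bg.p11 bg.p21, bg.cf, h1]
  rw [h2, bg.E_ne bg.h1 bg.p11 bg.p21 one_ne_zero]
  refine mul_ne_zero (bg.th hle) ?_
  intro h3
  have h4 := bg.c1 0 (map_zero _) (map_zero _) (map_zero _)
  rw [zero_add, zero_add, h3, mul_zero] at h4
  exact (mul_ne_zero e0.ne_zero hS0) h4

theorem Bg.r2H (bg : Bg phi G S r1 r2 e0 e1 e2 lam i0 p1 p2) (hle : lam ≠ e0)
    (hS0 : G.coeff S ≠ 0) (R2 : Ker (co phi i0)) (h1 : (R2 : L) = r2) :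
    (cl (co phi i0) S bg.h lam G).coeff R2 ≠ 0 := by
  have h2 : (cl (co phi i0) S bg.h lam G).coeff R2 = (bg.E 0 1).coeff r2 := by
    rw [bg.E_in bg.h2 bg.p12 bg.p22, bg.cf, h1]
  rw [h2, bg.E_ne bg.h2 bg.p12 bg.p22 zero_ne_one]
  refine mul_ne_zero (bg.th hle) ?_
  intro h3
  have h4 := bg.c2 0 (map_zero _) (map_zero _) (map_zero _)
  rw [zero_add, zero_add, h3, mul_zero] at h4
  exact (mul_ne_zero e0.ne_zero hS0) h4

/-- The common divisor of the pieces is a constant. -/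
theorem Bg.mono (hMin : MinS) (bg : Bg phi G S r1 r2 e0 e1 e2 lam i0 p1 p2) (hle : lam ≠ e0)
    (hirr : Irreducible G) (hinj : Function.Injective phi) (hG0 : G.coeff 0 ≠ 0)
    (hS0 : G.coeff S ≠ 0) {X : AO O (Ker (co phi i0))} {d : RO O} (hd : d ≠ 0)
    (h00 : X ∣ cst d * bg.H 0 0) (h10 : X ∣ cst d * bg.H 1 0)
    (h01 : X ∣ cst d * bg.H 0 1) (h11 : X ∣ cst d * bg.H 1 1) :
    ∀ a ∈ supp X, ∀ b ∈ supp X, a = b := by
  have h1 := bg.dvd h00 h10 h01 h11
  have h2 := mono_of_dvd hMin hirr (co phi i0) (x := 0) (y := S) hG0 hS0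
    (by rw [map_zero, bg.h]; exact zero_ne_one) (X := em (Ker (co phi i0)) X) (by
      intro a ha
      by_contra h3
      exact ha (em_coeff_not _ _ a h3)) (mul_ne_zero hd (bg.th hle)) h1
  intro a ha b hb
  have ha' : (a : L) ∈ supp (em (Ker (co phi i0)) X) := by
    change (em (Ker (co phi i0)) X).coeff (a : L) ≠ 0
    rw [em_coeff]
    exact ha
  have hb' : (b : L) ∈ supp (em (Ker (co phi i0)) X) := by
    change (em (Ker (co phi i0)) X).coeff (b : L) ≠ 0
    rw [em_coeff]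
    exact hb
  apply Subtype.ext
  apply hinj
  funext j
  exact h2 _ ha' _ hb' (co phi j)

end

end Pool.Agent.B5.KO90
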