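import Pool.Agent.Lib.MP_b5021c_nt.BP.H57.Ofac
import Pool.Agent.Lib.MP_b5021c_nt.KO.H40.Kil
import Pool.Agent.Lib.MP_b5021c_nt.K.H25.Bch
import Pool.Agent.Lib.MP_b5021c_nt.B.H36.H1a

/-!
# MP_b5021c_nt, all `θ`, K odd, `l = 3`, ALPHA, row I1 (part A): the four pieces of the closing

`H = G(w^S = lam)` is bigraded by two functionals `p1`, `p2` with the values `0, 1` on the exponents
(`S = r 0`, `p1 (r 1) = 1`, `p2 (r 2) = 1`).  `G` is a combination of the four pieces of `H`.
-/

set_option linter.unusedSectionVars false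

namespace Pool.Agent.B5.KO90

open scoped LaurentPolynomial
open AddMonoidAlgebra
open Pool.Agent.B5.H71 (em em_single em_coeff em_coeff_not em_res)
open Pool.Agent.B5.KO.H40 (flt flt_in flt_out mon_mul_coeff)

section

variable {O : Type} [CommRing O] {L : Type} [AddCommGroup L]

theorem aext {F G : AO O L} (h : ∀ a, F.coeff a = G.coeff a) : F = G :=
  AddMonoidAlgebra.ext (Finsupp.ext h)

theorem flt_add (Q : Set L) (F G : AO O L) : flt Q (F + G) = flt Q F + flt Q G := by
  apply aext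
  intro a
  by_cases ha : a ∈ Q
  · rw [flt_in _ ha, coeff_add, coeff_add, Finsupp.add_apply, Finsupp.add_apply, flt_in _ ha,
      flt_in _ ha]
  · rw [flt_out _ ha, coeff_add, Finsupp.add_apply, flt_out _ ha, flt_out _ ha, add_zero]

theorem flt_zero (Q : Set L) : flt Q (0 : AO O L) = 0 := by
  apply aext
  intro a
  by_cases ha : a ∈ Q
  · rw [flt_in _ ha]
  · rw [flt_out _ ha]
    rfl

/-- Filtering commutes with the multiplication by an element whose exponents leave `Q` invariant. -/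
theorem flt_mul {Q : Set L} {X : AO O L} (hX : ∀ a ∈ supp X, ∀ b, a + b ∈ Q ↔ b ∈ Q)
    (F : AO O L) : flt Q (X * F) = X * flt Q F := by
  have key : ∀ s : Finset L, (∀ a ∈ s, X.coeff a ≠ 0) →
      flt Q ((∑ a ∈ s, single a (X.coeff a)) * F) =
        (∑ a ∈ s, single a (X.coeff a)) * flt Q F := by
    classical
    intro s
    induction s using Finset.induction_on with
    | empty => intro _; simp [flt_zero]
    | insert a s ha ih =>
      intro h
      rw [Finset.sum_insert ha, add_mul, add_mul, flt_add,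
        ih fun b hb => h b (Finset.mem_insert_of_mem hb)]
      congr 1
      apply aext
      intro x
      rw [mon_mul_coeff]
      have hx : x ∈ Q ↔ x - a ∈ Q := by
        have h1 := hX a (h a (Finset.mem_insert_self _ _)) (x - a)
        rwa [add_sub_cancel] at h1
      by_cases hxQ : x ∈ Q
      · rw [flt_in _ hxQ, flt_in _ (hx.1 hxQ), mon_mul_coeff]
      · rw [flt_out _ hxQ, flt_out _ fun h2 => hxQ (hx.2 h2), mul_zero]
  have h0 := key X.coeff.support fun a ha => Finsupp.mem_support_iff.1 ha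
  have h1 : ∑ a ∈ X.coeff.support, single a (X.coeff a) = X := (H36.eq_sum_single X).symm
  rwa [h1] at h0

/-- The piece of bidegree `(s, t)`. -/
noncomputable def pc (p1 p2 : L →+ ℤ) (s t : ℤ) (F : AO O L) : AO O L :=
  flt {a | p1 a = s ∧ p2 a = t} F

theorem pc_in {p1 p2 : L →+ ℤ} {s t : ℤ} {a : L} (F : AO O L) (h : p1 a = s ∧ p2 a = t) :
    (pc p1 p2 s t F).coeff a = F.coeff a := flt_in F h

theorem pc_out {p1 p2 : L →+ ℤ} {s t : ℤ} {a : L} (F : AO O L) (h : ¬ (p1 a = s ∧ p2 a = t)) :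
    (pc p1 p2 s t F).coeff a = 0 := flt_out F h

theorem pc_mul {p1 p2 : L →+ ℤ} {X : AO O L} (hX : ∀ a ∈ supp X, p1 a = 0 ∧ p2 a = 0) (s t : ℤ)
    (F : AO O L) : pc p1 p2 s t (X * F) = X * pc p1 p2 s t F := by
  apply flt_mul
  intro a ha b
  obtain ⟨h1, h2⟩ := hX a ha
  simp only [Set.mem_setOf_eq, map_add, h1, h2, zero_add]

theorem pc_supp {p1 p2 : L →+ ℤ} {s t : ℤ} {F : AO O L} {a : L} (h : a ∈ supp (pc p1 p2 s t F)) :
    (p1 a = s ∧ p2 a = t) ∧ a ∈ supp F := by
  by_cases h1 : p1 a = s ∧ p2 a = t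
  · refine ⟨h1, ?_⟩
    have h2 : (pc p1 p2 s t F).coeff a ≠ 0 := h
    rw [pc_in _ h1] at h2
    exact h2
  · exact absurd (pc_out F h1) h

end

section

variable {O : Type} [CommRing O] [Coef O] {P : Type} [Fintype P] [DecidableEq P] {L : Type}
  [AddCommGroup L]

/-- The data of the bigraded closing `w^S = lam`, `S = r 0` with the drop load `e0`. -/
structure Bg (phi : L →+ (P → ℤ)) (G : AO O L) (S r1 r2 : L) (e0 e1 e2 lam : (RO O)ˣ) (i0 : P)
    (p1 p2 : L →+ ℤ) : Prop where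
  h : co phi i0 S = 1
  h1 : co phi i0 r1 = 0
  h2 : co phi i0 r2 = 0
  p11 : p1 r1 = 1
  p12 : p1 r2 = 0
  p21 : p2 r1 = 0
  p22 : p2 r2 = 1
  k01 : ∀ a ∈ supp G, co phi i0 a = 0 ∨ co phi i0 a = 1
  sp : ∀ b : L, co phi i0 b = 0 → (G.coeff b ≠ 0 ∨ G.coeff (b + S) ≠ 0) →
    (p1 b = 0 ∨ p1 b = 1) ∧ (p2 b = 0 ∨ p2 b = 1)
  tg : ∀ b : L, co phi i0 b = 0 → p1 b ≠ p2 b →
    G.coeff b + (e0 : RO O) * G.coeff (b + S) = 0
  c1 : ∀ b : L, co phi i0 b = 0 → p1 b = 0 → p2 b = 0 →
    (e0 : RO O) * G.coeff (b + S) = (e1 : RO O) * G.coeff (b + r1)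
  c2 : ∀ b : L, co phi i0 b = 0 → p1 b = 0 → p2 b = 0 →
    (e0 : RO O) * G.coeff (b + S) = (e2 : RO O) * G.coeff (b + r2)
  c3 : ∀ b : L, co phi i0 b = 0 → p1 b = 1 → p2 b = 1 →
    G.coeff (b - r2) + (e2 : RO O) * G.coeff b = 0

variable {phi : L →+ (P → ℤ)} {G : AO O L} {S r1 r2 : L} {e0 e1 e2 lam : (RO O)ˣ} {i0 : P}
  {p1 p2 : L →+ ℤ}

theorem Bg.cf (bg : Bg phi G S r1 r2 e0 e1 e2 lam i0 p1 p2) (b : Ker (co phi i0)) :
    (cl (co phi i0) S bg.h lam G).coeff b =
      G.coeff (b : L) + (lam : RO O) * G.coeff ((b : L) + S) :=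
  H36.clc (co phi i0) S bg.h lam G bg.k01 b

/-- The piece of the closing, embedded. -/
noncomputable def Bg.E (bg : Bg phi G S r1 r2 e0 e1 e2 lam i0 p1 p2) (s t : ℤ) : AO O L :=
  em (Ker (co phi i0)) (pc (p1.comp (incl (Ker (co phi i0)))) (p2.comp (incl (Ker (co phi i0)))) s t
    (cl (co phi i0) S bg.h lam G))

theorem Bg.E_in (bg : Bg phi G S r1 r2 e0 e1 e2 lam i0 p1 p2) {s t : ℤ} {a : L}
    (h : co phi i0 a = 0) (h1 : p1 a = s) (h2 : p2 a = t) :
    (bg.E s t).coeff a = G.coeff a + (lam : RO O) * G.coeff (a + S) := by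
  have h3 : a ∈ Ker (co phi i0) := h
  have h4 := em_coeff (Ker (co phi i0)) (pc (p1.comp (incl (Ker (co phi i0))))
    (p2.comp (incl (Ker (co phi i0)))) s t (cl (co phi i0) S bg.h lam G)) ⟨a, h3⟩
  refine h4.trans ?_
  have h5 : (p1.comp (incl (Ker (co phi i0)))) ⟨a, h3⟩ = s ∧
      (p2.comp (incl (Ker (co phi i0)))) ⟨a, h3⟩ = t := ⟨h1, h2⟩
  rw [pc_in _ h5, bg.cf]

theorem Bg.E_out (bg : Bg phi G S r1 r2 e0 e1 e2 lam i0 p1 p2) {s t : ℤ} {a : L}
    (h : co phi i0 a = 0 → p1 a = s → p2 a = t → False) : (bg.E s t).coeff a = 0 := by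
  by_cases h3 : a ∈ Ker (co phi i0)
  · have h4 := em_coeff (Ker (co phi i0)) (pc (p1.comp (incl (Ker (co phi i0))))
      (p2.comp (incl (Ker (co phi i0)))) s t (cl (co phi i0) S bg.h lam G)) ⟨a, h3⟩
    refine h4.trans ?_
    have h5 : ¬ ((p1.comp (incl (Ker (co phi i0)))) ⟨a, h3⟩ = s ∧
      (p2.comp (incl (Ker (co phi i0)))) ⟨a, h3⟩ = t) := fun h5 => h h3 h5.1 h5.2
    rw [pc_out _ h5]
  · exact em_coeff_not _ _ a h3

/-- On the pieces with `p1 /= p2`. -/
theorem Bg.E_ne (bg : Bg phi G S r1 r2 e0 e1 e2 lam i0 p1 p2) {s t : ℤ} {a : L}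
    (h : co phi i0 a = 0) (h1 : p1 a = s) (h2 : p2 a = t) (hst : s ≠ t) :
    (bg.E s t).coeff a = (1 - (lam : RO O) * ((e0⁻¹ : (RO O)ˣ) : RO O)) * G.coeff a := by
  have h3 := bg.tg a h (by rw [h1, h2]; exact hst)
  have h4 : G.coeff (a + S) = -(((e0⁻¹ : (RO O)ˣ) : RO O) * G.coeff a) := by
    have h5 : ((e0⁻¹ : (RO O)ˣ) : RO O) * (G.coeff a + (e0 : RO O) * G.coeff (a + S)) = 0 := by
      rw [h3, mul_zero]
    rw [mul_add, ← mul_assoc, Units.inv_mul, one_mul] at h5
    exact eq_neg_of_add_eq_zero_right h5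
  rw [bg.E_in h h1 h2, h4]
  ring

/-- `G` is a combination of the pieces of its closing. -/
theorem Bg.main (bg : Bg phi G S r1 r2 e0 e1 e2 lam i0 p1 p2) :
    cst (1 - (lam : RO O) * ((e0⁻¹ : (RO O)ˣ) : RO O)) * G =
      (bg.E 1 0 + bg.E 0 1) - single S ((e0⁻¹ : (RO O)ˣ) : RO O) * (bg.E 1 0 + bg.E 0 1) +
      cst (1 - (lam : RO O) * ((e0⁻¹ : (RO O)ˣ) : RO O)) * bg.E 0 0 -
      single (-r1) ((lam : RO O) * ((e0⁻¹ : (RO O)ˣ) : RO O) * (e1 : RO O)) * bg.E 1 0 +
      single (S - r1) (((e0⁻¹ : (RO O)ˣ) : RO O) * (e1 : RO O)) * bg.E 1 0 -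
      single r2 ((e2⁻¹ : (RO O)ˣ) : RO O) * bg.E 1 0 +
      single S (((lam⁻¹ : (RO O)ˣ) : RO O) * (1 - (lam : RO O) * ((e0⁻¹ : (RO O)ˣ) : RO O))) *
        bg.E 1 1 +
      single (S + r2) (((lam⁻¹ : (RO O)ˣ) : RO O) * ((e2⁻¹ : (RO O)ˣ) : RO O)) * bg.E 1 0 := by
  have hlam : ((lam⁻¹ : (RO O)ˣ) : RO O) * (lam : RO O) = 1 := Units.inv_mul lam
  have he0 : ((e0⁻¹ : (RO O)ˣ) : RO O) * (e0 : RO O) = 1 := Units.inv_mul e0
  have he2 : ((e2⁻¹ : (RO O)ˣ) : RO O) * (e2 : RO O) = 1 := Units.inv_mul e2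
  apply aext
  intro a
  unfold cst
  simp only [coeff_add, coeff_sub, Finsupp.add_apply, Finsupp.sub_apply, mon_mul_coeff, sub_zero]
  have hS : co phi i0 S = 1 := bg.h
  rcases eq_or_ne (co phi i0 a) 0 with ha | ha
  · -- `a` in the kernel
    have z1 : ∀ (s t : ℤ) (y : L), co phi i0 y = 0 → (bg.E s t).coeff (a - (S + y)) = 0 := by
      intro s t y hy
      apply bg.E_out
      intro h
      rw [map_sub, map_add, ha, hS, hy] at h
      exact absurd h (by norm_num)
    have z2 : ∀ s t : ℤ, (bg.E s t).coeff (a - S) = 0 := by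
      intro s t
      have h := z1 s t 0 (map_zero _)
      rwa [add_zero] at h
    have z3 : (bg.E 1 0).coeff (a - (S - r1)) = 0 := by
      have h := z1 1 0 (-r1) (by rw [map_neg, bg.h1, neg_zero])
      rwa [← sub_eq_add_neg] at h
    rw [z2, z2, z2, z3, z1 1 0 r2 bg.h2]
    have y1 : co phi i0 (a + r1) = 0 := by rw [map_add, ha, bg.h1, add_zero]
    have y2 : co phi i0 (a - r2) = 0 := by rw [map_sub, ha, bg.h2, sub_zero]
    have e3 : a - -r1 = a + r1 := sub_neg_eq_add a r1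
    rw [e3]
    by_cases hz : G.coeff a = 0 ∧ G.coeff (a + S) = 0
    · have w0 : ∀ s t : ℤ, (bg.E s t).coeff a = 0 := by
        intro s t
        by_cases h1 : p1 a = s ∧ p2 a = t
        · rw [bg.E_in ha h1.1 h1.2, hz.1, hz.2, mul_zero, add_zero]
        · exact bg.E_out fun _ h2 h3 => h1 ⟨h2, h3⟩
      have w1 : (bg.E 1 0).coeff (a + r1) = 0 := by
        by_cases h1 : p1 (a + r1) = 1 ∧ p2 (a + r1) = 0
        · have q1 : p1 a = 0 := by have := h1.1; rw [map_add, bg.p11] at this; linarith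
          have q2 : p2 a = 0 := by have := h1.2; rw [map_add, bg.p21] at this; linarith
          rw [bg.E_ne y1 h1.1 h1.2 one_ne_zero]
          have h5 := bg.c1 a ha q1 q2
          rw [hz.2, mul_zero] at h5
          have h6 : G.coeff (a + r1) = 0 := by
            have h7 : ((e1⁻¹ : (RO O)ˣ) : RO O) * ((e1 : RO O) * G.coeff (a + r1)) = 0 := by
              rw [← h5, mul_zero]
            rwa [← mul_assoc, Units.inv_mul, one_mul] at h7
          rw [h6, mul_zero]
        · exact bg.E_out fun _ h2 h3 => h1 ⟨h2, h3⟩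
      have w2 : (bg.E 1 0).coeff (a - r2) = 0 := by
        by_cases h1 : p1 (a - r2) = 1 ∧ p2 (a - r2) = 0
        · have q1 : p1 a = 1 := by have := h1.1; rw [map_sub, bg.p12] at this; linarith
          have q2 : p2 a = 1 := by have := h1.2; rw [map_sub, bg.p22] at this; linarith
          rw [bg.E_ne y2 h1.1 h1.2 one_ne_zero]
          have h5 := bg.c3 a ha q1 q2
          rw [hz.1, mul_zero, add_zero] at h5
          rw [h5, mul_zero]
        · exact bg.E_out fun _ h2 h3 => h1 ⟨h2, h3⟩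
      rw [w0, w0, w0, w1, w2, hz.1]
      ring
    · have hz2 : G.coeff a ≠ 0 ∨ G.coeff (a + S) ≠ 0 := by
        by_contra hcon
        push Not at hcon
        exact hz hcon
      obtain ⟨c1 | c1, c2 | c2⟩ := bg.sp a ha hz2
      · -- (0,0)
        have w1 : (bg.E 1 0).coeff a = 0 := bg.E_out fun _ h2 _ => by rw [c1] at h2; exact absurd h2 (by norm_num)
        have w2 : (bg.E 0 1).coeff a = 0 := bg.E_out fun _ _ h2 => by rw [c2] at h2; exact absurd h2 (by norm_num)
        have w3 : (bg.E 1 0).coeff (a - r2) = 0 := bg.E_out fun _ h2 _ => by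
          rw [map_sub, c1, bg.p12] at h2; exact absurd h2 (by norm_num)
        have q1 : p1 (a + r1) = 1 := by rw [map_add, c1, bg.p11, zero_add]
        have q2 : p2 (a + r1) = 0 := by rw [map_add, c2, bg.p21, zero_add]
        rw [w1, w2, w3, bg.E_in ha c1 c2, bg.E_ne y1 q1 q2 one_ne_zero]
        have h5 := bg.c1 a ha c1 c2
        linear_combination (-(1 - (lam : RO O) * ((e0⁻¹ : (RO O)ˣ) : RO O)) * (lam : RO O) * ((e0⁻¹ : (RO O)ˣ) : RO O)) * h5 +
          ((1 - (lam : RO O) * ((e0⁻¹ : (RO O)ˣ) : RO O)) * (lam : RO O) * G.coeff (a + S)) * he0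
      · -- (0,1)
        have w1 : (bg.E 1 0).coeff a = 0 := bg.E_out fun _ h2 _ => by rw [c1] at h2; exact absurd h2 (by norm_num)
        have w2 : (bg.E 0 0).coeff a = 0 := bg.E_out fun _ _ h2 => by rw [c2] at h2; exact absurd h2 (by norm_num)
        have w3 : (bg.E 1 0).coeff (a - r2) = 0 := bg.E_out fun _ h2 _ => by
          rw [map_sub, c1, bg.p12] at h2; exact absurd h2 (by norm_num)
        have w4 : (bg.E 1 0).coeff (a + r1) = 0 := bg.E_out fun _ _ h2 => by
          rw [map_add, c2, bg.p21] at h2; exact absurd h2 (by norm_num)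
        rw [w1, w2, w3, w4, bg.E_ne ha c1 c2 zero_ne_one]
        ring
      · -- (1,0)
        have w1 : (bg.E 0 1).coeff a = 0 := bg.E_out fun _ h2 _ => by rw [c1] at h2; exact absurd h2 (by norm_num)
        have w2 : (bg.E 0 0).coeff a = 0 := bg.E_out fun _ h2 _ => by rw [c1] at h2; exact absurd h2 (by norm_num)
        have w3 : (bg.E 1 0).coeff (a - r2) = 0 := bg.E_out fun _ _ h2 => by
          rw [map_sub, c2, bg.p22] at h2; exact absurd h2 (by norm_num)
        have w4 : (bg.E 1 0).coeff (a + r1) = 0 := bg.E_out fun _ h2 _ => by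
          rw [map_add, c1, bg.p11] at h2; exact absurd h2 (by norm_num)
        rw [w1, w2, w3, w4, bg.E_ne ha c1 c2 one_ne_zero]
        ring
      · -- (1,1)
        have w1 : (bg.E 0 1).coeff a = 0 := bg.E_out fun _ h2 _ => by rw [c1] at h2; exact absurd h2 (by norm_num)
        have w2 : (bg.E 0 0).coeff a = 0 := bg.E_out fun _ h2 _ => by rw [c1] at h2; exact absurd h2 (by norm_num)
        have w3 : (bg.E 1 0).coeff a = 0 := bg.E_out fun _ _ h2 => by rw [c2] at h2; exact absurd h2 (by norm_num)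
        have w4 : (bg.E 1 0).coeff (a + r1) = 0 := bg.E_out fun _ h2 _ => by
          rw [map_add, c1, bg.p11] at h2; exact absurd h2 (by norm_num)
        have q1 : p1 (a - r2) = 1 := by rw [map_sub, c1, bg.p12, sub_zero]
        have q2 : p2 (a - r2) = 0 := by rw [map_sub, c2, bg.p22, sub_self]
        rw [w1, w2, w3, w4, bg.E_ne y2 q1 q2 one_ne_zero]
        have h5 := bg.c3 a ha c1 c2
        linear_combination ((1 - (lam : RO O) * ((e0⁻¹ : (RO O)ˣ) : RO O)) * ((e2⁻¹ : (RO O)ˣ) : RO O)) * h5 -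
          ((1 - (lam : RO O) * ((e0⁻¹ : (RO O)ˣ) : RO O)) * G.coeff a) * he2
  · -- `a` is not in the kernel
    have z1 : ∀ (s t : ℤ) (y : L), co phi i0 y = 0 → (bg.E s t).coeff (a - y) = 0 := by
      intro s t y hy
      apply bg.E_out
      intro h
      rw [map_sub, hy, sub_zero] at h
      exact absurd h ha
    have z2 : ∀ s t : ℤ, (bg.E s t).coeff a = 0 := by
      intro s t
      have h := z1 s t 0 (map_zero _)
      rwa [sub_zero] at h
    have z3 : (bg.E 1 0).coeff (a - -r1) = 0 := z1 1 0 (-r1) (by rw [map_neg, bg.h1, neg_zero])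
    rw [z2, z2, z2, z3, z1 1 0 r2 bg.h2]
    obtain ⟨b, hb⟩ : ∃ b, a = b + S := ⟨a - S, by rw [sub_add_cancel]⟩
    have e1' : a - S = b := by rw [hb, add_sub_cancel_right]
    have e2' : a - (S - r1) = b + r1 := by rw [hb]; abel
    have e3' : a - (S + r2) = b - r2 := by rw [hb]; abel
    rw [e1', e2', e3']
    have hcb : co phi i0 a = co phi i0 b + 1 := by rw [hb, map_add, hS]
    by_cases hb0 : co phi i0 b = 0
    · have y1 : co phi i0 (b + r1) = 0 := by rw [map_add, hb0, bg.h1, add_zero]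
      have y2 : co phi i0 (b - r2) = 0 := by rw [map_sub, hb0, bg.h2, sub_zero]
      rw [hb]
      by_cases hz : G.coeff b = 0 ∧ G.coeff (b + S) = 0
      · have w0 : ∀ s t : ℤ, (bg.E s t).coeff b = 0 := by
          intro s t
          by_cases h1 : p1 b = s ∧ p2 b = t
          · rw [bg.E_in hb0 h1.1 h1.2, hz.1, hz.2, mul_zero, add_zero]
          · exact bg.E_out fun _ h2 h3 => h1 ⟨h2, h3⟩
        have w1 : (bg.E 1 0).coeff (b + r1) = 0 := by
          by_cases h1 : p1 (b + r1) = 1 ∧ p2 (b + r1) = 0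
          · have q1 : p1 b = 0 := by have := h1.1; rw [map_add, bg.p11] at this; linarith
            have q2 : p2 b = 0 := by have := h1.2; rw [map_add, bg.p21] at this; linarith
            rw [bg.E_ne y1 h1.1 h1.2 one_ne_zero]
            have h5 := bg.c1 b hb0 q1 q2
            rw [hz.2, mul_zero] at h5
            have h6 : G.coeff (b + r1) = 0 := by
              have h7 : ((e1⁻¹ : (RO O)ˣ) : RO O) * ((e1 : RO O) * G.coeff (b + r1)) = 0 := by
                rw [← h5, mul_zero]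
              rwa [← mul_assoc, Units.inv_mul, one_mul] at h7
            rw [h6, mul_zero]
          · exact bg.E_out fun _ h2 h3 => h1 ⟨h2, h3⟩
        have w2 : (bg.E 1 0).coeff (b - r2) = 0 := by
          by_cases h1 : p1 (b - r2) = 1 ∧ p2 (b - r2) = 0
          · have q1 : p1 b = 1 := by have := h1.1; rw [map_sub, bg.p12] at this; linarith
            have q2 : p2 b = 1 := by have := h1.2; rw [map_sub, bg.p22] at this; linarith
            rw [bg.E_ne y2 h1.1 h1.2 one_ne_zero]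
            have h5 := bg.c3 b hb0 q1 q2
            rw [hz.1, mul_zero, add_zero] at h5
            rw [h5, mul_zero]
          · exact bg.E_out fun _ h2 h3 => h1 ⟨h2, h3⟩
        rw [w0, w0, w0, w1, w2, hz.2]
        ring
      · have hz2 : G.coeff b ≠ 0 ∨ G.coeff (b + S) ≠ 0 := by
          by_contra hcon
          push Not at hcon
          exact hz hcon
        obtain ⟨c1 | c1, c2 | c2⟩ := bg.sp b hb0 hz2
        · -- (0,0)
          have w1 : (bg.E 1 0).coeff b = 0 := bg.E_out fun _ h2 _ => by rw [c1] at h2; exact absurd h2 (by norm_num)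
          have w2 : (bg.E 0 1).coeff b = 0 := bg.E_out fun _ _ h2 => by rw [c2] at h2; exact absurd h2 (by norm_num)
          have w5 : (bg.E 1 1).coeff b = 0 := bg.E_out fun _ _ h2 => by rw [c2] at h2; exact absurd h2 (by norm_num)
          have w3 : (bg.E 1 0).coeff (b - r2) = 0 := bg.E_out fun _ h2 _ => by
            rw [map_sub, c1, bg.p12] at h2; exact absurd h2 (by norm_num)
          have q1 : p1 (b + r1) = 1 := by rw [map_add, c1, bg.p11, zero_add]
          have q2 : p2 (b + r1) = 0 := by rw [map_add, c2, bg.p21, zero_add]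
          rw [w1, w2, w3, w5, bg.E_ne y1 q1 q2 one_ne_zero]
          have h5 := bg.c1 b hb0 c1 c2
          linear_combination ((1 - (lam : RO O) * ((e0⁻¹ : (RO O)ˣ) : RO O)) * ((e0⁻¹ : (RO O)ˣ) : RO O)) * h5 -
            ((1 - (lam : RO O) * ((e0⁻¹ : (RO O)ˣ) : RO O)) * G.coeff (b + S)) * he0
        · -- (0,1)
          have w1 : (bg.E 1 0).coeff b = 0 := bg.E_out fun _ h2 _ => by rw [c1] at h2; exact absurd h2 (by norm_num)
          have w2 : (bg.E 1 1).coeff b = 0 := bg.E_out fun _ h2 _ => by rw [c1] at h2; exact absurd h2 (by norm_num)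
          have w3 : (bg.E 1 0).coeff (b - r2) = 0 := bg.E_out fun _ h2 _ => by
            rw [map_sub, c1, bg.p12] at h2; exact absurd h2 (by norm_num)
          have w4 : (bg.E 1 0).coeff (b + r1) = 0 := bg.E_out fun _ _ h2 => by
            rw [map_add, c2, bg.p21] at h2; exact absurd h2 (by norm_num)
          rw [w1, w2, w3, w4, bg.E_ne hb0 c1 c2 zero_ne_one]
          have h5 := bg.tg b hb0 (by rw [c1, c2]; norm_num)
          linear_combination ((1 - (lam : RO O) * ((e0⁻¹ : (RO O)ˣ) : RO O)) * ((e0⁻¹ : (RO O)ˣ) : RO O)) * h5 -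
            ((1 - (lam : RO O) * ((e0⁻¹ : (RO O)ˣ) : RO O)) * G.coeff (b + S)) * he0
        · -- (1,0)
          have w1 : (bg.E 0 1).coeff b = 0 := bg.E_out fun _ h2 _ => by rw [c1] at h2; exact absurd h2 (by norm_num)
          have w2 : (bg.E 1 1).coeff b = 0 := bg.E_out fun _ _ h2 => by rw [c2] at h2; exact absurd h2 (by norm_num)
          have w3 : (bg.E 1 0).coeff (b - r2) = 0 := bg.E_out fun _ _ h2 => by
            rw [map_sub, c2, bg.p22] at h2; exact absurd h2 (by norm_num)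
          have w4 : (bg.E 1 0).coeff (b + r1) = 0 := bg.E_out fun _ h2 _ => by
            rw [map_add, c1, bg.p11] at h2; exact absurd h2 (by norm_num)
          rw [w1, w2, w3, w4, bg.E_ne hb0 c1 c2 one_ne_zero]
          have h5 := bg.tg b hb0 (by rw [c1, c2]; norm_num)
          linear_combination ((1 - (lam : RO O) * ((e0⁻¹ : (RO O)ˣ) : RO O)) * ((e0⁻¹ : (RO O)ˣ) : RO O)) * h5 -
            ((1 - (lam : RO O) * ((e0⁻¹ : (RO O)ˣ) : RO O)) * G.coeff (b + S)) * he0
        · -- (1,1)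
          have w1 : (bg.E 0 1).coeff b = 0 := bg.E_out fun _ h2 _ => by rw [c1] at h2; exact absurd h2 (by norm_num)
          have w3 : (bg.E 1 0).coeff b = 0 := bg.E_out fun _ _ h2 => by rw [c2] at h2; exact absurd h2 (by norm_num)
          have w4 : (bg.E 1 0).coeff (b + r1) = 0 := bg.E_out fun _ h2 _ => by
            rw [map_add, c1, bg.p11] at h2; exact absurd h2 (by norm_num)
          have q1 : p1 (b - r2) = 1 := by rw [map_sub, c1, bg.p12, sub_zero]
          have q2 : p2 (b - r2) = 0 := by rw [map_sub, c2, bg.p22, sub_self]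
          rw [w1, w3, w4, bg.E_in hb0 c1 c2, bg.E_ne y2 q1 q2 one_ne_zero]
          have h5 := bg.c3 b hb0 c1 c2
          linear_combination (-((lam⁻¹ : (RO O)ˣ) : RO O) * (1 - (lam : RO O) * ((e0⁻¹ : (RO O)ˣ) : RO O)) * ((e2⁻¹ : (RO O)ˣ) : RO O)) * h5 +
            (((lam⁻¹ : (RO O)ˣ) : RO O) * (1 - (lam : RO O) * ((e0⁻¹ : (RO O)ˣ) : RO O)) * G.coeff b) * he2 -
            ((1 - (lam : RO O) * ((e0⁻¹ : (RO O)ˣ) : RO O)) * G.coeff (b + S)) * hlam
    · have z4 : ∀ (s t : ℤ) (y : L), co phi i0 y = 0 → (bg.E s t).coeff (b + y) = 0 := by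
        intro s t y hy
        apply bg.E_out
        intro h
        rw [map_add, hy, add_zero] at h
        exact absurd h hb0
      have z5 : ∀ s t : ℤ, (bg.E s t).coeff b = 0 := by
        intro s t
        have h := z4 s t 0 (map_zero _)
        rwa [add_zero] at h
      have z6 : (bg.E 1 0).coeff (b - r2) = 0 := by
        have h := z4 1 0 (-r2) (by rw [map_neg, bg.h2, neg_zero])
        rwa [← sub_eq_add_neg] at h
      have hGa : G.coeff a = 0 := by
        by_contra hne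
        rcases bg.k01 a hne with h | h
        · exact ha h
        · apply hb0
          rw [hcb] at h
          linarith
      rw [z5, z5, z5, z4 1 0 r1 bg.h1, z6, hGa]
      ring

end

end Pool.Agent.B5.KO90
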