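import Pool.Agent.Lib.MP_b5021c_nt.KO.H90.I1
import Pool.Agent.Lib.MP_b5021c_nt.E.H61.Fsp

/-!
# MP_b5021c_nt, all `θ`, K odd, `l = 3`, ALPHA, row I1: the closing of a triple at a load `/= ld` is
one factor in `DD`, drop free
-/

set_option linter.unusedSectionVars false

namespace Pool.Agent.B5.KO90

open scoped LaurentPolynomial
open AddMonoidAlgebra
open Pool.Agent.B5.H71 (em em_single em_coeff em_coeff_not em_res)
open Pool.Agent.B5.KO.H40 (flt flt_in flt_out mon_mul_coeff)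

section

variable {O : Type} [CommRing O] [IsDomain O] [IsPrincipalIdealRing O] [Coef O] {P : Type}
  [Fintype P] [DecidableEq P] {L : Type} [AddCommGroup L] [Module.Free ℤ L] [Module.Finite ℤ L]
  {phi : L →+ (P → ℤ)} {G : AO O L} {S r1 r2 : L} {e0 e1 e2 lam : (RO O)ˣ} {i0 : P}
  {p1 p2 : L →+ ℤ}

/-- The closing is drop free. -/
theorem Bg.dr (hRk : RkS) (hKmu : KmuS) (bg : Bg phi G S r1 r2 e0 e1 e2 lam i0 p1 p2)
    (hG : DD phi G) (hle : lam ≠ e0) (hS0 : G.coeff S ≠ 0) :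
    Module.finrank ℤ L = rk (supp (cl (co phi i0) S bg.h lam G)) + 1 := by
  have hker := BP57.finrank_kerO hRk bg.h
  have h1 := (hRk (Ker (co phi i0)) L).2.2.1 (supp (cl (co phi i0) S bg.h lam G))
  by_contra hne
  have h2 : rk (supp (cl (co phi i0) S bg.h lam G)) < Module.finrank ℤ (Ker (co phi i0)) := by
    omega
  obtain ⟨mu, hmu, hk⟩ := hKmu (Ker (co phi i0)) _ h2
  let nu : L →+ ℤ := mu.comp (prj (co phi i0) S bg.h)
  have hnK : ∀ b : Ker (co phi i0), nu (b : L) = mu b := by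
    intro b
    change mu (prj (co phi i0) S bg.h (b : L)) = mu b
    congr 1
    apply Subtype.ext
    rw [prj_coe, show co phi i0 (b : L) = 0 from b.2, zero_smul, sub_zero]
  have hnS : nu S = 0 := by
    change mu (prj (co phi i0) S bg.h S) = 0
    have h3 : prj (co phi i0) S bg.h S = 0 := by
      apply Subtype.ext
      rw [prj_coe, bg.h, one_smul, sub_self]
      rfl
    rw [h3, map_zero]
  have h3 := bg.free hle hS0 nu hnS fun b hb => by rw [hnK]; exact hk b hb
  apply hmu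
  have h4 : nu = 0 := by
    ext x
    obtain ⟨n, hn, hn1⟩ := Pool.Agent.B5.H61.full_index (⊤ : Submodule ℤ L) (supp G)
      (fun _ _ => Submodule.mem_top) (by rw [finrank_top]; exact hG.spn) x Submodule.mem_top
    have h5 : Submodule.span ℤ (supp G) ≤ LinearMap.ker nu.toIntLinearMap :=
      Submodule.span_le.mpr h3
    have h6 : nu (n • x) = 0 := h5 hn1
    rw [map_zsmul, smul_eq_mul] at h6
    exact (mul_eq_zero.mp h6).resolve_left hn
  ext b
  rw [← hnK, h4]
  rfl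

/-- The rank of a set in the span of two elements. -/
theorem rk_two (hRk : RkS) {M : Type} [AddCommGroup M] [Module.Free ℤ M] [Module.Finite ℤ M]
    {T : Set M} (x y : M) (hT : ∀ a ∈ T, ∃ m n : ℤ, a = m • x + n • y) : rk T ≤ 2 := by
  obtain ⟨-, -, -, -, -, h6, h7, h8, h9, -⟩ := hRk M M
  have one : ∀ b : M, rk ({b} : Set M) ≤ 1 := by
    intro b
    by_cases hb : b = 0
    · have h10 := h8 (∅ : Set M)
      have h11 : rk (∅ : Set M) ≤ 1 := by
        unfold rk
        rw [Submodule.span_empty, finrank_bot]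
        exact zero_le_one
      have h13 : ({b} : Set M) = insert 0 (∅ : Set M) := by rw [hb]; simp
      rw [h13, h10]
      exact h11
    · rw [h7 b hb]
  have h10 : rk T ≤ rk ({x} ∪ {y} : Set M) := by
    apply h9
    intro a ha
    obtain ⟨m, n, h⟩ := hT a ha
    refine ⟨1, one_ne_zero, ?_⟩
    rw [one_smul, h]
    apply Submodule.add_mem
    · exact Submodule.smul_mem _ _ (Submodule.subset_span (Or.inl rfl))
    · exact Submodule.smul_mem _ _ (Submodule.subset_span (Or.inr rfl))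
  have h11 := h6 ({x} : Set M) ({y} : Set M)
  have h12 := one x
  have h13 := one y
  omega

/-- One factor. -/
theorem Bg.one (hMin : MinS) (hC0 : Coeff0S) (hWWf : WWfS) (hG0S : G0S) (hRk : RkS)
    (bg : Bg phi G S r1 r2 e0 e1 e2 lam i0 p1 p2) {c : RO O} {n : ℕ}
    {F : Fin n → AO O (Ker (co phi i0))} (fd : FD phi G S i0 lam bg.h c n F) (hI : ImS phi S)
    (hle : lam ≠ e0) (hr : 4 ≤ Module.finrank ℤ L)
    (hdf : Module.finrank ℤ L = rk (supp (cl (co phi i0) S bg.h lam G)) + 1) : n = 1 := by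
  classical
  have hG : DD phi G := fd.cc.dd
  have hS0 : G.coeff S ≠ 0 := fd.cc.ray.1
  have hG00 : G.coeff 0 ≠ 0 := hG.st.1
  obtain ⟨R1, hR1⟩ : ∃ R1 : Ker (co phi i0), (R1 : L) = r1 := ⟨⟨r1, bg.h1⟩, rfl⟩
  obtain ⟨R2, hR2⟩ : ∃ R2 : Ker (co phi i0), (R2 : L) = r2 := ⟨⟨r2, bg.h2⟩, rfl⟩
  obtain ⟨q1, hq1⟩ : ∃ q : Ker (co phi i0) →+ ℤ, q = p1.comp (incl (Ker (co phi i0))) := ⟨_, rfl⟩
  obtain ⟨q2, hq2⟩ : ∃ q : Ker (co phi i0) →+ ℤ, q = p2.comp (incl (Ker (co phi i0))) := ⟨_, rfl⟩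
  have hq1a : ∀ a : Ker (co phi i0), q1 a = p1 (a : L) := fun a => by rw [hq1]; rfl
  have hq2a : ∀ a : Ker (co phi i0), q2 a = p2 (a : L) := fun a => by rw [hq2]; rfl
  have hHst : ∀ s t : ℤ, bg.H s t = pc q1 q2 s t (cl (co phi i0) S bg.h lam G) := by
    intro s t
    rw [hq1, hq2]
    rfl
  -- constant coefficients
  obtain ⟨l0, hl0⟩ : ∃ l0 : Ker (co phi i0) →+ ℤ, Pos l0 (cl (co phi i0) S bg.h lam G) := by
    obtain ⟨-, -, l, h0, h1⟩ := fd.cc.ray
    obtain ⟨-, -, -, -, -, h2⟩ := hG0S O P L phi G S i0 lam bg.h fd.cc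
    exact ⟨_, h2 l h0 h1⟩
  have hF0 : ∀ i, (F i).coeff 0 ≠ 0 := fun i => (fd.full i l0 hl0).1
  have hprod := fun s : Finset (Fin n) =>
    Dcm.pos_prod hC0 l0 F (fun i => (fd.full i l0 hl0).2.1) hF0 s
  have hH0 : (cl (co phi i0) S bg.h lam G).coeff 0 ≠ 0 := by
    rw [fd.eq]
    exact (Dcm.cst_pos hC0 l0 c fd.c0 _ (hprod Finset.univ).1 (hprod Finset.univ).2).2
  -- the factor of `R1`
  obtain ⟨i1, a1, ha1, hqa⟩ : ∃ i, ∃ a ∈ supp (F i), q1 a ≠ 0 := by
    by_contra hcon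
    push Not at hcon
    have h1 := deg0_mul q1 (deg0_cst q1 c) (deg0_prod q1 F Finset.univ fun i _ => hcon i)
    have h2 : R1 ∈ supp (cst c * ∏ i, F i) := by
      rw [← fd.eq]
      exact bg.r1H hle hS0 R1 hR1
    have h3 := h1 R1 h2
    rw [hq1a, hR1, bg.p11] at h3
    exact one_ne_zero h3
  obtain ⟨f, hf⟩ : ∃ f, f = F i1 := ⟨_, rfl⟩
  obtain ⟨Q, hQ⟩ : ∃ Q, Q = cst c * ∏ i ∈ Finset.univ.erase i1, F i := ⟨_, rfl⟩
  have hHQ : cl (co phi i0) S bg.h lam G = f * Q := by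
    rw [fd.eq, ← Finset.mul_prod_erase Finset.univ F (Finset.mem_univ i1), hf, hQ]
    ring
  have hf0 : f.coeff 0 ≠ 0 := by rw [hf]; exact hF0 i1
  have hQ0 : Q.coeff 0 ≠ 0 := by
    rw [hQ]
    exact (Dcm.cst_pos hC0 l0 c fd.c0 _ (hprod _).1 (hprod _).2).2
  have hb1 := bd_fac hMin hHQ hf0 hQ0 q1 fun a ha => by rw [hq1a]; exact (bg.deg a ha).1
  have hb2 := bd_fac hMin hHQ hf0 hQ0 q2 fun a ha => by rw [hq2a]; exact (bg.deg a ha).2
  have ha1f : a1 ∈ supp f := by rw [hf]; exact ha1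
  have hqa1 : q1 a1 = 1 := (hb1.1 a1 ha1f).resolve_left hqa
  have hQ1 : ∀ b ∈ supp Q, q1 b = 0 := hb1.2.2 ⟨a1, ha1f, hqa1⟩
  have hff : Irreducible f := by rw [hf]; exact fd.irr i1
  by_contra hn1
  -- the exponents of the closing are not all of width zero
  by_cases hA : ∃ a ∈ supp f, q2 a = 1
  · -- both degrees in the same factor
    have hQ2 : ∀ b ∈ supp Q, q2 b = 0 := hb2.2.2 hA
    obtain ⟨i2, hi2⟩ : ∃ i2, i2 ≠ i1 := by
      by_contra hcon
      push Not at hcon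
      apply hn1
      have h1 : Fintype.card (Fin n) = 1 :=
        Fintype.card_eq_one_iff.2 ⟨i1, hcon⟩
      rwa [Fintype.card_fin] at h1
    have hdQ : F i2 ∣ Q := by
      rw [hQ]
      exact (Finset.dvd_prod_of_mem F (Finset.mem_erase.2 ⟨hi2, Finset.mem_univ _⟩)).mul_left _
    have hd : ∀ s t : ℤ, F i2 ∣ cst 1 * bg.H s t := by
      intro s t
      rw [hHst, hHQ, mul_comm f Q, pc_mul fun a ha => ⟨hQ1 a ha, hQ2 a ha⟩]
      exact (hdQ.mul_right _).mul_left _
    have h1 := bg.mono hMin hle hG.irr hG.inj hG00 hS0 one_ne_zero (hd 0 0) (hd 1 0) (hd 0 1)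
      (hd 1 1)
    obtain ⟨a, ha, b, hb, hab⟩ := fd.wd i2
    exact hab (h1 a ha b hb)
  · -- the degrees in different factors
    have hf2 : ∀ a ∈ supp f, q2 a = 0 := fun a ha => (hb2.1 a ha).resolve_right fun h => hA ⟨a, ha, h⟩
    obtain ⟨F0, hF0e⟩ : ∃ X, X = pc q1 q2 0 0 f := ⟨_, rfl⟩
    obtain ⟨F1, hF1e⟩ : ∃ X, X = pc q1 q2 1 0 f := ⟨_, rfl⟩
    obtain ⟨Q0, hQ0e⟩ : ∃ X, X = pc q1 q2 0 0 Q := ⟨_, rfl⟩
    obtain ⟨Q1, hQ1e⟩ : ∃ X, X = pc q1 q2 0 1 Q := ⟨_, rfl⟩
    have hfs : f = F0 + F1 := by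
      rw [hF0e, hF1e]
      refine two_pc (by norm_num) fun a ha => ?_
      rcases hb1.1 a ha with h | h
      · exact Or.inl ⟨h, hf2 a ha⟩
      · exact Or.inr ⟨h, hf2 a ha⟩
    have hQs : Q = Q0 + Q1 := by
      rw [hQ0e, hQ1e]
      refine two_pc (by norm_num) fun a ha => ?_
      rcases hb2.2.1 a ha with h | h
      · exact Or.inl ⟨hQ1 a ha, h⟩
      · exact Or.inr ⟨hQ1 a ha, h⟩
    have bF0 : Bh q1 q2 0 0 F0 := by rw [hF0e]; exact bh_pc _ _ _ _ _
    have bF1 : Bh q1 q2 1 0 F1 := by rw [hF1e]; exact bh_pc _ _ _ _ _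
    have bQ0 : Bh q1 q2 0 0 Q0 := by rw [hQ0e]; exact bh_pc _ _ _ _ _
    have bQ1 : Bh q1 q2 0 1 Q1 := by rw [hQ1e]; exact bh_pc _ _ _ _ _
    have b00 : Bh q1 q2 0 0 (F0 * Q0) := bh_mul bF0 bQ0
    have b01 : Bh q1 q2 0 1 (F0 * Q1) := bh_mul bF0 bQ1
    have b10 : Bh q1 q2 1 0 (F1 * Q0) := bh_mul bF1 bQ0
    have b11 : Bh q1 q2 1 1 (F1 * Q1) := bh_mul bF1 bQ1
    have hexp : cl (co phi i0) S bg.h lam G = F0 * Q0 + F0 * Q1 + F1 * Q0 + F1 * Q1 := by
      rw [hHQ, hfs, hQs]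
      ring
    have e00 : bg.H 0 0 = F0 * Q0 := by
      rw [hHst, hexp, pcg_add, pcg_add, pcg_add, pc_same b00, pc_other b01 (by norm_num),
        pc_other b10 (by norm_num), pc_other b11 (by norm_num)]
      ring
    have e10 : bg.H 1 0 = F1 * Q0 := by
      rw [hHst, hexp, pcg_add, pcg_add, pcg_add, pc_same b10, pc_other b01 (by norm_num),
        pc_other b00 (by norm_num), pc_other b11 (by norm_num)]
      ring
    have e01 : bg.H 0 1 = F0 * Q1 := by
      rw [hHst, hexp, pcg_add, pcg_add, pcg_add, pc_same b01, pc_other b00 (by norm_num),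
        pc_other b10 (by norm_num), pc_other b11 (by norm_num)]
      ring
    have e11 : bg.H 1 1 = F1 * Q1 := by
      rw [hHst, hexp, pcg_add, pcg_add, pcg_add, pc_same b11, pc_other b01 (by norm_num),
        pc_other b10 (by norm_num), pc_other b00 (by norm_num)]
      ring
    have hrel := bg.rel R1 R2 hR1 hR2
    rw [e10, e01] at hrel
    have hufd : UniqueFactorizationMonoid (AO O (Ker (co phi i0))) :=
      H25.Bch.ufdL O (Ker (co phi i0))
    have c0 : F0.coeff 0 ≠ 0 := by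
      rw [hF0e, pc_in _ ⟨map_zero _, map_zero _⟩]
      exact hf0
    have d0 : Q0.coeff 0 ≠ 0 := by
      rw [hQ0e, pc_in _ ⟨map_zero _, map_zero _⟩]
      exact hQ0
    have c1 : F1.coeff a1 ≠ 0 := by
      rw [hF1e, pc_in _ ⟨hqa1, hf2 a1 ha1f⟩]
      exact ha1f
    have hF0n : F0 ≠ 0 := ne_of_co c0
    have hQ0n : Q0 ≠ 0 := ne_of_co d0
    have hF1n : F1 ≠ 0 := ne_of_co c1
    have hcop : IsRelPrime F0 F1 := by
      intro z hz1 hz2
      have h1 : z ∣ f := by rw [hfs]; exact dvd_add hz1 hz2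
      rcases hff.dvd_iff.1 h1 with h2 | h2
      · exact h2
      · exfalso
        have h3 : f ∣ F0 := h2.dvd.trans hz1
        have h4 := width_dvd hMin q1 h3 hF0n (fun a ha => (bF0 a ha).1) 0 hf0 a1 ha1f
        rw [map_zero, hqa1] at h4
        exact zero_ne_one h4
    have hu1 : IsUnit (single (-R1) (e1 : RO O) : AO O (Ker (co phi i0))) := by
      refine IsUnit.of_mul_eq_one (single R1 ((e1⁻¹ : (RO O)ˣ) : RO O)) ?_
      rw [single_mul_single, neg_add_cancel, Units.mul_inv]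
      rfl
    have hu2 : IsUnit (single (-R2) (e2 : RO O) : AO O (Ker (co phi i0))) := by
      refine IsUnit.of_mul_eq_one (single R2 ((e2⁻¹ : (RO O)ˣ) : RO O)) ?_
      rw [single_mul_single, neg_add_cancel, Units.mul_inv]
      rfl
    have hdv0 : F0 ∣ Q0 := by
      have h1 : F0 ∣ single (-R1) (e1 : RO O) * (F1 * Q0) := by
        rw [hrel]
        exact (Dvd.intro _ rfl).mul_left _
      have h2 : F0 ∣ F1 * Q0 := hu1.dvd_mul_left.1 h1
      exact hcop.dvd_of_dvd_mul_left h2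
    have hdv1 : F1 ∣ Q1 := by
      have h1 : F1 ∣ single (-R2) (e2 : RO O) * (F0 * Q1) := by
        rw [← hrel]
        exact (Dvd.intro _ rfl).mul_left _
      have h2 : F1 ∣ F0 * Q1 := hu2.dvd_mul_left.1 h1
      exact hcop.symm.dvd_of_dvd_mul_left h2
    have hww := (hG0S O P L phi G S i0 lam bg.h fd.cc).2.2.2.1
    have hW := hWWf O P (Ker (co phi i0)) (phK phi (co phi i0)) (II phi S i0) (OO phi S) f Q
      (fun a ha => hww a (by rw [hHQ]; exact ha)) hf0 hQ0
    have hsF0 : ∀ a ∈ supp F0, a ∈ supp f := by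
      intro a ha
      rw [hF0e] at ha
      exact (pc_supp ha).2
    have hsF1 : ∀ a ∈ supp F1, a ∈ supp f := by
      intro a ha
      rw [hF1e] at ha
      exact (pc_supp ha).2
    have hsQ0 : ∀ a ∈ supp Q0, a ∈ supp Q := by
      intro a ha
      rw [hQ0e] at ha
      exact (pc_supp ha).2
    have hsQ1 : ∀ a ∈ supp Q1, a ∈ supp Q := by
      intro a ha
      rw [hQ1e] at ha
      exact (pc_supp ha).2
    have hQ1n : Q1 ≠ 0 := by
      intro h0
      have h1 : F0 ∣ single (-R1) (e1 : RO O) * (F1 * Q0) := by rw [hrel]; exact (Dvd.intro _ rfl).mul_left _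
      rw [h0, mul_zero, mul_zero] at hrel
      have h2 : F1 * Q0 = 0 := (hu1.mul_right_eq_zero).1 hrel
      exact (mul_ne_zero hF1n hQ0n) h2
    have hg : ∀ (j : P) (a : Ker (co phi i0)),
        ((co phi j).comp (incl (Ker (co phi i0)))) a = phi (a : L) j := fun _ _ => rfl
    have s0 : ∀ a ∈ supp F0, a = 0 := by
      intro a ha
      apply BP57.key_imO hI bg.h
      intro j hj
      have hjO : j ∈ OO phi S := by
        unfold OO
        exact Finset.mem_filter.mpr ⟨Finset.mem_univ j, hj⟩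
      rcases hW.2 j hjO with h | h
      · exact h a (hsF0 a ha)
      · have h1 := width_dvd hMin ((co phi j).comp (incl (Ker (co phi i0)))) hdv0 hQ0n
          (fun b hb => h b (hsQ0 b hb)) a ha 0 c0
        rw [map_zero] at h1
        exact h1
    have s1 : ∀ a ∈ supp F1, a = a1 := by
      intro a ha
      rw [← sub_eq_zero]
      apply BP57.key_imO hI bg.h
      intro j hj
      have hjO : j ∈ OO phi S := by
        unfold OO
        exact Finset.mem_filter.mpr ⟨Finset.mem_univ j, hj⟩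
      have hcoe : ((a - a1 : Ker (co phi i0)) : L) = (a : L) - (a1 : L) := rfl
      rw [hcoe, map_sub, Pi.sub_apply, sub_eq_zero]
      rcases hW.2 j hjO with h | h
      · have h1 : phi (a : L) j = 0 := h a (hsF1 a ha)
        have h2 : phi (a1 : L) j = 0 := h a1 ha1f
        rw [h1, h2]
      · exact width_dvd hMin ((co phi j).comp (incl (Ker (co phi i0)))) hdv1 hQ1n
          (fun b hb => h b (hsQ1 b hb)) a ha a1 c1
    have hF0m : F0 = cst (F0.coeff 0) := by
      apply aext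
      intro a
      unfold cst
      rw [AddMonoidAlgebra.coeff_single, Finsupp.single_apply]
      by_cases h : (0 : Ker (co phi i0)) = a
      · rw [if_pos h, ← h]
      · rw [if_neg h]
        by_contra h1
        exact h (s0 a h1).symm
    have hF1m : F1 = single a1 (F1.coeff a1) := by
      apply aext
      intro a
      rw [AddMonoidAlgebra.coeff_single, Finsupp.single_apply]
      by_cases h : a1 = a
      · rw [if_pos h, ← h]
      · rw [if_neg h]
        by_contra h1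
        exact h (s1 a h1).symm
    obtain ⟨al, hal⟩ : ∃ al, al = F0.coeff 0 := ⟨_, rfl⟩
    obtain ⟨be, hbe⟩ : ∃ be, be = F1.coeff a1 := ⟨_, rfl⟩
    rw [← hal] at hF0m c0
    rw [← hbe] at hF1m c1
    -- `Q1` is a multiple of `Q0`
    have hq01 : cst al * Q1 = single (a1 - R1 + R2) (be * (e1 : RO O) * ((e2⁻¹ : (RO O)ˣ) : RO O)) * Q0 := by
      have h1 : single R2 ((e2⁻¹ : (RO O)ˣ) : RO O) * (single (-R1) (e1 : RO O) * (F1 * Q0)) =
          single R2 ((e2⁻¹ : (RO O)ˣ) : RO O) * (single (-R2) (e2 : RO O) * (F0 * Q1)) := by rw [hrel]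
      have h2 : single R2 ((e2⁻¹ : (RO O)ˣ) : RO O) * (single (-R2) (e2 : RO O) * (F0 * Q1)) =
          cst al * Q1 := by
        rw [← mul_assoc, single_mul_single, add_neg_cancel, Units.inv_mul, hF0m]
        change (1 : AO O (Ker (co phi i0))) * _ = _
        rw [one_mul]
      rw [← h2, ← h1, hF1m, ← mul_assoc, ← mul_assoc, single_mul_single, single_mul_single]
      congr 2
      · abel
      · ring
    have hdd : ∀ s t : ℤ, (s = 0 ∧ t = 0) ∨ (s = 1 ∧ t = 0) ∨ (s = 0 ∧ t = 1) ∨ (s = 1 ∧ t = 1) →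
        Q0 ∣ cst al * bg.H s t := by
      rintro s t (⟨rfl, rfl⟩ | ⟨rfl, rfl⟩ | ⟨rfl, rfl⟩ | ⟨rfl, rfl⟩)
      · rw [e00]
        exact ((Dvd.intro_left _ rfl).mul_left _)
      · rw [e10]
        exact ((Dvd.intro_left _ rfl).mul_left _)
      · have h1 : cst al * bg.H 0 1 = F0 * (cst al * Q1) := by rw [e01]; ring
        rw [h1, hq01]
        exact ((Dvd.intro_left _ rfl).mul_left _)
      · have h1 : cst al * bg.H 1 1 = F1 * (cst al * Q1) := by rw [e11]; ring
        rw [h1, hq01]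
        exact ((Dvd.intro_left _ rfl).mul_left _)
    have hmono := bg.mono hMin hle hG.irr hG.inj hG00 hS0 c0 (hdd 0 0 (by simp)) (hdd 1 0 (by simp))
      (hdd 0 1 (by simp)) (hdd 1 1 (by simp))
    have t0 : ∀ a ∈ supp Q0, a = 0 := fun a ha => hmono a ha 0 d0
    have t1 : ∀ a ∈ supp Q1, a = a1 - R1 + R2 := by
      intro a ha
      have h1 : (cst al * Q1 : AO O (Ker (co phi i0))).coeff a ≠ 0 := by
        unfold cst
        rw [mon_mul_coeff, sub_zero]
        exact mul_ne_zero c0 ha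
      rw [hq01, mon_mul_coeff] at h1
      have h2 : Q0.coeff (a - (a1 - R1 + R2)) ≠ 0 := right_ne_zero_of_mul h1
      exact sub_eq_zero.1 (t0 _ h2)
    have hrk : rk (supp (cl (co phi i0) S bg.h lam G)) ≤ 2 := by
      apply rk_two hRk a1 (a1 - R1 + R2)
      intro x hx
      rw [hHQ] at hx
      obtain ⟨a, ha, b, hb, hab⟩ := Pool.Agent.B5.H74.supp_mul f Q x hx
      have ha' : a = 0 ∨ a = a1 := by
        have h1 : (F0 + F1).coeff a ≠ 0 := by rw [← hfs]; exact ha
        rw [coeff_add, Finsupp.add_apply] at h1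
        by_cases h2 : F0.coeff a = 0
        · rw [h2, zero_add] at h1
          exact Or.inr (s1 a h1)
        · exact Or.inl (s0 a h2)
      have hb' : b = 0 ∨ b = a1 - R1 + R2 := by
        have h1 : (Q0 + Q1).coeff b ≠ 0 := by rw [← hQs]; exact hb
        rw [coeff_add, Finsupp.add_apply] at h1
        by_cases h2 : Q0.coeff b = 0
        · rw [h2, zero_add] at h1
          exact Or.inr (t1 b h1)
        · exact Or.inl (t0 b h2)
      rw [← hab]
      rcases ha' with rfl | rfl <;> rcases hb' with rfl | rfl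
      · exact ⟨0, 0, by simp⟩
      · exact ⟨0, 1, by simp⟩
      · exact ⟨1, 0, by simp⟩
      · exact ⟨1, 1, by simp⟩
    omega

end

end Pool.Agent.B5.KO90
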