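import Pool.Agent.Lib.MP_b5021c_nt.KO.H90.I1c
import Pool.Agent.Lib.MP_b5021c_nt.IfaceEF
import Pool.Agent.Lib.MP_b5021c_nt.IfaceB

/-!
# MP_b5021c_nt, all `θ`, K odd, `l = 3`, ALPHA, row M1: a closing at `- e_i` which is homogeneous of
weight zero comes from a homogeneous element
-/

set_option linter.unusedSectionVars false

namespace Pool.Agent.B5.KO90

open scoped LaurentPolynomial
open AddMonoidAlgebra
open Pool.Agent.B5.H71 (em em_coeff em_coeff_not)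
open Pool.Agent.B5.KO.H40 (mon_mul_coeff)

/-- A coefficient of weight `n`. -/
def Wc (q n : ℤ) (c : RO ℤ) : Prop := ∀ k, c.coeff k ≠ 0 → q * k = n

theorem Wc.add {q n : ℤ} {c d : RO ℤ} (hc : Wc q n c) (hd : Wc q n d) : Wc q n (c + d) := by
  intro k hk
  rw [coeff_add, Finsupp.add_apply] at hk
  by_cases h : c.coeff k = 0
  · rw [h, zero_add] at hk
    exact hd k hk
  · exact hc k h

theorem Wc.neg {q n : ℤ} {c : RO ℤ} (hc : Wc q n c) : Wc q n (-c) := by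
  intro k hk
  apply hc k
  intro h
  apply hk
  rw [coeff_neg, Finsupp.neg_apply, h, neg_zero]

theorem Wc.sub {q n : ℤ} {c d : RO ℤ} (hc : Wc q n c) (hd : Wc q n d) : Wc q n (c - d) := by
  rw [sub_eq_add_neg]
  exact hc.add hd.neg

theorem Wc.mul {q n m : ℤ} {c d : RO ℤ} (hc : Wc q n c) (hd : Wc q m d) : Wc q (n + m) (c * d) := by
  classical
  intro k hk
  have h1 := AddMonoidAlgebra.support_coeff_mul_subset c d (Finsupp.mem_support_iff.2 hk)
  obtain ⟨a, ha, b, hb, hab⟩ := Finset.mem_add.1 h1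
  rw [← hab, mul_add, hc a (Finsupp.mem_support_iff.1 ha), hd b (Finsupp.mem_support_iff.1 hb)]

theorem wc_mono (q : ℤ) (s n : ℤ) : Wc q (q * n) (LaurentPolynomial.C s * LaurentPolynomial.T n) := by
  intro k hk
  by_cases h : k = n
  · rw [h]
  · exfalso
    apply hk
    have h1 := LaurentPolynomial.support_C_mul_T s n
    by_contra h2
    have h3 := h1 (Finsupp.mem_support_iff.2 h2)
    exact h (Finset.mem_singleton.1 h3)

theorem wc_one (q : ℤ) : Wc q 0 (1 : RO ℤ) := by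
  have h := wc_mono q 1 0
  rw [mul_zero, map_one, LaurentPolynomial.T_zero, mul_one] at h
  exact h

/-- A unit is a signed monomial. -/
theorem unit_mono (hU : UnitRS) (u : (RO ℤ)ˣ) : ∃ s n : ℤ, (s = 1 ∨ s = -1) ∧
    (u : RO ℤ) = LaurentPolynomial.C s * LaurentPolynomial.T n ∧
    ((u⁻¹ : (RO ℤ)ˣ) : RO ℤ) = LaurentPolynomial.C s * LaurentPolynomial.T (-n) := by
  obtain ⟨n, s, hs, h⟩ := (hU ℤ _).mp u.isUnit
  have hs1 : s = 1 ∨ s = -1 := Int.isUnit_iff.1 hs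
  refine ⟨s, n, hs1, h, ?_⟩
  apply Units.inv_eq_of_mul_eq_one_right
  rw [h]
  have h2 : (LaurentPolynomial.C s * LaurentPolynomial.T n : RO ℤ) *
      (LaurentPolynomial.C s * LaurentPolynomial.T (-n)) =
      LaurentPolynomial.C (s * s) * (LaurentPolynomial.T n * LaurentPolynomial.T (-n)) := by
    rw [map_mul]
    ring
  have h3 : s * s = 1 := by rcases hs1 with h1 | h1 <;> rw [h1] <;> norm_num
  rw [h2, h3, ← LaurentPolynomial.T_add, add_neg_cancel, LaurentPolynomial.T_zero, map_one, mul_one]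

section

variable {L : Type} [AddCommGroup L]

/-- Homogeneous of weight zero. -/
def Wz (q : ℤ) (l : L →+ ℤ) (X : AO ℤ L) : Prop := ∀ a, Wc q (l a) (X.coeff a)

theorem Wz.add {q : ℤ} {l : L →+ ℤ} {X Y : AO ℤ L} (hX : Wz q l X) (hY : Wz q l Y) :
    Wz q l (X + Y) := by
  intro a
  rw [coeff_add, Finsupp.add_apply]
  exact (hX a).add (hY a)

theorem Wz.sub {q : ℤ} {l : L →+ ℤ} {X Y : AO ℤ L} (hX : Wz q l X) (hY : Wz q l Y) :
    Wz q l (X - Y) := by
  intro a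
  rw [coeff_sub, Finsupp.sub_apply]
  exact (hX a).sub (hY a)

theorem Wz.mon {q : ℤ} {l : L →+ ℤ} {X : AO ℤ L} (hX : Wz q l X) {a : L} {c : RO ℤ} {n : ℤ}
    (hc : Wc q n c) (hn : n = l a) : Wz q l (single a c * X) := by
  intro b
  rw [mon_mul_coeff]
  have h1 := hc.mul (hX (b - a))
  have h2 : n + l (b - a) = l b := by rw [hn, map_sub]; ring
  rw [h2] at h1
  exact h1

theorem Wz.em {q : ℤ} {l : L →+ ℤ} {K : Submodule ℤ L} {X : AO ℤ K}
    (hX : Wz q (l.comp (incl K)) X) : Wz q l (em K X) := by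
  intro a
  by_cases ha : a ∈ K
  · have h1 := em_coeff K X ⟨a, ha⟩
    have h2 : (Pool.Agent.B5.H71.em K X).coeff a = X.coeff ⟨a, ha⟩ := h1
    rw [h2]
    exact hX ⟨a, ha⟩
  · rw [em_coeff_not _ _ a ha]
    intro k hk
    exact absurd rfl hk

theorem Wz.pc {M : Type} [AddCommGroup M] {q : ℤ} {l : M →+ ℤ} {X : AO ℤ M} (hX : Wz q l X)
    (p1 p2 : M →+ ℤ) (s t : ℤ) : Wz q l (pc p1 p2 s t X) := by
  intro a
  by_cases h : p1 a = s ∧ p2 a = t
  · rw [pc_in _ h]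
    exact hX a
  · rw [pc_out _ h]
    intro k hk
    exact absurd rfl hk

end

section

variable {P : Type} [Fintype P] [DecidableEq P] {L : Type} [AddCommGroup L] [Module.Free ℤ L]
  [Module.Finite ℤ L] {phi : L →+ (P → ℤ)} {G : AO ℤ L} {S r1 r2 : L} {e0 e1 e2 lam : (RO ℤ)ˣ}
  {i0 : P} {p1 p2 : L →+ ℤ}

/-- `G` is homogeneous if its closing at `- e0` is. -/
theorem Bg.wz (hU : UnitRS) (bg : Bg phi G S r1 r2 e0 e1 e2 lam i0 p1 p2)
    (hlam : (lam : RO ℤ) = -(e0 : RO ℤ)) {q : ℤ} {l : Ker (co phi i0) →+ ℤ}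
    (hH : Wz q l (cl (co phi i0) S bg.h lam G))
    {n0 : ℤ} (h0 : Wc q n0 ((e0⁻¹ : (RO ℤ)ˣ) : RO ℤ)) (R1 R2 : Ker (co phi i0))
    (hR1 : (R1 : L) = r1) (hR2 : (R2 : L) = r2) (w1 : Wc q (-(l R1)) (e1 : RO ℤ))
    (w2 : Wc q (l R2) ((e2⁻¹ : (RO ℤ)ˣ) : RO ℤ)) :
    ∃ l' : L →+ ℤ, Wz q l' G := by
  obtain ⟨l', hl'⟩ : ∃ l' : L →+ ℤ, l' = l.comp (prj (co phi i0) S bg.h) + n0 • (co phi i0) :=
    ⟨_, rfl⟩
  have hlb : ∀ b : L, l' b = l (prj (co phi i0) S bg.h b) + n0 * co phi i0 b := by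
    intro b
    rw [hl']
    rfl
  have hK : ∀ b : Ker (co phi i0), l' (b : L) = l b := by
    intro b
    have h1 : prj (co phi i0) S bg.h (b : L) = b := by
      apply Subtype.ext
      rw [prj_coe, show co phi i0 (b : L) = 0 from b.2, zero_smul, sub_zero]
    rw [hlb, h1, show co phi i0 (b : L) = 0 from b.2, mul_zero, add_zero]
  have hS : l' S = n0 := by
    have h1 : prj (co phi i0) S bg.h S = 0 := by
      apply Subtype.ext
      rw [prj_coe, bg.h, one_smul, sub_self]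
      rfl
    rw [hlb, h1, map_zero, bg.h, mul_one, zero_add]
  have hr1 : l' r1 = l R1 := by rw [← hR1, hK]
  have hr2 : l' r2 = l R2 := by rw [← hR2, hK]
  refine ⟨l', ?_⟩
  have hcomp : l'.comp (incl (Ker (co phi i0))) = l := by
    ext b
    exact hK b
  have hE : ∀ s t : ℤ, Wz q l' (bg.E s t) := by
    intro s t
    rw [bg.E_eq]
    apply Wz.em
    rw [hcomp]
    exact hH.pc _ _ s t
  have hth : (lam : RO ℤ) * ((e0⁻¹ : (RO ℤ)ˣ) : RO ℤ) = -1 := by
    rw [hlam, neg_mul, Units.mul_inv]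
  have hli : ((lam⁻¹ : (RO ℤ)ˣ) : RO ℤ) = -((e0⁻¹ : (RO ℤ)ˣ) : RO ℤ) := by
    apply Units.inv_eq_of_mul_eq_one_right
    rw [hlam, neg_mul_neg, Units.mul_inv]
  have hm := bg.main
  rw [hth, hli] at hm
  have w1' : Wc q 0 (1 : RO ℤ) := wc_one q
  have wm : Wc q 0 (-1 : RO ℤ) := w1'.neg
  have wp : Wc q 0 (1 - -1 : RO ℤ) := w1'.sub wm
  have hA := (hE 1 0).add (hE 0 1)
  have t1 := (hA.sub (hA.mon (a := S) h0 hS.symm)).add
    ((hE 0 0).mon (a := 0) wp (map_zero l').symm)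
  have t2 := (t1.sub ((hE 1 0).mon (a := -r1) (wm.mul w1) (by rw [map_neg, hr1, zero_add]))).add
    ((hE 1 0).mon (a := S - r1) (h0.mul w1) (by rw [map_sub, hS, hr1, sub_eq_add_neg]))
  have t3 := ((t2.sub ((hE 1 0).mon (a := r2) w2 hr2.symm)).add
    ((hE 1 1).mon (a := S) (h0.neg.mul wp) (by rw [hS, add_zero]))).add
    ((hE 1 0).mon (a := S + r2) (h0.neg.mul w2) (by rw [map_add, hS, hr2]))
  have h2 : Wz q l' (cst (1 - -1 : RO ℤ) * G) := by
    rw [hm]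
    exact t3
  intro a k hk
  apply h2 a k
  unfold cst
  rw [mon_mul_coeff, sub_zero]
  have h3 : (1 - -1 : RO ℤ) * G.coeff a = G.coeff a + G.coeff a := by ring
  rw [h3, coeff_add, Finsupp.add_apply]
  intro h4
  apply hk
  omega

end

end Pool.Agent.B5.KO90
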