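import Pool.Agent.Lib.MP_b5021c_nt.KO.H90.M1a
import Pool.Agent.Lib.MP_b5021c_nt.KO.H90.M1b
import Pool.Agent.Lib.MP_b5021c_nt.IfaceKV
import Pool.Agent.Lib.MP_b5021c_nt.IfaceKE
import Pool.Agent.Lib.MP_b5021c_nt.BP.H57.Bv2
import Pool.Agent.Lib.MP_b5021c_nt.KO.H57.T2w

/-!
# MP_b5021c_nt, all `θ`, K odd, `l = 3`, ALPHA, row M1: the lowest coefficient of a closed triple
-/

set_option linter.unusedSectionVars false

namespace Pool.Agent.B5.KO90

open scoped LaurentPolynomial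
open Polynomial
open Pool.Agent.B5.KO.H71 (Tri Fr z3a z3b z3c z3d z3e z3f z3g z3v z3h)
open Pool.Agent.B5.H40 (exists_normal)
open Pool.Agent.B5.BP57 (zf_of_unit ray_poly one_of_zf embZ)
open Pool.Agent.B5.KO57 (ImT im_one tri_mut)

theorem pol_cancel {V W : ℤ[X]} {a b : ℤ} (ha : a ≠ 0) (h : C a * V = C b * W) :
    C (W.coeff 0) * V = C (V.coeff 0) * W := by
  have h0 : a * V.coeff 0 = b * W.coeff 0 := by
    have h1 := congrArg (fun p : ℤ[X] => p.coeff 0) h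
    simp only [coeff_C_mul] at h1
    exact h1
  have hCa : (C a : ℤ[X]) ≠ 0 := by
    rw [Ne, C_eq_zero]
    exact ha
  apply mul_left_cancel₀ hCa
  calc C a * (C (W.coeff 0) * V) = C (W.coeff 0) * (C a * V) := by ring
    _ = C (b * W.coeff 0) * W := by rw [h, map_mul]; ring
    _ = C a * (C (V.coeff 0) * W) := by rw [← h0, map_mul]; ring

section

variable {L : Type} [AddCommGroup L]

/-- A coefficient of a z-free element is a monomial. -/
theorem mono_of_zf {F : AO ℤ L} {q : ℕ} {l : L →+ ℤ} {n : ℤ} (hq : 0 < q)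
    (h : ∀ (a : L) (k : ℤ), (F.coeff a).coeff k ≠ 0 → (q : ℤ) * k = l a + (q : ℤ) * n) (a : L)
    (ha : F.coeff a ≠ 0) : ∃ κ m : ℤ, κ ≠ 0 ∧ (q : ℤ) * m = l a + (q : ℤ) * n ∧
      F.coeff a = LaurentPolynomial.C κ * LaurentPolynomial.T m := by
  obtain ⟨m, hm⟩ : ∃ m, (F.coeff a).coeff m ≠ 0 := by
    by_contra hcon
    push Not at hcon
    apply ha
    exact AddMonoidAlgebra.ext (Finsupp.ext hcon)
  refine ⟨(F.coeff a).coeff m, m, hm, h a m hm, ?_⟩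
  apply AddMonoidAlgebra.ext
  apply Finsupp.ext
  intro k
  rw [← LaurentPolynomial.single_eq_C_mul_T, AddMonoidAlgebra.coeff_single, Finsupp.single_apply]
  by_cases hk : m = k
  · rw [if_pos hk, hk]
  · rw [if_neg hk]
    by_contra h1
    apply hk
    have h2 := h a k h1
    have h3 := h a m hm
    have h4 : (q : ℤ) ≠ 0 := by exact_mod_cast hq.ne'
    exact mul_left_cancel₀ h4 (h3.trans h2.symm)

end

section

variable {P : Type} [Fintype P] [DecidableEq P] {L : Type} [AddCommGroup L] [Module.Free ℤ L]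
  [Module.Finite ℤ L] {phi : L →+ (P → ℤ)} {G : AO ℤ L} {r : ZMod 3 → L} {e : ZMod 3 → (RO ℤ)ˣ}
  {mu : ZMod 3 → L →+ ℤ}

/-- The closing at the load which cancels the lowest coefficient is extremal. -/
theorem m1_core (hF1 : F1S) (hMin : MinS) (hC0 : Coeff0S) (hW : WWfS) (hG0 : G0S) (hRk : RkS)
    (hKm : KmuS) (hFD : FDS) (hE1 : E1S) (hMV : MVS) (hSm : SmallS) (hEvz : EvzS) (hKvx : KvxS)
    (T : Tri phi G r e mu) (hD : DD phi G) (hray : ∀ i, Ray G (r i)) (him : ImT phi r) {N : ℕ}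
    (hN : 3 ≤ N) (hr : Module.finrank ℤ L + 1 = 2 * N) {p g : ℤ[X]}
    (hp : G.coeff 0 = toLaurent p) (hp0 : p.coeff 0 = N) {m : ℤ}
    (hg : (e 0 : RO ℤ) * G.coeff (r 0) = -(LaurentPolynomial.T m * toLaurent g))
    (hlt : ∀ z : ℂ, ‖z‖ < 1 → ‖(g.map (Coef.emb : ℤ →+* ℂ)).eval z‖ <
        ‖(p.map (Coef.emb : ℤ →+* ℂ)).eval z‖) {s : ℤ} (hs : s = 1 ∨ s = -1)
    (hsg : 1 ≤ s * g.coeff 0) (la : (RO ℤ)ˣ)
    (hla : (la : RO ℤ) = LaurentPolynomial.C s * LaurentPolynomial.T (-m)) (hla1 : la ≠ 1) (i0 : P)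
    (h : co phi i0 (r 0) = 1) :
    s * g.coeff 0 = 1 ∧ ∃ (c : RO ℤ) (F : AO ℤ (Ker (co phi i0))),
      cl (co phi i0) (r 0) h (la * e 0) G = cst c * F ∧ ZFree F := by
  have hsn : ‖(Coef.emb s : ℂ)‖ = 1 := by
    rw [embZ, Complex.norm_intCast]
    rcases hs with h1 | h1 <;> rw [h1] <;> norm_num
  have hle : la * e 0 ≠ e 0 := by
    intro h1
    exact hla1 (mul_eq_right.1 h1)
  have hV0 : G.coeff 0 + ((la * e 0 : (RO ℤ)ˣ) : RO ℤ) * G.coeff (r 0) =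
      toLaurent (p - C s * g) := by
    have h1 : (LaurentPolynomial.T (-m) : RO ℤ) * LaurentPolynomial.T m = 1 := by
      rw [← LaurentPolynomial.T_add, neg_add_cancel, LaurentPolynomial.T_zero]
    rw [Units.val_mul, mul_assoc, hg, hla, hp, map_sub, map_mul, toLaurent_C]
    linear_combination (-(LaurentPolynomial.C s * toLaurent g : RO ℤ)) * h1
  have hg0N : s * g.coeff 0 < N := by
    have h1 := hlt 0 (by simp)
    rw [← coeff_zero_eq_eval_zero, ← coeff_zero_eq_eval_zero, coeff_map, coeff_map, hp0, embZ,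
      embZ, Complex.norm_intCast, Complex.norm_intCast] at h1
    have h2 : |g.coeff 0| < (N : ℤ) := by
      have h3 : |((N : ℤ) : ℝ)| = ((N : ℤ) : ℝ) := abs_of_nonneg (by positivity)
      rw [h3] at h1
      exact_mod_cast h1
    have h3 : s * g.coeff 0 ≤ |g.coeff 0| := by
      rcases hs with h4 | h4 <;> rw [h4]
      · rw [one_mul]; exact le_abs_self _
      · rw [neg_one_mul]; exact neg_le_abs _
    linarith
  have hVc : (p - C s * g).coeff 0 = N - s * g.coeff 0 := by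
    rw [coeff_sub, coeff_C_mul, hp0]
  have hVz : ∀ z : ℂ, ‖z‖ < 1 → ((p - C s * g).map (Coef.emb : ℤ →+* ℂ)).eval z ≠ 0 := by
    intro z hz h0
    rw [Polynomial.map_sub, Polynomial.map_mul, map_C, eval_sub, eval_mul, eval_C, sub_eq_zero] at h0
    have h2 := hlt z hz
    rw [h0, norm_mul, hsn, one_mul] at h2
    exact lt_irrefl _ h2
  have hcv : ClassV ((N : ℝ) - ((s * g.coeff 0 : ℤ) : ℝ))
      (G.coeff 0 + ((la * e 0 : (RO ℤ)ˣ) : RO ℤ) * G.coeff (r 0)) := by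
    have h1 : (s * g.coeff 0 : ℤ) + 1 ≤ N := by omega
    have h2 : (((s * g.coeff 0 : ℤ) : ℝ)) + 1 ≤ N := by exact_mod_cast h1
    refine ⟨by linarith, 0, p - C s * g, ?_, ?_, hVz⟩
    · rw [LaurentPolynomial.T_zero, one_mul, hV0]
    · rw [hVc, embZ, Complex.norm_intCast]
      push_cast
      rw [abs_of_nonneg]
      push_cast at h2
      linarith
  have hv0 : G.coeff 0 + ((la * e 0 : (RO ℤ)ˣ) : RO ℤ) * G.coeff (r 0) ≠ 0 := by
    rw [hV0]
    intro h1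
    have h2 : p - C s * g = 0 := by
      apply toLaurent_injective
      rw [h1, map_zero]
    rw [h2, coeff_zero] at hVc
    omega
  have hcc : CC phi G (r 0) i0 (la * e 0) := ⟨hD, by omega, hray 0, h, hv0⟩
  have hI : ImS phi (r 0) := im_one T hD.inj him 0
  obtain ⟨c, n, F, fd⟩ := hFD ℤ P L phi G (r 0) i0 (la * e 0) h hcc
  obtain ⟨hn, hdr, hone⟩ := i1 hF1 hMin hC0 hW hG0 hRk hKm T 0 hI fd hle (by omega)
  subst hn
  obtain ⟨hcl, hDF⟩ := hone 0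
  have hfk := BP57.finrank_kerO hRk h
  have hv00 := fd.v00
  rw [Fin.prod_univ_one] at hv00
  -- the factor is big
  have hM : ∀ i : Fin 1, 1 < M ((F i).coeff 0) := by
    intro i
    by_contra hM
    obtain ⟨-, ⟨b, hb, hsupp, -⟩, -⟩ := hSm ℤ P L phi G (r 0) i0 (la * e 0) h c 1 F fd i hM
    have h1 := (hone i).2.spn
    have h2 : rk (supp (F i)) ≤ 1 := by
      rw [hsupp]
      rw [(hRk (Ker (co phi i0)) L).2.2.2.2.2.2.2.1 {b}, (hRk (Ker (co phi i0)) L).2.2.2.2.2.2.1 b hb]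
    omega
  have hcv' := hcv
  rw [hv00] at hcv'
  obtain ⟨N1, N2, hc1, hc2, hNN⟩ := (hE1 ℤ).1 _ _ _ hcv'
  obtain ⟨-, hM2⟩ := (hMV ℤ).1 _ _ hc2
  have hN2 : 1 < N2 := by rw [← hM2]; exact hM 0
  obtain ⟨k2, hk2⟩ : ∃ k : ℕ, (k : ℝ) = N2 := by
    obtain ⟨-, n', q', -, hq', -⟩ := hc2
    refine ⟨(q'.coeff 0).natAbs, ?_⟩
    rw [← hq', embZ, Complex.norm_intCast, Nat.cast_natAbs, Int.cast_abs]
  have hk22 : 2 ≤ k2 := by
    rw [← hk2] at hN2
    exact_mod_cast hN2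
  have hbd := hEvz k2 hk22 P (Ker (co phi i0)) (phO phi (r 0) i0) (F 0) hDF (by rw [hk2]; exact hc2)
  have hle1 : s * g.coeff 0 ≤ 1 := by
    have h1 : 1 ≤ N1 := hc1.1
    have h2 : N2 ≤ N1 * N2 := by nlinarith
    have h3 : (Module.finrank ℤ (Ker (co phi i0)) : ℝ) + 1 + 1 = 2 * N := by
      have h4 : Module.finrank ℤ (Ker (co phi i0)) + 1 + 1 = 2 * N := by omega
      exact_mod_cast h4
    rw [hk2] at hbd
    have h5 : ((s * g.coeff 0 : ℤ) : ℝ) ≤ 1 := by linarith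
    exact_mod_cast h5
  have hone1 : s * g.coeff 0 = 1 := le_antisymm hle1 hsg
  refine ⟨hone1, c, F 0, hcl, ?_⟩
  have hcvN : ClassV ((N - 1 : ℕ) : ℝ)
      (G.coeff 0 + ((la * e 0 : (RO ℤ)ˣ) : RO ℤ) * G.coeff (r 0)) := by
    rw [hone1] at hcv
    have h1 : ((N - 1 : ℕ) : ℝ) = (N : ℝ) - ((1 : ℤ) : ℝ) := by
      push_cast [Nat.cast_sub (show 1 ≤ N by omega)]
      ring
    rw [h1]
    exact hcv
  obtain ⟨-, -, hzf⟩ := hKvx P L phi G (r 0) i0 (la * e 0) h c 1 F (N - 1) fd hI (by omega) hcvN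
    (by omega) hM
  rw [Fin.prod_univ_one] at hzf
  exact hzf

theorem fr_zero : Fr phi r mu 0 :=
  ⟨fun i q => Or.inl (by rw [map_zero]; rfl), fun i => map_zero _⟩

/-- The coefficients of the closing. -/
theorem cl_data (hF1 : F1S) (T : Tri phi G r e mu) (hD : DD phi G) (hray : ∀ i, Ray G (r i))
    (la : (RO ℤ)ˣ) {i0 : P} (h : co phi i0 (r 0) = 1) (R1 : Ker (co phi i0))
    (hR1 : (R1 : L) = r 1) :
    (cl (co phi i0) (r 0) h (la * e 0) G).coeff 0 =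
        G.coeff 0 + ((la * e 0 : (RO ℤ)ˣ) : RO ℤ) * G.coeff (r 0) ∧
      (e 1 : RO ℤ) * (cl (co phi i0) (r 0) h (la * e 0) G).coeff R1 =
        (1 - (la : RO ℤ)) * ((e 0 : RO ℤ) * G.coeff (r 0)) := by
  have bg := bg_of_tri hF1 T hD 0 (hray 0) h (la * e 0)
  constructor
  · rw [bg.cf]
    congr 2
    rw [Submodule.coe_zero, zero_add]
  · have h1 : (cl (co phi i0) (r 0) h (la * e 0) G).coeff R1 = (bg.E 1 0).coeff (r (0 + 1)) := by
      rw [bg.E_in bg.h1 bg.p11 bg.p21, bg.cf, hR1]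
      rfl
    rw [h1, bg.E_ne bg.h1 bg.p11 bg.p21 one_ne_zero]
    have h2 : (((la * e 0 : (RO ℤ)ˣ) : RO ℤ)) * (((e 0)⁻¹ : (RO ℤ)ˣ) : RO ℤ) = (la : RO ℤ) := by
      rw [Units.val_mul, mul_assoc, Units.mul_inv, mul_one]
    have h3 := T.all_eq hF1 hD.inj hD.bin fr_zero 0 1
    rw [zero_add, zero_add] at h3
    rw [h2, h3]
    change (e 1 : RO ℤ) * ((1 - (la : RO ℤ)) * G.coeff (r 1)) = _
    ring

/-- The identity between the coefficients. -/
theorem m1_id (hF1 : F1S) (hU : UnitRS) (T : Tri phi G r e mu) (hD : DD phi G)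
    (hray : ∀ i, Ray G (r i)) (la : (RO ℤ)ˣ) {i0 : P} (h : co phi i0 (r 0) = 1)
    {c : RO ℤ} {F : AO ℤ (Ker (co phi i0))}
    (hcl : cl (co phi i0) (r 0) h (la * e 0) G = cst c * F) (hF : ZFree F) {V W g : ℤ[X]} {m d : ℤ}
    (hV : G.coeff 0 + ((la * e 0 : (RO ℤ)ˣ) : RO ℤ) * G.coeff (r 0) = toLaurent V)
    (hV0 : V.coeff 0 ≠ 0)
    (hg : (e 0 : RO ℤ) * G.coeff (r 0) = -(LaurentPolynomial.T m * toLaurent g))
    (hW : (1 - (la : RO ℤ)) * (LaurentPolynomial.T m * toLaurent g) =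
      LaurentPolynomial.T d * toLaurent W) (hW0 : W.coeff 0 ≠ 0) :
    C (W.coeff 0) * V = C (V.coeff 0) * W := by
  obtain ⟨q, l, n, hq, hz⟩ := hF
  have hp : phi (r 0) i0 = 1 := h
  have c1 : co phi i0 (r 1) = 0 :=
    (T.dis 0 1 (by decide) i0).resolve_left (by rw [hp]; exact one_ne_zero)
  obtain ⟨R1, hR1⟩ : ∃ R1 : Ker (co phi i0), (R1 : L) = r 1 := ⟨⟨r 1, c1⟩, rfl⟩
  obtain ⟨d0, d1⟩ := cl_data hF1 T hD hray la h R1 hR1
  rw [hcl, KO.H71.cst_co, hV] at d0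
  rw [hcl, KO.H71.cst_co, hg, mul_neg, hW] at d1
  have hVne : (toLaurent V : RO ℤ) ≠ 0 := by
    intro h1
    apply hV0
    have h2 : V = 0 := by
      apply toLaurent_injective
      rw [h1, map_zero]
    rw [h2, coeff_zero]
  have hWne : (toLaurent W : RO ℤ) ≠ 0 := by
    intro h1
    apply hW0
    have h2 : W = 0 := by
      apply toLaurent_injective
      rw [h1, map_zero]
    rw [h2, coeff_zero]
  have hF0 : F.coeff 0 ≠ 0 := by
    intro h1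
    rw [h1, mul_zero] at d0
    exact hVne d0.symm
  have hT : ∀ k : ℤ, (LaurentPolynomial.T k : RO ℤ) ≠ 0 := fun k =>
    (LaurentPolynomial.isUnit_T k).ne_zero
  have hF1' : F.coeff R1 ≠ 0 := by
    intro h1
    rw [h1, mul_zero, mul_zero] at d1
    exact neg_ne_zero.2 (mul_ne_zero (hT d) hWne) d1.symm
  obtain ⟨κ0, n0, hκ0, -, hF0e⟩ := mono_of_zf hq hz 0 hF0
  obtain ⟨κ1, n1, hκ1, -, hF1e⟩ := mono_of_zf hq hz R1 hF1'
  obtain ⟨s1, k1, hs1, he1, -⟩ := unit_mono hU (e 1)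
  rw [hF0e] at d0
  rw [hF1e, he1] at d1
  have hs10 : s1 ≠ 0 := by rcases hs1 with h1 | h1 <;> rw [h1] <;> norm_num
  have key : (LaurentPolynomial.T (k1 + n1) : RO ℤ) * toLaurent (C (s1 * κ1) * V) =
      LaurentPolynomial.T (n0 + d) * toLaurent (C (-κ0) * W) := by
    simp only [LaurentPolynomial.T_add, map_mul, toLaurent_C, map_neg]
    linear_combination (LaurentPolynomial.T k1 * LaurentPolynomial.T n1 *
      (LaurentPolynomial.C s1 * LaurentPolynomial.C κ1) : RO ℤ) * (-d0) +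
      (LaurentPolynomial.C κ0 * LaurentPolynomial.T n0 : RO ℤ) * d1
  obtain ⟨-, h2⟩ := H09.nf_unique _ _ _ _
    (by rw [coeff_C_mul]; exact mul_ne_zero (mul_ne_zero hs10 hκ1) hV0)
    (by rw [coeff_C_mul]; exact mul_ne_zero (neg_ne_zero.2 hκ0) hW0) key
  exact pol_cancel (mul_ne_zero hs10 hκ1) h2

/-- The closing at the third ray. -/
theorem cl_data2 (hF1 : F1S) (T : Tri phi G r e mu) (hD : DD phi G) (hray : ∀ i, Ray G (r i))
    (la : (RO ℤ)ˣ) {i0 : P} (h : co phi i0 (r 0) = 1) (R2 : Ker (co phi i0))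
    (hR2 : (R2 : L) = r 2) :
    (e 2 : RO ℤ) * (cl (co phi i0) (r 0) h (la * e 0) G).coeff R2 =
        (1 - (la : RO ℤ)) * ((e 0 : RO ℤ) * G.coeff (r 0)) := by
  have bg := bg_of_tri hF1 T hD 0 (hray 0) h (la * e 0)
  have h1 : (cl (co phi i0) (r 0) h (la * e 0) G).coeff R2 = (bg.E 0 1).coeff (r (0 - 1)) := by
    rw [bg.E_in bg.h2 bg.p12 bg.p22, bg.cf, hR2]
    rfl
  rw [h1, bg.E_ne bg.h2 bg.p12 bg.p22 zero_ne_one]
  have h2 : (((la * e 0 : (RO ℤ)ˣ) : RO ℤ)) * (((e 0)⁻¹ : (RO ℤ)ˣ) : RO ℤ) = (la : RO ℤ) := by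
    rw [Units.val_mul, mul_assoc, Units.mul_inv, mul_one]
  have h3 := T.all_eq hF1 hD.inj hD.bin fr_zero 0 2
  rw [zero_add, zero_add] at h3
  rw [h2, h3]
  change (e 2 : RO ℤ) * ((1 - (la : RO ℤ)) * G.coeff (r 2)) = _
  ring

theorem wc_inv (hU : UnitRS) {q n : ℤ} {u : (RO ℤ)ˣ} (h : Wc q n ((u⁻¹ : (RO ℤ)ˣ) : RO ℤ)) :
    Wc q (-n) (u : RO ℤ) := by
  obtain ⟨s, k, hs, h1, h2⟩ := unit_mono hU u
  have hs0 : s ≠ 0 := by rcases hs with h3 | h3 <;> rw [h3] <;> norm_num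
  have h3 : (((u⁻¹ : (RO ℤ)ˣ) : RO ℤ)).coeff (-k) ≠ 0 := by
    rw [h2, ← LaurentPolynomial.single_eq_C_mul_T, AddMonoidAlgebra.coeff_single,
      Finsupp.single_apply, if_pos rfl]
    exact hs0
  have h4 := h _ h3
  have h5 := wc_mono q s k
  rw [← h1] at h5
  have h6 : q * k = -n := by rw [← h4]; ring
  rwa [h6] at h5

theorem wc_of_two {q n : ℤ} {u : RO ℤ} (h : Wc q n (2 * u)) : Wc q n u := by
  intro k hk
  apply h k
  rw [two_mul, AddMonoidAlgebra.coeff_add, Finsupp.add_apply]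
  intro h1
  apply hk
  omega

/-- The case of the load `- e 0`: z-free. -/
theorem m1_zf (hF1 : F1S) (hU : UnitRS) (T : Tri phi G r e mu) (hD : DD phi G)
    (hray : ∀ i, Ray G (r i)) (la : (RO ℤ)ˣ) (hla : (la : RO ℤ) = -1) {i0 : P}
    (h : co phi i0 (r 0) = 1) {c : RO ℤ} {F : AO ℤ (Ker (co phi i0))}
    (hcl : cl (co phi i0) (r 0) h (la * e 0) G = cst c * F) (hF : ZFree F) {a : ℤ} (ha : a ≠ 0)
    (hV : G.coeff 0 + ((la * e 0 : (RO ℤ)ˣ) : RO ℤ) * G.coeff (r 0) = LaurentPolynomial.C a)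
    (hg : (e 0 : RO ℤ) * G.coeff (r 0) = 1) : ZFree G := by
  obtain ⟨q, l, n, hq, hz⟩ := hF
  have hp : phi (r 0) i0 = 1 := h
  have c1 : co phi i0 (r 1) = 0 :=
    (T.dis 0 1 (by decide) i0).resolve_left (by rw [hp]; exact one_ne_zero)
  have c2 : co phi i0 (r 2) = 0 :=
    (T.dis 0 2 (by decide) i0).resolve_left (by rw [hp]; exact one_ne_zero)
  obtain ⟨R1, hR1⟩ : ∃ R1 : Ker (co phi i0), (R1 : L) = r 1 := ⟨⟨r 1, c1⟩, rfl⟩
  obtain ⟨R2, hR2⟩ : ∃ R2 : Ker (co phi i0), (R2 : L) = r 2 := ⟨⟨r 2, c2⟩, rfl⟩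
  obtain ⟨d0, d1⟩ := cl_data hF1 T hD hray la h R1 hR1
  have d2 := cl_data2 hF1 T hD hray la h R2 hR2
  rw [hg, mul_one, hla] at d1 d2
  rw [hV] at d0
  have hCa : (LaurentPolynomial.C a : RO ℤ) ≠ 0 := by
    intro h1
    apply ha
    have h2 : (AddMonoidAlgebra.single (0 : ℤ) a : RO ℤ).coeff 0 = 0 := by
      have h3 := congrArg (fun x : RO ℤ => x.coeff 0) h1
      exact h3
    rwa [AddMonoidAlgebra.coeff_single, Finsupp.single_eq_same] at h2
  have hF0 : F.coeff 0 ≠ 0 := by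
    intro h1
    rw [hcl, KO.H71.cst_co, h1, mul_zero] at d0
    exact hCa d0.symm
  obtain ⟨κ0, n0, hκ0, hn0, hF0e⟩ := mono_of_zf hq hz 0 hF0
  rw [map_zero, zero_add] at hn0
  have hc : Wc q (-(q * n0)) c := by
    intro k hk
    have h1 : c * (LaurentPolynomial.C κ0 * LaurentPolynomial.T n0) = LaurentPolynomial.C a := by
      rw [← hF0e, ← d0, hcl, KO.H71.cst_co]
    have h2 : (LaurentPolynomial.C κ0 * c : RO ℤ) =
        LaurentPolynomial.C a * LaurentPolynomial.T (-n0) := by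
      have h3 : (LaurentPolynomial.T n0 : RO ℤ) * LaurentPolynomial.T (-n0) = 1 := by
        rw [← LaurentPolynomial.T_add, add_neg_cancel, LaurentPolynomial.T_zero]
      linear_combination (LaurentPolynomial.T (-n0) : RO ℤ) * h1 -
        (LaurentPolynomial.C κ0 * c : RO ℤ) * h3
    have h3 := wc_mono q a (-n0)
    rw [← h2] at h3
    have h4 : (LaurentPolynomial.C κ0 * c : RO ℤ).coeff k ≠ 0 := by
      have h5 : (LaurentPolynomial.C κ0 * c : RO ℤ).coeff k = κ0 * c.coeff k :=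
        AddMonoidAlgebra.coeff_single_zero_mul _ _ _
      rw [h5]
      exact mul_ne_zero hκ0 hk
    rw [h3 k h4]
    ring
  have hH : Wz q l (cl (co phi i0) (r 0) h (la * e 0) G) := by
    intro b
    rw [hcl, KO.H71.cst_co]
    have h1 : Wc q (l b + q * n) (F.coeff b) := fun k hk => hz b k hk
    have h2 := hc.mul h1
    have h3 : -((q : ℤ) * n0) + (l b + q * n) = l b := by rw [hn0]; ring
    rwa [h3] at h2
  have two : (1 - -1 : RO ℤ) = 2 := by norm_num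
  rw [two] at d1 d2
  have x1 : (cl (co phi i0) (r 0) h (la * e 0) G).coeff R1 =
      2 * (((e 1)⁻¹ : (RO ℤ)ˣ) : RO ℤ) := by
    have h1 := Units.inv_mul (e 1)
    linear_combination (((e 1)⁻¹ : (RO ℤ)ˣ) : RO ℤ) * d1 -
      (cl (co phi i0) (r 0) h (la * e 0) G).coeff R1 * h1
  have x2 : (cl (co phi i0) (r 0) h (la * e 0) G).coeff R2 =
      2 * (((e 2)⁻¹ : (RO ℤ)ˣ) : RO ℤ) := by
    have h1 := Units.inv_mul (e 2)
    linear_combination (((e 2)⁻¹ : (RO ℤ)ˣ) : RO ℤ) * d2 -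
      (cl (co phi i0) (r 0) h (la * e 0) G).coeff R2 * h1
  have y1 := hH R1
  have y2 := hH R2
  rw [x1] at y1
  rw [x2] at y2
  have bg := bg_of_tri hF1 T hD 0 (hray 0) h (la * e 0)
  obtain ⟨s0, k0, -, -, he0⟩ := unit_mono hU (e 0)
  have w0 := wc_mono (q : ℤ) s0 (-k0)
  rw [← he0] at w0
  obtain ⟨l', hl'⟩ := bg.wz hU (by rw [Units.val_mul, hla, neg_one_mul]) hH w0 R1 R2 hR1 hR2
    (wc_inv hU (wc_of_two y1)) (wc_of_two y2)
  refine ⟨q, l', 0, hq, fun a k hk => ?_⟩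
  rw [mul_zero, add_zero]
  exact hl' a k hk

end

end Pool.Agent.B5.KO90
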