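import Pool.Agent.Lib.MP_b5021c_nt.KO.H90.M1f

/-!
# MP_b5021c_nt, all `θ`, K odd, `l = 3`, ALPHA, row R1: the lead of the coefficient of a closed
triple in an element of rank `2 M - 2`, class `V(M)`
-/

set_option linter.unusedSectionVars false

namespace Pool.Agent.B5.KO90

open scoped LaurentPolynomial
open Polynomial
open Pool.Agent.B5.KO.H71 (Tri Fr z3a z3b z3c z3d z3e z3f z3g z3v z3h)
open Pool.Agent.B5.H40 (exists_normal)
open Pool.Agent.B5.BP57 (zf_of_unit ray_poly one_of_zf embZ)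
open Pool.Agent.B5.KO57 (ImT im_one tri_mut)

section

variable {P : Type} [Fintype P] [DecidableEq P] {L : Type} [AddCommGroup L] [Module.Free ℤ L]
  [Module.Finite ℤ L] {phi : L →+ (P → ℤ)} {G : AO ℤ L} {r : ZMod 3 → L} {e : ZMod 3 → (RO ℤ)ˣ}
  {mu : ZMod 3 → L →+ ℤ}

/-- A load which is not the load of the triple and lowers the lead by `s g(0)`. -/
theorem r1_core (hF1 : F1S) (hMin : MinS) (hC0 : Coeff0S) (hW : WWfS) (hG0 : G0S) (hRk : RkS)
    (hKm : KmuS) (hFD : FDS) (hE1 : E1S) (hMV : MVS) (hSm : SmallS) (hEvz : EvzS)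
    (T : Tri phi G r e mu) (hD : DD phi G) (hray : ∀ i, Ray G (r i)) (him : ImT phi r) {N : ℕ}
    (hN : 3 ≤ N) (hr : Module.finrank ℤ L + 2 = 2 * N) {p g : ℤ[X]}
    (hp : G.coeff 0 = toLaurent p) (hp0 : p.coeff 0 = N) {m : ℤ}
    (hg : (e 0 : RO ℤ) * G.coeff (r 0) = -(LaurentPolynomial.T m * toLaurent g))
    (hlt : ∀ z : ℂ, ‖z‖ < 1 → ‖(g.map (Coef.emb : ℤ →+* ℂ)).eval z‖ <
        ‖(p.map (Coef.emb : ℤ →+* ℂ)).eval z‖) {s : ℤ} (hs : s = 1 ∨ s = -1)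
    (hsg : 1 ≤ s * g.coeff 0) (la : (RO ℤ)ˣ)
    (hla : (la : RO ℤ) = LaurentPolynomial.C s * LaurentPolynomial.T (-m)) (hla1 : la ≠ 1) :
    s * g.coeff 0 = 1 := by
  obtain ⟨i0, hi0⟩ := T.port hD.inj 0
  have h : co phi i0 (r 0) = 1 := hi0
  have hsn : ‖(Coef.emb s : ℂ)‖ = 1 := by
    rw [embZ, Complex.norm_intCast]
    rcases hs with h1 | h1 <;> rw [h1] <;> norm_num
  have hle : la * e 0 ≠ e 0 := by
    intro h1
    exact hla1 (mul_eq_right.1 h1)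
  have hV0 : G.coeff 0 + ((la * e 0 : (RO ℤ)ˣ) : RO ℤ) * G.coeff (r 0) =
      toLaurent (p - C s * g) := by
    have h1 : (LaurentPolynomial.T (-m) : RO ℤ) * LaurentPolynomial.T m = 1 := by
      rw [← LaurentPolynomial.T_add, neg_add_cancel, LaurentPolynomial.T_zero]
    rw [Units.val_mul, mul_assoc, hg, hla, hp, map_sub, map_mul, toLaurent_C]
    linear_combination (-(LaurentPolynomial.C s * toLaurent g : RO ℤ)) * h1
  have hg0N : s * g.coeff 0 < N := by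
    have h1 := hlt 0 (by simp)
    rw [← coeff_zero_eq_eval_zero, ← coeff_zero_eq_eval_zero, coeff_map, coeff_map, hp0, embZ,
      embZ, Complex.norm_intCast, Complex.norm_intCast] at h1
    have h2 : |g.coeff 0| < (N : ℤ) := by
      have h3 : |((N : ℤ) : ℝ)| = ((N : ℤ) : ℝ) := abs_of_nonneg (by positivity)
      rw [h3] at h1
      exact_mod_cast h1
    have h3 : s * g.coeff 0 ≤ |g.coeff 0| := by
      rcases hs with h4 | h4 <;> rw [h4]
      · rw [one_mul]; exact le_abs_self _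
      · rw [neg_one_mul]; exact neg_le_abs _
    linarith
  have hVc : (p - C s * g).coeff 0 = N - s * g.coeff 0 := by
    rw [coeff_sub, coeff_C_mul, hp0]
  have hVz : ∀ z : ℂ, ‖z‖ < 1 → ((p - C s * g).map (Coef.emb : ℤ →+* ℂ)).eval z ≠ 0 := by
    intro z hz h0
    rw [Polynomial.map_sub, Polynomial.map_mul, map_C, eval_sub, eval_mul, eval_C, sub_eq_zero] at h0
    have h2 := hlt z hz
    rw [h0, norm_mul, hsn, one_mul] at h2
    exact lt_irrefl _ h2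
  have hcv : ClassV ((N : ℝ) - ((s * g.coeff 0 : ℤ) : ℝ))
      (G.coeff 0 + ((la * e 0 : (RO ℤ)ˣ) : RO ℤ) * G.coeff (r 0)) := by
    have h1 : (s * g.coeff 0 : ℤ) + 1 ≤ N := by omega
    have h2 : (((s * g.coeff 0 : ℤ) : ℝ)) + 1 ≤ N := by exact_mod_cast h1
    refine ⟨by linarith, 0, p - C s * g, ?_, ?_, hVz⟩
    · rw [LaurentPolynomial.T_zero, one_mul, hV0]
    · rw [hVc, embZ, Complex.norm_intCast]
      push_cast
      rw [abs_of_nonneg]
      push_cast at h2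
      linarith
  have hv0 : G.coeff 0 + ((la * e 0 : (RO ℤ)ˣ) : RO ℤ) * G.coeff (r 0) ≠ 0 := by
    rw [hV0]
    intro h1
    have h2 : p - C s * g = 0 := by
      apply toLaurent_injective
      rw [h1, map_zero]
    rw [h2, coeff_zero] at hVc
    omega
  have hcc : CC phi G (r 0) i0 (la * e 0) := ⟨hD, by omega, hray 0, h, hv0⟩
  have hI : ImS phi (r 0) := im_one T hD.inj him 0
  obtain ⟨c, n, F, fd⟩ := hFD ℤ P L phi G (r 0) i0 (la * e 0) h hcc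
  obtain ⟨hn, hdr, hone⟩ := i1 hF1 hMin hC0 hW hG0 hRk hKm T 0 hI fd hle (by omega)
  subst hn
  obtain ⟨hcl, hDF⟩ := hone 0
  have hfk := BP57.finrank_kerO hRk h
  have hv00 := fd.v00
  rw [Fin.prod_univ_one] at hv00
  -- the factor is big
  have hM : 1 < M ((F 0).coeff 0) := by
    by_contra hM
    obtain ⟨-, ⟨b, hb, hsupp, -⟩, -⟩ := hSm ℤ P L phi G (r 0) i0 (la * e 0) h c 1 F fd 0 hM
    have h1 := (hone 0).2.spn
    have h2 : rk (supp (F 0)) ≤ 1 := by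
      rw [hsupp]
      rw [(hRk (Ker (co phi i0)) L).2.2.2.2.2.2.2.1 {b}, (hRk (Ker (co phi i0)) L).2.2.2.2.2.2.1 b hb]
    omega
  have hcv' := hcv
  rw [hv00] at hcv'
  obtain ⟨N1, N2, hc1, hc2, hNN⟩ := (hE1 ℤ).1 _ _ _ hcv'
  obtain ⟨-, hM2⟩ := (hMV ℤ).1 _ _ hc2
  have hN2 : 1 < N2 := by rw [← hM2]; exact hM
  obtain ⟨k2, hk2⟩ : ∃ k : ℕ, (k : ℝ) = N2 := by
    obtain ⟨-, n', q', -, hq', -⟩ := hc2
    refine ⟨(q'.coeff 0).natAbs, ?_⟩
    rw [← hq', embZ, Complex.norm_intCast, Nat.cast_natAbs, Int.cast_abs]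
  have hk22 : 2 ≤ k2 := by
    rw [← hk2] at hN2
    exact_mod_cast hN2
  have hbd := hEvz k2 hk22 P (Ker (co phi i0)) (phO phi (r 0) i0) (F 0) hDF (by rw [hk2]; exact hc2)
  have hle1 : s * g.coeff 0 < 2 := by
    have h1 : 1 ≤ N1 := hc1.1
    have h2 : N2 ≤ N1 * N2 := by nlinarith
    have h3 : (Module.finrank ℤ (Ker (co phi i0)) : ℝ) + 1 + 2 = 2 * N := by
      have h4 : Module.finrank ℤ (Ker (co phi i0)) + 1 + 2 = 2 * N := by omega
      exact_mod_cast h4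
    rw [hk2] at hbd
    have h5 : ((s * g.coeff 0 : ℤ) : ℝ) < 2 := by linarith
    exact_mod_cast h5
  omega

/-- ROW R1, abstract form: a closed triple in class `V(N)`, rank `2 N - 2`: the lead of its
coefficient is a unit, or the delay is zero and the lead is in `[2, N)`. -/
theorem r1n (hF1 : F1S) (hMin : MinS) (hC0 : Coeff0S) (hW : WWfS) (hG0 : G0S) (hRk : RkS)
    (hKm : KmuS) (hFD : FDS) (hE1 : E1S) (hMV : MVS) (hSm : SmallS) (hEvz : EvzS)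
    (hE2 : E2S) (hVZ : VZS) (hU : UnitRS)
    (T : Tri phi G r e mu) (hD : DD phi G) (hray : ∀ i, Ray G (r i)) (him : ImT phi r) {N : ℕ}
    (hN : 3 ≤ N) (hr : Module.finrank ℤ L + 2 = 2 * N) {p : ℤ[X]}
    (hp : G.coeff 0 = toLaurent p) (hp0 : p.coeff 0 = N) (hpz : ZF (p.map Coef.emb)) :
    ∃ (m : ℤ) (g : ℤ[X]), (e 0 : RO ℤ) * G.coeff (r 0) = -(LaurentPolynomial.T m * toLaurent g) ∧
      ((g.coeff 0 = 1 ∨ g.coeff 0 = -1) ∨ (m = 0 ∧ 2 ≤ g.coeff 0 ∧ g.coeff 0 < N)) := by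
  obtain ⟨m0, f, hf, hf0, hcl, hle, hlt⟩ := ray_poly hE2 hVZ hD (by omega) (hray 0) (n := 0) (q := p)
    (by rw [LaurentPolynomial.T_zero, one_mul, hp]) hpz
  obtain ⟨s0, k0, hs0, he0, -⟩ := unit_mono hU (e 0)
  have hs0n : s0 ≠ 0 := by rcases hs0 with h1 | h1 <;> rw [h1] <;> norm_num
  have hns0 : ‖(Coef.emb (-s0) : ℂ)‖ = 1 := by
    rw [embZ, Complex.norm_intCast]
    rcases hs0 with h1 | h1 <;> rw [h1] <;> norm_num
  obtain ⟨g, hgd⟩ : ∃ g : ℤ[X], g = C (-s0) * f := ⟨_, rfl⟩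
  obtain ⟨m, hm⟩ : ∃ m : ℤ, m = k0 + m0 := ⟨_, rfl⟩
  have hg : (e 0 : RO ℤ) * G.coeff (r 0) = -(LaurentPolynomial.T m * toLaurent g) := by
    rw [he0, hf, hgd, hm, LaurentPolynomial.T_add, map_mul, toLaurent_C, map_neg]
    ring
  have hg0 : g.coeff 0 ≠ 0 := by
    rw [hgd, coeff_C_mul]
    exact mul_ne_zero (neg_ne_zero.2 hs0n) hf0
  have hlt' : ∀ z : ℂ, ‖z‖ < 1 → ‖(g.map (Coef.emb : ℤ →+* ℂ)).eval z‖ <
      ‖(p.map (Coef.emb : ℤ →+* ℂ)).eval z‖ := by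
    intro z hz
    rw [hgd, Polynomial.map_mul, map_C, eval_mul, eval_C, norm_mul, hns0, one_mul]
    exact hlt z hz
  refine ⟨m, g, hg, ?_⟩
  have hgN : g.coeff 0 < N := by
    have h1 := hlt' 0 (by simp)
    rw [← coeff_zero_eq_eval_zero, ← coeff_zero_eq_eval_zero, coeff_map, coeff_map, hp0, embZ,
      embZ, Complex.norm_intCast, Complex.norm_intCast] at h1
    have h2 : |g.coeff 0| < (N : ℤ) := by
      have h3 : |((N : ℤ) : ℝ)| = ((N : ℤ) : ℝ) := abs_of_nonneg (by positivity)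
      rw [h3] at h1
      exact_mod_cast h1
    exact lt_of_le_of_lt (le_abs_self _) h2
  obtain ⟨s, hs, hsg⟩ : ∃ s : ℤ, (s = 1 ∨ s = -1) ∧ 1 ≤ s * g.coeff 0 := by
    rcases lt_or_gt_of_ne hg0 with h1 | h1
    · exact ⟨-1, Or.inr rfl, by omega⟩
    · exact ⟨1, Or.inl rfl, by omega⟩
  by_cases hA : m = 0 ∧ s = 1
  · obtain ⟨hm0, hs1⟩ := hA
    rw [hs1, one_mul] at hsg
    rcases eq_or_lt_of_le hsg with h1 | h1
    · exact Or.inl (Or.inl h1.symm)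
    · exact Or.inr ⟨hm0, by omega, hgN⟩
  · left
    have hs1 : s ≠ 0 := by rcases hs with h1 | h1 <;> rw [h1] <;> norm_num
    obtain ⟨la, hla⟩ : ∃ la : (RO ℤ)ˣ, (la : RO ℤ) =
        LaurentPolynomial.C s * LaurentPolynomial.T (-m) := by
      have h1 : IsUnit (LaurentPolynomial.C s * LaurentPolynomial.T (-m) : RO ℤ) :=
        (hU ℤ _).mpr ⟨-m, s, Int.isUnit_iff.2 hs, rfl⟩
      exact ⟨h1.unit, rfl⟩
    have hla1 : la ≠ 1 := by
      intro h1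
      rw [h1, Units.val_one] at hla
      have h2 : (LaurentPolynomial.T 0 : RO ℤ) * toLaurent (C (1 : ℤ)) =
          LaurentPolynomial.T (-m) * toLaurent (C s) := by
        rw [toLaurent_C, toLaurent_C, LaurentPolynomial.T_zero, map_one, one_mul, hla, mul_comm]
      obtain ⟨h3, h4⟩ := H09.nf_unique _ _ _ _ (by simp) (by simpa using hs1) h2
      apply hA
      refine ⟨by omega, ?_⟩
      exact (C_injective h4).symm
    have hone := r1_core hF1 hMin hC0 hW hG0 hRk hKm hFD hE1 hMV hSm hEvz T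
      hD hray him hN hr hp hp0 hg hlt' hs hsg la hla hla1
    rcases hs with h1 | h1
    · rw [h1] at hone
      left
      omega
    · rw [h1] at hone
      right
      omega

/-- ROW R1, abstract form with a unit. -/
theorem r1 (hF1 : F1S) (hMin : MinS) (hC0 : Coeff0S) (hW : WWfS) (hG0 : G0S) (hRk : RkS)
    (hKm : KmuS) (hFD : FDS) (hE1 : E1S) (hMV : MVS) (hSm : SmallS) (hEvz : EvzS)
    (hE2 : E2S) (hVZ : VZS) (hU : UnitRS)
    (T : Tri phi G r e mu) (hD : DD phi G) (hray : ∀ i, Ray G (r i)) (him : ImT phi r) {N : ℕ}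
    (hN : 3 ≤ N) (hr : Module.finrank ℤ L + 2 = 2 * N) {w : (RO ℤ)ˣ} {p : ℤ[X]}
    (hp : (w : RO ℤ) * G.coeff 0 = toLaurent p) (hp0 : p.coeff 0 = N)
    (hpz : ZF (p.map Coef.emb)) :
    ∃ (m : ℤ) (g : ℤ[X]), (w : RO ℤ) * ((e 0 : RO ℤ) * G.coeff (r 0)) =
        -(LaurentPolynomial.T m * toLaurent g) ∧
      ((g.coeff 0 = 1 ∨ g.coeff 0 = -1) ∨ (m = 0 ∧ 2 ≤ g.coeff 0 ∧ g.coeff 0 < N)) := by
  have hw0 : (w : RO ℤ) ≠ 0 := w.ne_zero
  have hD' : DD phi (cst (w : RO ℤ) * G) :=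
    H78.dd_cst w.isUnit (fun z => (w.isUnit.map (evR z)).ne_zero) hD
  have hT' : Tri phi (cst (w : RO ℤ) * G) r e mu := (KO.H71.Tri.cst_iff hw0).2 T
  have hs := KO.H71.cst_supp hw0 G
  have hray' : ∀ i, Ray (cst (w : RO ℤ) * G) (r i) := by
    intro i
    obtain ⟨h1, h2, l, h3, h4⟩ := hray i
    exact ⟨by rw [hs]; exact h1, h2, l, h3, fun a ha => h4 a (by rw [← hs]; exact ha)⟩
  obtain ⟨m, g, h1, h2⟩ := r1n hF1 hMin hC0 hW hG0 hRk hKm hFD hE1 hMV hSm hEvz hE2 hVZ hU hT' hD'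
    hray' him hN hr (by rw [KO.H71.cst_co]; exact hp) hp0 hpz
  refine ⟨m, g, ?_, h2⟩
  rw [← h1, KO.H71.cst_co]
  ring

end

end Pool.Agent.B5.KO90
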