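import Pool.Agent.Lib.MP_b5021c_nt.KO.H67.TkC
import Pool.Agent.Lib.MP_b5021c_nt.KO.H71.Sf5
import Pool.Agent.Lib.MP_b5021c_nt.KO.H90.M1f

/-!
# MP_b5021c_nt, all `θ`, K odd, `l = 3`, ALPHA, row TK_BD: the closing `z0 = 1` of `W = D(T = 1)`

`W` in `DD`, rank `2 j`, class `P`, with a closed triple `r`; `y` a ray of the closing of `r 0` with
a functional `m` which kills the closing at `y` but not the closing itself; the only functionals
which kill the closing are the multiples of `mu 0`: the bound for the closing.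
-/

set_option linter.unusedSectionVars false

namespace Pool.Agent.B5.KO90

open scoped LaurentPolynomial
open Polynomial
open Pool.Agent.B5.KE
open Pool.Agent.B5.SFH27
open Pool.Agent.B5.KO67
open Pool.Agent.B5.KO.H71 (Tri Fr z3a z3b z3c z3d z3e z3f z3g z3v z3h)

section

variable {P K : Type} [Fintype P] [DecidableEq P] [AddCommGroup K] [Module.Free ℤ K]
  [Module.Finite ℤ K] {psi : K →+ (P → ℤ)} {W : AO ℤ K} {r : ZMod 3 → K}
  {e : ZMod 3 → (RO ℤ)ˣ} {mu : ZMod 3 → K →+ ℤ}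

/-- A SMALL FACTOR OF MASS ONE IS IMPOSSIBLE (closed triple). -/
theorem tri_no_one (hM : McoS) (hF1 : F1S) (T : Tri psi W r e mu) (hD : DD psi W)
    (hray : ∀ i, Ray W (r i)) {i0 : P} {h0 : co psi i0 (r 0) = 1} {c : RO ℤ} {n : ℕ}
    {G : Fin n → AO ℤ (Ker (co psi i0))} {l : Fin n}
    {b : Ker (co psi i0)} {j : P} {e' : (RO ℤ)ˣ} {hj : co (phK psi (co psi i0)) j b = 1}
    {Q : AO ℤ (Ker (co (phK psi (co psi i0)) j))}
    (hQ : QC psi W (r 0) i0 (e 0) h0 c n G l b j e' hj Q) (hQ1 : Q = cst (c * (G l).coeff 0))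
    (h2A : W.coeff 0 + 2 * ((e 0 : RO ℤ) * W.coeff (r 0)) ≠ 0) : False := by
  have hmut : Mut W (r 0) (r 1) (e 0) (e 1) := KO57.tri_mut T hray (by decide)
  have h3 := H36.ndz_three (t := 1) hQ (by rw [mul_one]; exact hQ1)
  obtain ⟨hdis, hm1, hm2, -⟩ := hM ℤ P K psi W (r 0) (r 1) (e 0) (e 1) hD.inj hD.bin hmut
  have hi0 : psi (r 0) i0 = 1 := h0
  have hv0 := hQ.fd.cc.v0
  have zz : ∀ i, psi (0 : K) i = 0 := fun i => by rw [map_zero]; rfl
  obtain ⟨x0, y0⟩ := h3 0 (zz i0) (zz j)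
  rw [zero_add, zero_add, one_mul] at x0
  rw [zero_add, zero_add] at y0
  have x0' : (e' : RO ℤ) * W.coeff (b : K) = (e 0 : RO ℤ) * W.coeff (r 0) := by
    linear_combination x0
  have hDb : W.coeff (b : K) ≠ 0 := by
    intro h5
    rw [h5, mul_zero] at x0'
    exact (mul_ne_zero (e 0).ne_zero (hray 0).1) x0'.symm
  have hDbS : W.coeff ((b : K) + r 0) ≠ 0 := by
    intro h5
    rw [h5, mul_zero, add_zero] at y0
    apply h2A
    linear_combination y0 - x0'
  have bb : Bin psi (b : K) := hD.bin _ hDb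
  have bS : Bin psi (r 0) := hD.bin _ (hray 0).1
  have bbS := hD.bin _ hDbS
  have b1 : Bin psi (r 1) := hD.bin _ (hray 1).1
  have disb : ∀ i, psi (b : K) i = 0 ∨ psi (r 0) i = 0 := by
    intro i
    have q1 := bb i
    have q2 := bS i
    have q3 := bbS i
    simp only [map_add, Pi.add_apply] at q3
    omega
  have hS1i : psi (r 1) i0 = 0 := by
    rcases hdis i0 with h5 | h5
    · omega
    · exact h5
  have hb0 : (b : K) ≠ 0 := by
    intro h5
    have : b = 0 := Subtype.ext h5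
    rw [this, map_zero] at hj
    exact zero_ne_one hj
  have hS1 : W.coeff (r 1) + (e 0 : RO ℤ) * W.coeff (r 1 + r 0) = 0 := by
    have h5 : (e 1 : RO ℤ) * (W.coeff (r 1) + (e 0 : RO ℤ) * W.coeff (r 1 + r 0)) = 0 := by
      rw [add_comm (r 1) (r 0)]
      linear_combination hm1 + hm2
    exact (mul_eq_zero.mp h5).resolve_left (e 1).ne_zero
  -- (A)
  have hjS1 : psi (r 1) j = 0 := by
    by_contra h5
    have h6 : psi (r 1) j = 1 := (b1 j).resolve_left h5
    have hbj : psi (b : K) j = 1 := hQ.sp.bj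
    obtain ⟨x1, y1⟩ := h3 (r 1 - (b : K))
      (by rw [map_sub, Pi.sub_apply, hS1i]; have : psi (b : K) i0 = 0 := b.2; omega)
      (by rw [map_sub, Pi.sub_apply, h6, hbj, sub_self])
    rw [sub_add_cancel, hS1, mul_zero] at y1
    have hz : W.coeff (r 1 - (b : K)) + (e 0 : RO ℤ) * W.coeff (r 1 - (b : K) + r 0) = 0 := by
      rw [← neg_eq_zero]
      exact y1.symm
    rw [sub_add_cancel, hz, mul_zero] at x1
    have hne : W.coeff (r 1 - (b : K)) ≠ 0 := by
      intro h7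
      rw [h7, zero_add] at x1
      exact (mul_ne_zero e'.ne_zero (hray 1).1) x1
    obtain ⟨-, hS10, lam, hlam, hpos⟩ := hray 1
    by_cases h8 : (b : K) = r 1
    · rw [h8, hS1, mul_zero] at y0
      apply hv0
      rw [← neg_eq_zero]
      exact y0.symm
    · have h9 : 0 < lam (b : K) := hpos _ hDb hb0 h8
      have h10 : 0 < lam (r 1 - (b : K)) := hpos _ hne (sub_ne_zero.mpr (Ne.symm h8)) (by
        intro h11
        exact hb0 (sub_eq_self.mp h11))
      rw [map_sub, hlam] at h10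
      omega
  -- (B)
  obtain ⟨x1, y1⟩ := h3 (r 1) hS1i hjS1
  rw [hS1, mul_zero] at x1
  rw [hS1, neg_zero] at y1
  have hne : W.coeff (r 1 + (b : K)) ≠ 0 := by
    intro h7
    rw [h7, mul_zero, add_zero] at x1
    exact (hray 1).1 x1
  have bb1 := hD.bin _ hne
  have disb1 : ∀ i, psi (b : K) i = 0 ∨ psi (r 1) i = 0 := by
    intro i
    have q1 := bb i
    have q2 := b1 i
    have q3 := bb1 i
    simp only [map_add, Pi.add_apply] at q3
    omega
  have y1' : W.coeff (r 1 + (b : K)) + (e 0 : RO ℤ) * W.coeff (r 1 + (b : K) + r 0) = 0 :=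
    (mul_eq_zero.mp y1).resolve_left e'.ne_zero
  -- (C)
  have c2 : (e' : RO ℤ) * (e 0 : RO ℤ) *
      (W.coeff ((b : K) + r 0) + (e 1 : RO ℤ) * W.coeff ((b : K) + r 0 + r 1)) =
      -(W.coeff 0 + (e 0 : RO ℤ) * W.coeff (r 0)) := by
    have h5 : (b : K) + r 0 + r 1 = r 1 + (b : K) + r 0 := by abel
    rw [h5]
    linear_combination y0 - x0' + (e' : RO ℤ) * (e 1 : RO ℤ) * y1' - (e 1 : RO ℤ) * x1 + hm1
  -- the functionals
  have F := fun i x (hx : mu i x ≠ 0) => hF1 ℤ P K psi W (r i) (e i) hD.inj hD.bin (T.bin i)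
    (T.nz i) x (fun hU => hx (T.us i x hU))
  have k0 : mu 0 (b : K) = 0 := by
    by_contra h5
    have h6 := (F 0 (b : K) h5).2 disb
    rw [h6, mul_zero] at y0
    apply hv0
    rw [← neg_eq_zero]
    exact y0.symm
  have k1 : mu 1 ((b : K) + r 0) = 0 := by
    by_contra h5
    have h6 := (F 1 ((b : K) + r 0) h5).2 (by
      intro i
      have q1 := disb1 i
      have q2 := hdis i
      simp only [map_add, Pi.add_apply]
      omega)
    rw [h6, mul_zero] at c2
    exact (neg_ne_zero.mpr hv0) c2.symm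
  have m10 : mu 1 (r 0) = -1 := T.prv 1
  have m21 : mu 2 (r 1) = -1 := T.prv 2
  have s1 := T.sum (b : K)
  have v2 := T.val 2 _ hne
  rw [map_add] at k1 v2
  omega

/-- THE BOUND FOR THE CLOSING OF `r 0`. -/
theorem tri_bound (hQs : QsgS) (hCz : CzaS) (hTz : TzaS) (hFj : FjtS) (hGa : GaiS) (hNz : NdzS)
    (hNd : Nd3S) (hNr : Nr3S) (hTa : Ta3S) (hLd : LdzS) (hM : McoS) (hF1 : F1S) (hFD : FDS)
    (hE1 : E1S) (hMV : MVS) (hMm : MmulS) (hKm : KmuS) (hRk : RkS) (hRW : ResWDS)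
    (hRS : ResStS) (hSm : SmallS) (hRF : RayFacS) (T : Tri psi W r e mu) (hD : DD psi W)
    (hray : ∀ i, Ray W (r i)) {q f : ℤ[X]} {j : ℕ} {θ b : ℝ} (hj : 2 ≤ j)
    (hfr : Module.finrank ℤ K = 2 * j) (hIH : ∀ k < 2 * j, Bnk k) (hθ : 2 ≤ θ)
    (hP : ClassP θ (W.coeff 0)) (hq : W.coeff 0 = toLaurent q)
    (hf : (e 0 : RO ℤ) * W.coeff (r 0) = toLaurent (X * f)) (q0 : q.coeff 0 = 1)
    (f0 : f.coeff 0 = 1) (hIm : ImS psi (r 0)) (hb0 : 0 < b) (hb1 : b < 1)
    (hb : (aeval b (q + X * f) : ℝ) = 0) {i0 : P} (h0 : co psi i0 (r 0) = 1)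
    {y : Ker (co psi i0)} {eR : (RO ℤ)ˣ} (hy : Ray (cl (co psi i0) (r 0) h0 (e 0) W) y)
    {m : Ker (co psi i0) →+ ℤ}
    (hmU : ∀ a ∈ US eR y (cl (co psi i0) (r 0) h0 (e 0) W), m a = 0)
    (hmV : ∃ a ∈ supp (cl (co psi i0) (r 0) h0 (e 0) W), m a ≠ 0)
    (hne : (cl (co psi i0) (r 0) h0 (e 0) W).coeff 0 +
      (eR : RO ℤ) * (cl (co psi i0) (r 0) h0 (e 0) W).coeff y ≠ 0)
    (hkl : ∀ nu : Ker (co psi i0) →+ ℤ,
      (∀ a ∈ supp (cl (co psi i0) (r 0) h0 (e 0) W), nu a = 0) →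
      (∀ y1 : Ker (co psi i0), (y1 : K) = r 1 → nu y1 = 0) → nu = 0) :
    ((q + X ^ 1 * f).map (Coef.emb : ℤ →+* ℂ)).roots.filter (fun x => ‖x‖ < 1) = {(b : ℂ)} ∧
      (j : ℝ) - 1 ≤ b⁻¹ - b := by
  classical
  have h2 : 2 ≤ Module.finrank ℤ K := by omega
  have hq' : W.coeff 0 = LaurentPolynomial.T 0 * toLaurent q := by
    rw [LaurentPolynomial.T_zero, one_mul, hq]
  have hf' : (e 0 : RO ℤ) * W.coeff (r 0) = LaurentPolynomial.T 0 * toLaurent (X * f) := by
    rw [LaurentPolynomial.T_zero, one_mul, hf]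
  obtain ⟨ld, -⟩ := hLd P K psi W (r 0) (e 0) θ 0 q f hD h2 (hray 0) hP hq'
    (by rw [q0, abs_one]) hf'
  obtain ⟨T', s, Wc, c1⟩ := hCz q f ld
  have hroots := c1d_root c1 q0 hb0 hb1 hb
  refine ⟨hroots, ?_⟩
  have hV0 : W.coeff 0 + (e 0 : RO ℤ) * W.coeff (r 0) = toLaurent (q + X * f) := by
    rw [hq, hf, map_add]
  have hc0 : (q + X * f).coeff 0 = 1 := by
    rw [coeff_add, q0, mul_coeff_zero, coeff_X_zero, zero_mul, add_zero]
  have hP' : ClassP b⁻¹ (W.coeff 0 + (e 0 : RO ℤ) * W.coeff (r 0)) := by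
    rw [hV0]
    exact classP_of hb0 hb1 hc0 (by rw [pow_one] at hroots; exact hroots)
  have hvne : W.coeff 0 + (e 0 : RO ℤ) * W.coeff (r 0) ≠ 0 := ((hMV ℤ).2 _ _ hP').1
  have cc : CC psi W (r 0) i0 (e 0) := ⟨hD, h2, hray 0, h0, hvne⟩
  obtain ⟨c, n, G, fd⟩ := hFD ℤ P K psi W (r 0) i0 (e 0) h0 cc
  have hx : ∀ i, (G i).coeff 0 ≠ 0 := fun i => (fd.st i).1
  have bz0 : Bin psi (r 0) := T.bin 0
  have hprod : cl (co psi i0) (r 0) h0 (e 0) W = cst c * ∏ i, G i := fd.eq
  have hP2 : ClassP b⁻¹ (c * ∏ i, (G i).coeff 0) := by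
    rw [← fd.v00]
    exact hP'
  -- the kernel meets the line of `r 0` trivially
  have key : ∀ a : Ker (co psi i0), (∀ j, psi (r 0) j = 0 → psi (a : K) j = 0) → a = 0 := by
    intro a ha
    obtain ⟨k, hk⟩ := hIm (a : K) ha
    have h1 : co psi i0 (a : K) = 0 := a.2
    rw [hk, map_zsmul, h0, smul_eq_mul, mul_one] at h1
    apply Subtype.ext
    rw [hk, h1, zero_smul]
    rfl
  have nopure : ∀ l, ¬ Pure psi (r 0) i0 (G l) := by
    intro l hl
    obtain ⟨a, ha, bb, hbb, hab⟩ := fd.wd l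
    apply hab
    have h1 : a = 0 := key a fun j hj => hl a ha j (by
      unfold OO
      exact Finset.mem_filter.mpr ⟨Finset.mem_univ _, hj⟩)
    have h2 : bb = 0 := key bb fun j hj => hl bb hbb j (by
      unfold OO
      exact Finset.mem_filter.mpr ⟨Finset.mem_univ _, hj⟩)
    rw [h1, h2]
  have inj : Function.Injective (phO psi (r 0) i0) := by
    rw [injective_iff_map_eq_zero]
    intro a ha
    apply key
    intro j hj
    have h4 : phO psi (r 0) i0 a j = 0 := by rw [ha]; rfl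
    change (if psi (r 0) j = 0 then psi (a : K) j else 0) = 0 at h4
    rw [if_pos hj] at h4
    exact h4
  have hbin : ∀ a : Ker (co psi i0), WW (phK psi (co psi i0)) (II psi (r 0) i0) (OO psi (r 0)) a →
      Bin (phO psi (r 0) i0) a := by
    intro a ha j
    change (if psi (r 0) j = 0 then psi (a : K) j else 0) = 0 ∨
      (if psi (r 0) j = 0 then psi (a : K) j else 0) = 1
    by_cases hj : psi (r 0) j = 0
    · rw [if_pos hj]
      exact ha.1 j (by
        unfold OO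
        exact Finset.mem_filter.mpr ⟨Finset.mem_univ _, hj⟩)
    · left
      rw [if_neg hj]
  have hbV : ∀ a ∈ supp (cl (co psi i0) (r 0) h0 (e 0) W), Bin (phO psi (r 0) i0) a := by
    intro a ha
    obtain ⟨x, hx1, rfl⟩ := KO.H71.cl_supp h0 (e 0) ha
    intro p
    change (if psi (r 0) p = 0 then psi ((prj (co psi i0) (r 0) h0 x : Ker (co psi i0)) : K) p
      else 0) = 0 ∨ (if psi (r 0) p = 0 then
        psi ((prj (co psi i0) (r 0) h0 x : Ker (co psi i0)) : K) p else 0) = 1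
    by_cases hp : psi (r 0) p = 0
    · rw [if_pos hp, prj_coe, map_sub, map_zsmul, Pi.sub_apply, Pi.smul_apply, hp, smul_zero,
        sub_zero]
      exact hD.bin x hx1 p
    · left
      rw [if_neg hp]
  -- the content
  have hMc : M c = 1 := by
    rcases (hE1 ℤ).2 _ _ _ hP2 with ⟨-, h4⟩ | ⟨h3, -⟩
    swap
    · exact ((hMV ℤ).1 _ _ h3).2
    exfalso
    -- all factors are small
    have hall : ∀ i, ¬ 1 < M ((G i).coeff 0) := by
      intro i hi
      have h5 := h4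
      rw [← Finset.mul_prod_erase Finset.univ (fun i => (G i).coeff 0) (Finset.mem_univ i)] at h5
      obtain ⟨N1, N2, hc1, hc2, hNN⟩ := (hE1 ℤ).1 _ _ _ h5
      obtain ⟨-, hM1⟩ := (hMV ℤ).1 _ _ hc1
      have k1 : 1 ≤ N2 := hc2.1
      rw [hM1] at hi
      nlinarith
    obtain ⟨i, hi⟩ := hRF ℤ P K psi W (r 0) i0 (e 0) h0 c n G fd y hy
    obtain ⟨-, -, hsp⟩ := hSm ℤ P K psi W (r 0) i0 (e 0) h0 c n G fd i (hall i)
    obtain ⟨b', j', ee, sp⟩ := hsp (nopure i)
    have hyb : y = b' := by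
      have h5 := hi
      rw [sp.eq] at h5
      have h6 : (cst ((G i).coeff 0) * (1 - AddMonoidAlgebra.single b'
          ((ee⁻¹ : (RO ℤ)ˣ) : RO ℤ)) : AO ℤ (Ker (co psi i0))).coeff y ≠ 0 := h5
      by_contra hyb
      apply h6
      rw [KO.H71.cst_co, AddMonoidAlgebra.coeff_sub, Finsupp.sub_apply, AddMonoidAlgebra.one_def,
        AddMonoidAlgebra.coeff_single, AddMonoidAlgebra.coeff_single,
        Finsupp.single_eq_of_ne hy.2.1, Finsupp.single_eq_of_ne hyb, sub_zero,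
        mul_zero]
    subst hyb
    have hyj : psi (y : K) j' = 1 := sp.bj
    have hjO : psi (r 0) j' = 0 := by
      have h5 := sp.jO
      unfold OO at h5
      exact (Finset.mem_filter.mp h5).2
    have hyj' : phO psi (r 0) i0 y j' = 1 := by
      change (if psi (r 0) j' = 0 then psi (y : K) j' else 0) = 1
      rw [if_pos hjO, hyj]
    have hsh : ∀ a : Ker (co psi i0), psi (a : K) j' = 0 →
        (cl (co psi i0) (r 0) h0 (e 0) W).coeff (a + y) =
          -((ee⁻¹ : (RO ℤ)ˣ) : RO ℤ) * (cl (co psi i0) (r 0) h0 (e 0) W).coeff a :=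
      fun a ha => KO.H71.spt_shift sp hprod ha
    obtain ⟨a, haV, ham, haj⟩ : ∃ a ∈ supp (cl (co psi i0) (r 0) h0 (e 0) W), m a ≠ 0 ∧
        psi (a : K) j' = 0 := by
      obtain ⟨a, haV, ham⟩ := hmV
      have h5 := hbV a haV j'
      change (if psi (r 0) j' = 0 then psi (a : K) j' else 0) = 0 ∨
        (if psi (r 0) j' = 0 then psi (a : K) j' else 0) = 1 at h5
      rw [if_pos hjO] at h5
      rcases h5 with h6 | h6
      · exact ⟨a, haV, ham, h6⟩
      · have h7 : psi ((a - y : Ker (co psi i0)) : K) j' = 0 := by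
          change psi ((a : K) - (y : K)) j' = 0
          rw [map_sub, Pi.sub_apply, h6, hyj, sub_self]
        have h8 := hsh (a - y) h7
        rw [sub_add_cancel] at h8
        refine ⟨a - y, ?_, ?_, h7⟩
        · intro h9
          apply haV
          change (cl (co psi i0) (r 0) h0 (e 0) W).coeff (a - y) = 0 at h9
          change (cl (co psi i0) (r 0) h0 (e 0) W).coeff a = 0
          rw [h8, h9, mul_zero]
        · rw [map_sub]
          have h9 : m y = 0 := hmU y (H07.mem_US eR y _)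
          rw [h9, sub_zero]
          exact ham
    have hF := hF1 ℤ P (Ker (co psi i0)) (phO psi (r 0) i0) (cl (co psi i0) (r 0) h0 (e 0) W) y eR
      inj hbV (hbV y hy.1) hy.2.1 a (fun hU => ham (hmU a hU))
    have haj' : phO psi (r 0) i0 a j' = 0 := by
      change (if psi (r 0) j' = 0 then psi (a : K) j' else 0) = 0
      rw [if_pos hjO, haj]
    have hdis : ∀ p, phO psi (r 0) i0 a p = 0 ∨ phO psi (r 0) i0 y p = 0 := by
      intro p
      by_contra hcon
      push Not at hcon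
      exact haV (hF.1 ⟨p, (hbV a haV p).resolve_left hcon.1,
        (hbV y hy.1 p).resolve_left hcon.2⟩ ⟨j', haj', hyj'⟩)
    have h5 := hF.2 hdis
    rw [hsh a haj] at h5
    have h6 : (1 - (eR : RO ℤ) * ((ee⁻¹ : (RO ℤ)ˣ) : RO ℤ)) *
        (cl (co psi i0) (r 0) h0 (e 0) W).coeff a = 0 := by linear_combination h5
    have h7 := (mul_eq_zero.mp h6).resolve_right haV
    have h8 := hsh 0 (by
      change psi (0 : K) j' = 0
      rw [map_zero]
      rfl)
    rw [zero_add] at h8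
    apply hne
    rw [h8]
    linear_combination (cl (co psi i0) (r 0) h0 (e 0) W).coeff 0 * h7
  -- no small factors
  have hs : snp psi (r 0) i0 G = ∅ := by
    by_contra hcon
    obtain ⟨l, bb, jj, ee, hjj, Q, hQ, hQ1⟩ := small_mut hQs hCz hTz hFj hGa hNz hNd hNr hTa hLd fd
      hθ hP hq' hf' ld (by rw [f0, abs_one]) hMc hP'
      ⟨r 1, e 1, KO57.tri_mut T hray (by decide)⟩ (Finset.nonempty_iff_ne_empty.mpr hcon)
    refine tri_no_one hM hF1 T hD hray hQ hQ1 ?_
    have h5 : W.coeff 0 + 2 * ((e 0 : RO ℤ) * W.coeff (r 0)) = toLaurent (q + X * f + X * f) := by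
      rw [hq, hf, map_add, map_add]
      ring
    rw [h5, toLaurent_ne_zero]
    intro h6
    have h7 := congrArg (fun p : ℤ[X] => p.coeff 0) h6
    simp only [coeff_add, mul_coeff_zero, coeff_X_zero, zero_mul, add_zero, coeff_zero, q0] at h7
    exact one_ne_zero h7
  have hbig : ∀ i, 1 < M ((G i).coeff 0) := by
    intro i
    by_contra hcon
    have h1 : i ∈ snp psi (r 0) i0 G := by
      unfold snp
      exact Finset.mem_filter.mpr ⟨Finset.mem_univ i, hcon, nopure i⟩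
    rw [hs] at h1
    exact absurd h1 (Finset.notMem_empty i)
  -- the rank
  have hker := finrank_ker hRk h0
  have hz1i : psi (r 1) i0 = 0 := (T.dis 0 1 (by decide) i0).resolve_left (by
    intro h5
    have h6 : psi (r 0) i0 = 1 := h0
    rw [h5] at h6
    exact zero_ne_one h6)
  obtain ⟨Z1, hZ1⟩ : ∃ Z1 : Ker (co psi i0), (Z1 : K) = r 1 := ⟨⟨r 1, hz1i⟩, rfl⟩
  have hrk : 2 * j ≤ rk (supp (cl (co psi i0) (r 0) h0 (e 0) W)) + 2 := by
    by_contra hcon
    have h5 := rk_insert_le (supp (cl (co psi i0) (r 0) h0 (e 0) W)) Z1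
    obtain ⟨nu, hnu, hnu0⟩ := hKm (Ker (co psi i0))
      (insert Z1 (supp (cl (co psi i0) (r 0) h0 (e 0) W))) (by omega)
    apply hnu
    apply hkl nu (fun a ha => hnu0 a (Set.mem_insert_of_mem _ ha))
    intro y1 hy1
    have h6 : y1 = Z1 := Subtype.ext (hy1.trans hZ1.symm)
    rw [h6]
    exact hnu0 _ (Set.mem_insert _ _)
  obtain ⟨l⟩ := fac_ex fd (by omega)
  obtain ⟨h3, h4, -⟩ := one_fac hE1 hMV hMm fd.c0 hx hP2 hbig l
  have h7 : ∏ i, G i = G l := by
    rw [Finset.prod_eq_single l]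
    · intro i _ hi
      exact absurd (h3 i) hi
    · intro hi
      exact absurd (Finset.mem_univ l) hi
  have h8 : supp (cl (co psi i0) (r 0) h0 (e 0) W) = supp (G l) := by
    rw [hprod, h7, H56.supp_cst_mul fd.c0]
  rw [h8] at hrk
  obtain ⟨K', hK', hsub, hfrK, hirr, hun, hrkK⟩ := hRW ℤ (Ker (co psi i0)) (G l)
    (fd.irr l).ne_zero
  have hDD : DD ((phO psi (r 0) i0).comp (incl K')) (res K' (G l)) := by
    refine ⟨inj.comp fun _ _ hh => Subtype.ext hh, fun a ha => hbin _ (fd.ww l _ ha), ?_,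
      hun (fd.un l), hirr (fd.irr l), by rw [hrkK, hfrK]⟩
    exact (hRS ℤ (Ker (co psi i0)) (G l) K' hK' hsub).mp (fd.st l)
  have hle : Module.finrank ℤ K' ≤ Module.finrank ℤ (Ker (co psi i0)) := by
    rw [hfrK]
    exact (hRk (Ker (co psi i0)) (Ker (co psi i0))).2.2.1 _
  have hcP : ClassP b⁻¹ ((res K' (G l)).coeff 0) := by
    rw [res_coeff]
    exact h4
  have hbk := hIH (Module.finrank ℤ K') (by omega) b⁻¹ P K' _ _ hDD hcP rfl
  have hj' : (2 : ℝ) ≤ j := by exact_mod_cast hj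
  rw [one_div, inv_inv] at hbk
  rcases (by omega : Module.finrank ℤ K' = 2 * j - 2 ∨ Module.finrank ℤ K' = 2 * j - 1) with h9 | h9
  · have h10 := hbk.1 (by rw [h9]; exact ⟨j - 1, by omega⟩)
    rw [h9, Nat.cast_sub (by omega)] at h10
    push_cast at h10
    linarith
  · have h10 := hbk.2 (by rw [h9, Nat.odd_iff]; omega)
    rw [h9, Nat.cast_sub (by omega)] at h10
    push_cast at h10
    linarith

end

end Pool.Agent.B5.KO90
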