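import Pool.Agent.Lib.MP_b5021c_nt.KO.H90.TkBa
import Pool.Agent.Lib.MP_b5021c_nt.KO.H13.Tk3
import Pool.Agent.Lib.MP_b5021c_nt.KO.H52.Kcl
import Pool.Agent.Lib.MP_b5021c_nt.KO.H57.T2m

/-!
# MP_b5021c_nt, all `θ`, K odd, `l = 3`, ALPHA, row TK_BD: lemmas

* `par2` : a parity lemma.
* `us_cl` : a functional which kills the closing at `r` kills it after the closing of a neutral ray.
* `face3` : the face of `T`, `Z 0`, `R`.
* `psi_val` : the class of `R` in the closing of `T` and `Z 0` at the loads B.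
-/

set_option linter.unusedSectionVars false

namespace Pool.Agent.B5.KO90

open scoped LaurentPolynomial
open Polynomial
open Pool.Agent.B5.KE
open Pool.Agent.B5.KO67 (cl_co)
open Pool.Agent.B5.O4X (Tk3)
open Pool.Agent.B5.KO.H96 (Alp)
open Pool.Agent.B5.KO.H71 (Tri Fr)

/-- PARITY. -/
theorem par2 {p1 : ℤ[X]} {n : ℕ} (hodd : Odd (p1.coeff 0)) (H : RO ℤ) :
    toLaurent (X ^ n * p1) + (2 - LaurentPolynomial.T 2) * H ≠ 0 := by
  intro h0
  have hp1 : p1.coeff 0 ≠ 0 := by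
    intro h1
    rw [h1] at hodd
    exact absurd hodd (by decide)
  by_cases hH : H = 0
  · rw [hH, mul_zero, add_zero] at h0
    have h1 := toLaurent_eq_zero.mp h0
    have h2 := (mul_eq_zero.mp h1).resolve_left (pow_ne_zero _ X_ne_zero)
    rw [h2, coeff_zero] at hp1
    exact hp1 rfl
  · obtain ⟨m, g, hg0, hg⟩ := KO57.nfE hH
    have h1 : (LaurentPolynomial.T m : RO ℤ) * toLaurent ((C 2 - X ^ 2) * g) =
        LaurentPolynomial.T (n : ℤ) * toLaurent (-p1) := by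
      rw [map_mul, map_sub, toLaurent_C, toLaurent_X_pow, map_neg]
      rw [hg, map_mul, toLaurent_X_pow] at h0
      have e1 : (LaurentPolynomial.C (2 : ℤ) : RO ℤ) = 2 := map_ofNat _ 2
      rw [e1]
      push_cast at h0 ⊢
      linear_combination h0
    obtain ⟨-, h2⟩ := H09.nf_unique _ _ _ _ (by
      rw [mul_coeff_zero, coeff_sub, coeff_C_zero, coeff_X_pow, if_neg (by norm_num), sub_zero]
      exact mul_ne_zero two_ne_zero hg0) (by rw [coeff_neg]; exact neg_ne_zero.mpr hp1) h1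
    have h3 := congrArg (fun p : ℤ[X] => p.coeff 0) h2
    simp only [mul_coeff_zero, coeff_sub, coeff_C_zero, coeff_X_pow, coeff_neg] at h3
    rw [if_neg (by norm_num), sub_zero] at h3
    obtain ⟨t, ht⟩ := hodd
    omega

section

variable {P L : Type} [Fintype P] [DecidableEq P] [AddCommGroup L] [Module.Free ℤ L]
  [Module.Finite ℤ L]

/-- A functional which kills the closing at `r`, after the closing of a neutral ray. -/
theorem us_cl {k : L →+ ℤ} {S : L} (h : k S = 1) (eta e : (RO ℤ)ˣ) {G : AO ℤ L} {r : L}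
    (hr : prj k S h r ≠ 0) {mu : L →+ ℤ} (hmS : mu S = 0) (hmr : mu r = 0)
    (hmu : ∀ a ∈ US e r G, mu a = 0) :
    ∀ a ∈ US (e * eta ^ (-(k r))) (prj k S h r) (cl k S h eta G), mu (a : L) = 0 := by
  intro a ha
  have h1 := KO.H71.us_zeroO (nu := mu.comp (incl (Ker k))) (S := prj k S h r)
    (e := e * eta ^ (-(k r))) (D := cl k S h eta G) (by
      change mu ((prj k S h r : Ker k) : L) = 0
      rw [prj_coe, map_sub, map_zsmul, hmr, hmS, smul_zero, sub_zero])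
    (fun x hx => KO.H71.cl_vco h eta e G hr hmS (fun b hb => hmu b (KO.H71.vco_mem hb)) x hx) a ha
  exact h1

/-- Injectivity of the ports of the closing. -/
theorem phO_inj {phi : L →+ (P → ℤ)} {S : L} (hI : ImS phi S) {i : P} (h : co phi i S = 1) :
    Function.Injective (phO phi S i) := by
  rw [injective_iff_map_eq_zero]
  intro a ha
  obtain ⟨k, hk⟩ := hI (a : L) (by
    intro j hj
    have h4 : phO phi S i a j = 0 := by rw [ha]; rfl
    change (if phi S j = 0 then phi (a : L) j else 0) = 0 at h4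
    rw [if_pos hj] at h4
    exact h4)
  have h1 : co phi i (a : L) = 0 := a.2
  rw [hk, map_zsmul, h, smul_eq_mul, mul_one] at h1
  apply Subtype.ext
  rw [hk, h1, zero_smul]
  rfl

/-- Binary exponents of the closing. -/
theorem cl_bin {phi : L →+ (P → ℤ)} {G : AO ℤ L} (hb : ∀ a ∈ supp G, Bin phi a) {S : L} {i : P}
    (h : co phi i S = 1) {u : (RO ℤ)ˣ} : ∀ a ∈ supp (cl (co phi i) S h u G),
      Bin (phO phi S i) a := by
  intro a ha
  obtain ⟨x, hx1, rfl⟩ := KO.H71.cl_supp h u ha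
  intro p
  change (if phi S p = 0 then phi ((prj (co phi i) S h x : Ker (co phi i)) : L) p
    else 0) = 0 ∨ (if phi S p = 0 then
      phi ((prj (co phi i) S h x : Ker (co phi i)) : L) p else 0) = 1
  by_cases hp : phi S p = 0
  · rw [if_pos hp, prj_coe, map_sub, map_zsmul, Pi.sub_apply, Pi.smul_apply, hp, smul_zero,
      sub_zero]
    exact hb x hx1 p
  · left
    rw [if_neg hp]

variable {phi : L →+ (P → ℤ)} {D : AO ℤ L} {eta : L → (RO ℤ)ˣ} {q f f' : ℤ[X]} {a : ℝ}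
  {j k' : ℕ} {Z : ZMod 3 → L} {mu : ZMod 3 → L →+ ℤ} {Z' : ZMod (k' + 3) → L}
  {mu' : ZMod (k' + 3) → L →+ ℤ} {T : L} {e : (RO ℤ)ˣ} {nuC : L →+ ℤ}

/-- The face of `T`, `Z 0`, `Z' 0`. -/
theorem face3 (hE2 : E2S) (hRS : RaySpanS) (H : Tk3 phi D q f f' a j eta k' Z mu Z' mu' T e nuC) :
    ∃ lam : L →+ ℤ, lam T = 0 ∧ lam (Z 0) = 0 ∧ lam (Z' 0) = 0 ∧ ∀ c ∈ supp D, 0 ≤ lam c ∧
      (lam c = 0 → ∃ m x y z : ℤ, 0 < m ∧ m • c = x • T + y • Z 0 + z • Z' 0) := by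
  have A := H.alp
  have hD := A.w.ko.min.fp.dd
  have h2 : 2 ≤ Module.finrank ℤ L := by have := A.w.ko.rk; have := A.w.ko.j2; omega
  obtain ⟨-, -, l, hl0, hl⟩ := H.rT
  have rZ : Ray D (Z 0) := (A.c.mtl 0).r0
  have rR : Ray D (Z' 0) := (A.c'.mtl 0).r0
  have lZ : 0 < l (Z 0) := hl _ rZ.1 rZ.2.1 (fun h => H.TZ 0 h.symm)
  have lR : 0 < l (Z' 0) := hl _ rR.1 rR.2.1 (fun h => H.TZ' 0 h.symm)
  have m1 : mu 1 (Z 0) = -1 := by
    have h1 := A.c.prv 1
    rwa [show (1 : ZMod (0 + 3)) - 1 = 0 from by decide] at h1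
  have m2 : mu' 1 (Z' 0) = -1 := by
    have h1 := A.c'.prv 1
    rwa [sub_self] at h1
  have mT : mu 1 T = 0 := A.c.oth 1 T H.rT (H.TZ _) (H.TZ _)
  have mT' : mu' 1 T = 0 := A.c'.oth 1 T H.rT (H.TZ' _) (H.TZ' _)
  have pos : ∀ S, Ray D S → S ≠ Z 0 → 0 ≤ mu 1 S := by
    intro S hS hne
    by_cases h1 : S = Z (1 + 1)
    · rw [h1, A.c.nxt]
      norm_num
    · rw [A.c.oth 1 S hS h1 (by
        intro h3
        apply hne
        rw [h3]
        congr 1)]
  have pos' : ∀ S, Ray D S → S ≠ Z' 0 → 0 ≤ mu' 1 S := by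
    intro S hS hne
    by_cases h1 : S = Z' (1 + 1)
    · rw [h1, A.c'.nxt]
      norm_num
    · rw [A.c'.oth 1 S hS h1 (by rw [sub_self]; exact hne)]
  obtain ⟨lam, hlam⟩ : ∃ lam : L →+ ℤ, lam = l + l (Z 0) • mu 1 + l (Z' 0) • mu' 1 := ⟨_, rfl⟩
  have hv : ∀ x, lam x = l x + l (Z 0) * mu 1 x + l (Z' 0) * mu' 1 x := by
    intro x
    rw [hlam]
    simp only [AddMonoidHom.add_apply, AddMonoidHom.smul_apply, smul_eq_mul]
  have vT : lam T = 0 := by rw [hv, hl0, mT, mT']; ring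
  have vZ : lam (Z 0) = 0 := by rw [hv, m1, A.z' 0 1]; ring
  have vR : lam (Z' 0) = 0 := by rw [hv, m2, A.z 1 0]; ring
  have vO : ∀ S, Ray D S → S ≠ T → S ≠ Z 0 → S ≠ Z' 0 → 0 < lam S := by
    intro S hS h1 h3 h4
    rw [hv]
    have h5 := hl S hS.1 hS.2.1 h1
    have h6 := mul_nonneg lZ.le (pos S hS h3)
    have h7 := mul_nonneg lR.le (pos' S hS h4)
    linarith
  refine ⟨lam, vT, vZ, vR, fun c hc => ?_⟩
  by_cases hc0 : c = 0
  · subst hc0
    exact ⟨(map_zero lam).ge, fun _ => ⟨1, 0, 0, 0, one_pos, by simp⟩⟩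
  obtain ⟨-, hthin, -⟩ := hE2 ℤ P L phi D hD h2
  obtain ⟨lam0, hlam0, -⟩ := hD.st.2
  obtain ⟨m, hm, hmem⟩ := (hRS ℤ L D ⟨lam0, hlam0⟩ hthin).1 c hc hc0
  have hind : 0 ≤ lam (m • c) ∧ (lam (m • c) = 0 →
      ∃ x y z : ℤ, m • c = x • T + y • Z 0 + z • Z' 0) := by
    obtain ⟨y0, hy0⟩ : ∃ y, y = m • c := ⟨_, rfl⟩
    rw [← hy0] at hmem ⊢
    clear hy0
    induction hmem using AddSubmonoid.closure_induction with
    | mem y hy =>
      have hy' : Ray D y := hy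
      by_cases h3 : y = T
      · exact ⟨by rw [h3, vT], fun _ => ⟨1, 0, 0, by rw [h3]; simp⟩⟩
      by_cases h4 : y = Z 0
      · exact ⟨by rw [h4, vZ], fun _ => ⟨0, 1, 0, by rw [h4]; simp⟩⟩
      by_cases h5 : y = Z' 0
      · exact ⟨by rw [h5, vR], fun _ => ⟨0, 0, 1, by rw [h5]; simp⟩⟩
      have h6 := vO y hy' h3 h4 h5
      exact ⟨h6.le, fun h7 => absurd h7 h6.ne'⟩
    | zero => exact ⟨(map_zero lam).ge, fun _ => ⟨0, 0, 0, by simp⟩⟩
    | add y z _ _ hy hz =>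
      rw [map_add]
      refine ⟨add_nonneg hy.1 hz.1, fun h5 => ?_⟩
      obtain ⟨x1, x2, x3, e1⟩ := hy.2 (by linarith [hz.1, hy.1])
      obtain ⟨y1, y2, y3, e2⟩ := hz.2 (by linarith [hz.1, hy.1])
      exact ⟨x1 + y1, x2 + y2, x3 + y3, by
        rw [e1, e2, add_smul, add_smul, add_smul]
        abel⟩
  have hnz : (0 : ℤ) < (m : ℤ) := by exact_mod_cast hm
  rw [map_nsmul, nsmul_eq_mul] at hind
  refine ⟨?_, fun h3 => ?_⟩
  · by_contra hneg
    push Not at hneg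
    have := mul_neg_of_pos_of_neg hnz hneg
    omega
  · obtain ⟨x, y, z, h4⟩ := hind.2 (by rw [h3, mul_zero])
    exact ⟨m, x, y, z, hnz, by rw [natCast_zsmul]; exact h4⟩

/-- Two different rays: a port of the second outside the first. -/
theorem port_out (hI : Inj1S) (fp : FP phi D) {R S : L} (hR : Ray D R) (hS : Ray D S)
    (hne : R ≠ S) : ∃ p, phi R p = 0 ∧ phi S p = 1 := by
  by_contra hcon
  push Not at hcon
  exact hne (KO.nst hI fp hS hR (fun p hp =>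
    (fp.dd.bin S hS.1 p).resolve_right (hcon p hp))).symm

/-- The sum with the killer: `e D_(x+T) = D_x` for `x = R + Z 0`. -/
theorem tk3_krz (hF1 : F1S) (hF2 : F2S) (hF3 : F3S) (hI : Inj1S)
    (H : Tk3 phi D q f f' a j eta k' Z mu Z' mu' T e nuC) {R : L} (hR : KO.Fm D eta R)
    (hRZ : ∀ n, R ≠ Z n) : (e : RO ℤ) * D.coeff (R + Z 0 + T) = D.coeff (R + Z 0) := by
  have A := H.alp
  have fp := A.w.ko.min.fp
  have hD := fp.dd
  have rZ : Ray D (Z 0) := (A.c.mtl 0).r0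
  have hTZ : ∀ p, phi (Z 0) p = 0 ∨ phi T p = 0 := fun p =>
    hF2 ℤ P L phi D (Z 0) T (eta T) hD.inj hD.bin rZ H.rT (H.kil 0) p
  have hRT : R ∈ US (eta T) T D := H.fm R hR hRZ
  have hout : R + Z 0 ∉ US (eta T) T D := fun hh => H.kil 0 (by
    have := Submodule.sub_mem _ hh hRT
    rwa [add_sub_cancel_left] at this)
  have hTF := hF1 ℤ P L phi D T (eta T) hD.inj hD.bin (hD.bin T H.rT.1) H.rT.2.1 _ hout
  have hne : R ≠ T := fun hh => H.nT (by rw [← hh]; exact H.nfm R hR hRZ)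
  have hrel : (∀ p, phi (R + Z 0) p = 0 ∨ phi T p = 0) →
      (e : RO ℤ) * D.coeff (R + Z 0 + T) = D.coeff (R + Z 0) := by
    intro hd
    have h1 := hTF.2 hd
    rw [H.eT, Units.val_neg] at h1
    linear_combination -h1
  by_cases hx : D.coeff (R + Z 0 + T) = 0
  · rw [hx, mul_zero]
    by_contra hne0
    have hx0 : D.coeff (R + Z 0) ≠ 0 := fun h => hne0 h.symm
    by_cases hd : ∀ p, phi (R + Z 0) p = 0 ∨ phi T p = 0
    · have h1 := hrel hd
      rw [hx, mul_zero] at h1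
      exact hne0 h1
    · push Not at hd
      obtain ⟨p, hp1, hp2⟩ := hd
      obtain ⟨p', h3, h4⟩ := port_out hI fp hR.1 H.rT hne
      apply hx0
      exact hTF.1 ⟨p, (hD.bin _ hx0 p).resolve_left hp1, (hD.bin T H.rT.1 p).resolve_left hp2⟩
        ⟨p', by
          rw [map_add, Pi.add_apply, h3, (hTZ p').resolve_right (by rw [h4]; exact one_ne_zero),
            add_zero], h4⟩
  · apply hrel
    intro p
    have h1 := hD.bin _ hx p
    have h3 := hD.bin T H.rT.1 p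
    have h4 := hD.bin _ rZ.1 p
    have h5 := hD.bin R hR.1.1 p
    have h6 := hTZ p
    rw [map_add, Pi.add_apply, map_add, Pi.add_apply] at h1
    rw [map_add, Pi.add_apply]
    omega

/-- THE CLASS OF `R`. -/
theorem tk3_psi (hF1 : F1S) (hF2 : F2S) (hF3 : F3S) (hI : Inj1S)
    (H : Tk3 phi D q f f' a j eta k' Z mu Z' mu' T e nuC) {R : L} (hR : KO.Fm D eta R)
    (hRZ : ∀ n, R ≠ Z n) :
    (D.coeff R + ((ld e 1 : (RO ℤ)ˣ) : RO ℤ) * D.coeff (R + T)) + (eta (Z 0) : RO ℤ) *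
      (D.coeff (R + Z 0) + ((ld e 1 : (RO ℤ)ˣ) : RO ℤ) * D.coeff (R + Z 0 + T)) =
      D.coeff R + (2 - LaurentPolynomial.T 2) * ((eta (Z 0) : RO ℤ) * D.coeff (R + Z 0)) := by
  have h1 := H.dtr hF1 hF2 hF3 hI hR hRZ 0
  have h2 := tk3_krz hF1 hF2 hF3 hI H hR hRZ
  rw [H.eT, Units.val_neg] at h1
  rw [ld_val]
  linear_combination -h1 + (eta (Z 0) : RO ℤ) * LaurentPolynomial.T 1 * h2

end

end Pool.Agent.B5.KO90
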